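import Pool.Agent.Work.MP_a2fcf1_an_h64.Word

/-!
# Summation over the lattice with word-length weights
-/

namespace Pool.Agent.Work.MP_a2fcf1_an_h64

/-- The one-dimensional summand. -/
noncomputable def z2 (z : ℤ) : ℝ := ((1 + |(z : ℝ)|) ^ 2)⁻¹

theorem z2_nonneg (z : ℤ) : 0 ≤ z2 z := by unfold z2; positivity

theorem summable_z2 : Summable z2 := by
  have h : Summable fun n : ℕ => (((n : ℝ) + 1) ^ 2)⁻¹ := by
    have h1 := (summable_nat_add_iff 1).mpr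
      (Real.summable_nat_pow_inv.mpr (by norm_num : 1 < 2))
    simpa using h1
  apply Summable.of_nat_of_neg
  · refine h.congr fun n => ?_
    simp [z2, add_comm]
  · refine h.congr fun n => ?_
    simp [z2, add_comm]

/-- The three-dimensional summand. -/
noncomputable def z3 (x : (ℤ × ℤ) × ℤ) : ℝ := z2 x.1.1 * z2 x.1.2 * z2 x.2

theorem z3_nonneg (x : (ℤ × ℤ) × ℤ) : 0 ≤ z3 x :=
  mul_nonneg (mul_nonneg (z2_nonneg _) (z2_nonneg _)) (z2_nonneg _)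

theorem summable_z3 : Summable z3 := by
  have h1 : Summable fun x : ℤ × ℤ => z2 x.1 * z2 x.2 :=
    summable_z2.mul_of_nonneg summable_z2 z2_nonneg z2_nonneg
  exact h1.mul_of_nonneg summable_z2 (fun x => mul_nonneg (z2_nonneg _) (z2_nonneg _)) z2_nonneg

/-- The lattice constant. -/
noncomputable def Z6 : ℝ := ∑' x, z3 x

theorem Z6_nonneg : 0 ≤ Z6 := tsum_nonneg z3_nonneg

theorem z3_ge {n : ℤ × ℤ} (k : ℤ × ℤ) :
    ((1 + (rho n k : ℝ)) ^ 6)⁻¹ ≤ z3 (k - rm n k • n, rm n k) := by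
  have h := rho_eq n k
  set p := k - rm n k • n with hp
  set m := rm n k with hm
  have h1 : (rho n k : ℝ) = |(p.1 : ℝ)| + |(p.2 : ℝ)| + |(m : ℝ)| := by
    rw [h]
    push_cast
    rw [n1_cast]
    simp [Nat.cast_natAbs]
  rw [h1, z3, z2, z2, z2, ← mul_inv, ← mul_inv]
  have a0 := abs_nonneg (p.1 : ℝ)
  have b0 := abs_nonneg (p.2 : ℝ)
  have c0 := abs_nonneg (m : ℝ)
  apply inv_anti₀ (by positivity)
  have e : (1 + (|(p.1 : ℝ)| + |(p.2 : ℝ)| + |(m : ℝ)|)) ^ 6 =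
      (1 + (|(p.1 : ℝ)| + |(p.2 : ℝ)| + |(m : ℝ)|)) ^ 2 *
      (1 + (|(p.1 : ℝ)| + |(p.2 : ℝ)| + |(m : ℝ)|)) ^ 2 *
      (1 + (|(p.1 : ℝ)| + |(p.2 : ℝ)| + |(m : ℝ)|)) ^ 2 := by ring
  rw [e]
  gcongr <;> linarith

theorem inj_decomp (n : ℤ × ℤ) :
    Function.Injective fun k : ℤ × ℤ => (k - rm n k • n, rm n k) := by
  intro j l h
  have h2 : rm n j = rm n l := congrArg Prod.snd h
  have h1 : j - rm n j • n = l - rm n l • n := congrArg Prod.fst h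
  rw [h2] at h1
  exact sub_left_injective h1

theorem summable_P6 (n : ℤ × ℤ) : Summable fun k : ℤ × ℤ => ((1 + (rho n k : ℝ)) ^ 6)⁻¹ :=
  Summable.of_nonneg_of_le (fun k => by positivity) z3_ge
    (summable_z3.comp_injective (inj_decomp n))

theorem tsum_P6_le (n : ℤ × ℤ) : ∑' k : ℤ × ℤ, ((1 + (rho n k : ℝ)) ^ 6)⁻¹ ≤ Z6 := by
  calc ∑' k : ℤ × ℤ, ((1 + (rho n k : ℝ)) ^ 6)⁻¹
      ≤ ∑' k : ℤ × ℤ, z3 (k - rm n k • n, rm n k) :=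
        (summable_P6 n).tsum_le_tsum z3_ge (summable_z3.comp_injective (inj_decomp n))
    _ ≤ Z6 := tsum_comp_le_tsum_of_inj summable_z3 z3_nonneg (inj_decomp n)

/-- The summable pair weight. -/
noncomputable def pw (n k j : ℤ × ℤ) : ℝ :=
  ((1 + (rho n j : ℝ)) ^ 6)⁻¹ + ((1 + (rho n (k - j) : ℝ)) ^ 6)⁻¹

theorem pw_nonneg (n k j : ℤ × ℤ) : 0 ≤ pw n k j := by unfold pw; positivity

theorem summable_pw (n k : ℤ × ℤ) : Summable (pw n k) := by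
  apply (summable_P6 n).add
  exact (Equiv.subLeft k).summable_iff.mpr (summable_P6 n)

theorem tsum_pw_le (n k : ℤ × ℤ) : ∑' j, pw n k j ≤ 2 * Z6 := by
  have h1 := summable_P6 n
  have h2 : Summable fun j : ℤ × ℤ => ((1 + (rho n (k - j) : ℝ)) ^ 6)⁻¹ :=
    (Equiv.subLeft k).summable_iff.mpr (summable_P6 n)
  have h3 : ∑' j : ℤ × ℤ, ((1 + (rho n (k - j) : ℝ)) ^ 6)⁻¹ =
      ∑' j : ℤ × ℤ, ((1 + (rho n j : ℝ)) ^ 6)⁻¹ :=
    (Equiv.subLeft k).tsum_eq (fun j : ℤ × ℤ => ((1 + (rho n j : ℝ)) ^ 6)⁻¹)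
  unfold pw
  rw [h1.tsum_add h2, h3]
  have := tsum_P6_le n
  linarith

/-- Two positive numbers `a`, `b` with `c ≤ a + b`. -/
theorem peetre6 {a b c : ℝ} (ha : 1 ≤ a) (hb : 1 ≤ b) (hc : 1 ≤ c) (h : c ≤ a + b) :
    (a ^ 6)⁻¹ * (b ^ 6)⁻¹ ≤ 64 * (c ^ 6)⁻¹ * ((a ^ 6)⁻¹ + (b ^ 6)⁻¹) := by
  wlog hab : b ≤ a generalizing a b
  · have := this hb ha (by linarith) (le_of_not_ge hab)
    rw [mul_comm, add_comm]
    exact this
  have h1 : c / 2 ≤ a := by linarith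
  have h2 : (a ^ 6)⁻¹ ≤ 64 * (c ^ 6)⁻¹ := by
    have : (c / 2) ^ 6 ≤ a ^ 6 := by gcongr
    calc (a ^ 6)⁻¹ ≤ ((c / 2) ^ 6)⁻¹ := inv_anti₀ (by positivity) this
      _ = 64 * (c ^ 6)⁻¹ := by field_simp; norm_num
  calc (a ^ 6)⁻¹ * (b ^ 6)⁻¹ ≤ 64 * (c ^ 6)⁻¹ * (b ^ 6)⁻¹ := by gcongr
    _ ≤ 64 * (c ^ 6)⁻¹ * ((a ^ 6)⁻¹ + (b ^ 6)⁻¹) := by
        gcongr
        have : 0 ≤ (a ^ 6)⁻¹ := by positivity
        linarith

theorem peetre7 {a b c : ℝ} (ha : 1 ≤ a) (hb : 1 ≤ b) (hc : 1 ≤ c) (h : c ≤ a + b) :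
    min a b * ((a ^ 7)⁻¹ * (b ^ 7)⁻¹) ≤ 128 * (c ^ 7)⁻¹ * ((a ^ 6)⁻¹ + (b ^ 6)⁻¹) := by
  wlog hab : b ≤ a generalizing a b
  · have := this hb ha (by linarith) (le_of_not_ge hab)
    rw [min_comm, mul_comm (a ^ 7)⁻¹, add_comm]
    exact this
  have h1 : c / 2 ≤ a := by linarith
  have h2 : (a ^ 7)⁻¹ ≤ 128 * (c ^ 7)⁻¹ := by
    have : (c / 2) ^ 7 ≤ a ^ 7 := by gcongr
    calc (a ^ 7)⁻¹ ≤ ((c / 2) ^ 7)⁻¹ := inv_anti₀ (by positivity) this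
      _ = 128 * (c ^ 7)⁻¹ := by field_simp; norm_num
  rw [min_eq_right hab]
  calc b * ((a ^ 7)⁻¹ * (b ^ 7)⁻¹) = (a ^ 7)⁻¹ * (b ^ 6)⁻¹ := by field_simp
    _ ≤ 128 * (c ^ 7)⁻¹ * (b ^ 6)⁻¹ := by gcongr
    _ ≤ 128 * (c ^ 7)⁻¹ * ((a ^ 6)⁻¹ + (b ^ 6)⁻¹) := by
        gcongr
        have : 0 ≤ (a ^ 6)⁻¹ := by positivity
        linarith

/-- Product of sixth inverse powers. -/
theorem conv6 (n k j : ℤ × ℤ) :
    ((1 + (rho n j : ℝ)) ^ 6)⁻¹ * ((1 + (rho n (k - j) : ℝ)) ^ 6)⁻¹ ≤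
      64 * ((1 + (rho n k : ℝ)) ^ 6)⁻¹ * pw n k j := by
  have h : (rho n k : ℝ) ≤ rho n j + rho n (k - j) := by
    have := rho_add_le n j (k - j)
    rw [add_sub_cancel] at this
    exact_mod_cast this
  have a0 : (0 : ℝ) ≤ rho n j := Nat.cast_nonneg _
  have b0 : (0 : ℝ) ≤ rho n (k - j) := Nat.cast_nonneg _
  have c0 : (0 : ℝ) ≤ rho n k := Nat.cast_nonneg _
  exact peetre6 (by linarith) (by linarith) (by linarith) (by linarith)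

theorem conv7 (n k j : ℤ × ℤ) :
    ((1 + (rho n j : ℝ)) ^ 7)⁻¹ * ((1 + (rho n (k - j) : ℝ)) ^ 7)⁻¹ ≤
      128 * ((1 + (rho n k : ℝ)) ^ 7)⁻¹ * pw n k j := by
  have h : (rho n k : ℝ) ≤ rho n j + rho n (k - j) := by
    have := rho_add_le n j (k - j)
    rw [add_sub_cancel] at this
    exact_mod_cast this
  have a0 : (0 : ℝ) ≤ rho n j := Nat.cast_nonneg _
  have b0 : (0 : ℝ) ≤ rho n (k - j) := Nat.cast_nonneg _
  have c0 : (0 : ℝ) ≤ rho n k := Nat.cast_nonneg _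
  refine le_trans ?_ (peetre7 (by linarith) (by linarith) (by linarith)
    (by linarith : 1 + (rho n k : ℝ) ≤ (1 + rho n j) + (1 + rho n (k - j))))
  apply le_mul_of_one_le_left (by positivity)
  exact le_min (by linarith) (by linarith)

/-- The same with the sum norm and the smaller weight in front. -/
theorem convQ (n k j : ℤ × ℤ) :
    min (1 + (n1 j : ℝ)) (1 + (n1 (k - j) : ℝ)) *
      (((1 + (n1 j : ℝ)) ^ 7)⁻¹ * ((1 + (n1 (k - j) : ℝ)) ^ 7)⁻¹) ≤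
      128 * ((1 + (n1 k : ℝ)) ^ 7)⁻¹ * pw n k j := by
  have h : (n1 k : ℝ) ≤ n1 j + n1 (k - j) := by
    have := n1_add_le j (k - j)
    rw [add_sub_cancel] at this
    exact_mod_cast this
  have a0 : (0 : ℝ) ≤ n1 j := Nat.cast_nonneg _
  have b0 : (0 : ℝ) ≤ n1 (k - j) := Nat.cast_nonneg _
  have c0 : (0 : ℝ) ≤ n1 k := Nat.cast_nonneg _
  refine (peetre7 (by linarith) (by linarith) (by linarith)
    (by linarith : 1 + (n1 k : ℝ) ≤ (1 + n1 j) + (1 + n1 (k - j)))).trans ?_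
  have h1 : (rho n j : ℝ) ≤ n1 j := by exact_mod_cast rho_le_n1 n j
  have h2 : (rho n (k - j) : ℝ) ≤ n1 (k - j) := by exact_mod_cast rho_le_n1 n (k - j)
  unfold pw
  gcongr

end Pool.Agent.Work.MP_a2fcf1_an_h64
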