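import Pool.Agent.Work.MP_a2fcf1_an_h64.Basic

/-!
# Smoothness of trigonometric series with exponentially decaying coefficients
-/

namespace Pool.Agent.Work.MP_a2fcf1_an_h64

open Set

@[simp] theorem norm_ex (k : ℤ × ℤ) (x : ℝ × ℝ) : ‖ex k x‖ = 1 := by
  unfold ex
  rw [mul_comm]
  exact Complex.norm_exp_ofReal_mul_I _

theorem ex_add (j l : ℤ × ℤ) (x : ℝ × ℝ) : ex (j + l) x = ex j x * ex l x := by
  unfold ex
  rw [← Complex.exp_add]
  congr 1
  push_cast [Prod.fst_add, Prod.snd_add]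
  ring

@[simp] theorem ex_zero (x : ℝ × ℝ) : ex 0 x = 1 := by simp [ex]

theorem ex_neg (k : ℤ × ℤ) (x : ℝ × ℝ) : ex (-k) x = (starRingEnd ℂ) (ex k x) := by
  unfold ex
  rw [← Complex.exp_conj]
  congr 1
  rw [map_mul, Complex.conj_I, Complex.conj_ofReal]
  push_cast [Prod.fst_neg, Prod.snd_neg]
  ring

theorem continuous_ex (k : ℤ × ℤ) : Continuous (ex k) := by
  unfold ex
  fun_prop

/-- Exponential sums over the lattice converge. -/
theorem summable_exp {ε : ℝ} (hε : 0 < ε) :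
    Summable fun k : ℤ × ℤ => Real.exp (-(ε * n1 k)) := by
  have h1 : Summable fun z : ℤ => Real.exp (-(ε * |(z : ℝ)|)) := by
    have h : Summable fun n : ℕ => Real.exp (n * (-ε)) :=
      Real.summable_exp_nat_mul_iff.mpr (by linarith)
    apply Summable.of_nat_of_neg
    · refine h.congr fun n => ?_
      simp; ring_nf
    · refine h.congr fun n => ?_
      simp; ring_nf
  have h2 := h1.mul_of_nonneg h1 (fun _ => (Real.exp_pos _).le) (fun _ => (Real.exp_pos _).le)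
  refine h2.congr fun k => ?_
  rw [← Real.exp_add, n1_cast]
  congr 1
  ring

theorem lin_exp {ε x : ℝ} (hε : 0 < ε) (hx : 0 ≤ x) :
    (1 + x) * Real.exp (-(ε * x)) ≤ (1 + 2 / ε) * Real.exp (-(ε / 2 * x)) := by
  have e : Real.exp (-(ε * x)) = Real.exp (-(ε / 2 * x)) * Real.exp (-(ε / 2 * x)) := by
    rw [← Real.exp_add]; congr 1; ring
  have h1 : ε / 2 * x ≤ Real.exp (ε / 2 * x) := by
    have := Real.add_one_le_exp (ε / 2 * x)
    linarith
  have h2 : (ε / 2 * x) * Real.exp (-(ε / 2 * x)) ≤ 1 := by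
    calc (ε / 2 * x) * Real.exp (-(ε / 2 * x))
        ≤ Real.exp (ε / 2 * x) * Real.exp (-(ε / 2 * x)) :=
          mul_le_mul_of_nonneg_right h1 (Real.exp_pos _).le
      _ = 1 := by rw [← Real.exp_add]; simp
  have h3 : Real.exp (-(ε / 2 * x)) ≤ 1 := by
    rw [Real.exp_le_one_iff]
    have : 0 ≤ ε / 2 * x := by positivity
    linarith
  have h4 : (1 + x) * Real.exp (-(ε / 2 * x)) ≤ 1 + 2 / ε := by
    have e2 : (1 + x) * Real.exp (-(ε / 2 * x)) =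
        Real.exp (-(ε / 2 * x)) + (2 / ε) * ((ε / 2 * x) * Real.exp (-(ε / 2 * x))) := by
      field_simp
    rw [e2]
    have : (2 / ε) * ((ε / 2 * x) * Real.exp (-(ε / 2 * x))) ≤ (2 / ε) * 1 :=
      mul_le_mul_of_nonneg_left h2 (by positivity)
    linarith
  rw [e, ← mul_assoc]
  exact mul_le_mul_of_nonneg_right h4 (Real.exp_pos _).le

/-- Uniform exponential decay of a coefficient family for nonnegative times. -/
def Dec (b : ℤ × ℤ → ℝ → ℂ) : Prop :=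
  ∃ C ε : ℝ, 0 < ε ∧ 0 ≤ C ∧ ∀ k t, 0 ≤ t → ‖b k t‖ ≤ C * Real.exp (-(ε * n1 k))

/-- Families with `n` exponentially decaying time derivatives. -/
def Good : ℕ → (ℤ × ℤ → ℝ → ℂ) → Prop
  | 0, b => Dec b ∧ ∀ k, ContinuousOn (b k) (Ici 0)
  | (n + 1), b => Dec b ∧ ∃ b' : ℤ × ℤ → ℝ → ℂ, Good n b' ∧
      ∀ k t, 0 ≤ t → HasDerivWithinAt (b k) (b' k t) (Ici 0) t

theorem Good.dec {n : ℕ} {b : ℤ × ℤ → ℝ → ℂ} (h : Good n b) : Dec b := by
  cases n with
  | zero => exact h.1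
  | succ n => exact h.1

theorem Good.cont {n : ℕ} {b : ℤ × ℤ → ℝ → ℂ} (h : Good n b) (k : ℤ × ℤ) :
    ContinuousOn (b k) (Ici 0) := by
  cases n with
  | zero => exact h.2 k
  | succ n =>
    obtain ⟨-, b', -, hb⟩ := h
    intro t ht
    exact (hb k t ht).continuousWithinAt

theorem Good.zero_of {n : ℕ} {b : ℤ × ℤ → ℝ → ℂ} (h : Good n b) : Good 0 b := ⟨h.dec, h.cont⟩

theorem Good.pred {n : ℕ} {b : ℤ × ℤ → ℝ → ℂ} (h : Good (n + 1) b) : Good n b := by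
  induction n generalizing b with
  | zero => exact h.zero_of
  | succ n ih =>
    obtain ⟨hd, b', hb', hb⟩ := h
    exact ⟨hd, b', ih hb', hb⟩

theorem Dec.add {b g : ℤ × ℤ → ℝ → ℂ} (hb : Dec b) (hg : Dec g) :
    Dec fun k t => b k t + g k t := by
  obtain ⟨C, ε, hε, hC, h⟩ := hb
  obtain ⟨C', ε', hε', hC', h'⟩ := hg
  refine ⟨C + C', min ε ε', lt_min hε hε', by positivity, fun k t ht => ?_⟩
  have e1 : Real.exp (-(ε * n1 k)) ≤ Real.exp (-(min ε ε' * n1 k)) := by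
    rw [Real.exp_le_exp]
    have : min ε ε' * n1 k ≤ ε * n1 k :=
      mul_le_mul_of_nonneg_right (min_le_left _ _) (Nat.cast_nonneg _)
    linarith
  have e2 : Real.exp (-(ε' * n1 k)) ≤ Real.exp (-(min ε ε' * n1 k)) := by
    rw [Real.exp_le_exp]
    have : min ε ε' * n1 k ≤ ε' * n1 k :=
      mul_le_mul_of_nonneg_right (min_le_right _ _) (Nat.cast_nonneg _)
    linarith
  calc ‖b k t + g k t‖ ≤ ‖b k t‖ + ‖g k t‖ := norm_add_le _ _
    _ ≤ C * Real.exp (-(ε * n1 k)) + C' * Real.exp (-(ε' * n1 k)) :=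
        add_le_add (h k t ht) (h' k t ht)
    _ ≤ C * Real.exp (-(min ε ε' * n1 k)) + C' * Real.exp (-(min ε ε' * n1 k)) :=
        add_le_add (mul_le_mul_of_nonneg_left e1 hC) (mul_le_mul_of_nonneg_left e2 hC')
    _ = _ := by ring

theorem Good.add {n : ℕ} {b g : ℤ × ℤ → ℝ → ℂ} (hb : Good n b) (hg : Good n g) :
    Good n fun k t => b k t + g k t := by
  induction n generalizing b g with
  | zero => exact ⟨hb.dec.add hg.dec, fun k => (hb.cont k).add (hg.cont k)⟩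
  | succ n ih =>
    obtain ⟨hd, b', hb', hb1⟩ := hb
    obtain ⟨hd', g', hg', hg1⟩ := hg
    exact ⟨hd.add hd', fun k t => b' k t + g' k t, ih hb' hg',
      fun k t ht => (hb1 k t ht).add (hg1 k t ht)⟩

/-- Multipliers of linear growth. -/
def Lin1 (m : ℤ × ℤ → ℂ) : Prop := ∃ M : ℝ, 0 ≤ M ∧ ∀ k, ‖m k‖ ≤ M * (1 + n1 k)

theorem Dec.mul {m : ℤ × ℤ → ℂ} (hm : Lin1 m) {b : ℤ × ℤ → ℝ → ℂ} (hb : Dec b) :
    Dec fun k t => m k * b k t := by
  obtain ⟨M, hM, hm⟩ := hm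
  obtain ⟨C, ε, hε, hC, h⟩ := hb
  refine ⟨M * C * (1 + 2 / ε), ε / 2, by positivity, by positivity, fun k t ht => ?_⟩
  rw [norm_mul]
  calc ‖m k‖ * ‖b k t‖ ≤ (M * (1 + n1 k)) * (C * Real.exp (-(ε * n1 k))) :=
        mul_le_mul (hm k) (h k t ht) (norm_nonneg _) (by positivity)
    _ = M * C * ((1 + n1 k) * Real.exp (-(ε * n1 k))) := by ring
    _ ≤ M * C * ((1 + 2 / ε) * Real.exp (-(ε / 2 * n1 k))) :=
        mul_le_mul_of_nonneg_left (lin_exp hε (Nat.cast_nonneg _)) (by positivity)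
    _ = _ := by ring

theorem Good.mul {m : ℤ × ℤ → ℂ} (hm : Lin1 m) {n : ℕ} {b : ℤ × ℤ → ℝ → ℂ} (hb : Good n b) :
    Good n fun k t => m k * b k t := by
  induction n generalizing b with
  | zero => exact ⟨hb.dec.mul hm, fun k => continuousOn_const.mul (hb.cont k)⟩
  | succ n ih =>
    obtain ⟨hd, b', hb', hb1⟩ := hb
    exact ⟨hd.mul hm, fun k t => m k * b' k t, ih hb',
      fun k t ht => (hb1 k t ht).const_mul (m k)⟩

/-- Quadratic interaction of two families. -/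
noncomputable def conv (c : ℤ × ℤ → ℤ × ℤ → ℝ) (b g : ℤ × ℤ → ℝ → ℂ) (k : ℤ × ℤ) (t : ℝ) : ℂ :=
  ∑' j, ((c k j : ℝ) : ℂ) * (b j t * g (k - j) t)

/-- Admissible interaction coefficients. -/
def AdmC (c : ℤ × ℤ → ℤ × ℤ → ℝ) : Prop := ∀ k j, |c k j| ≤ n1 j + n1 (k - j)

theorem conv_bound {c : ℤ × ℤ → ℤ × ℤ → ℝ} (hc : AdmC c) {b g : ℤ × ℤ → ℝ → ℂ}
    (hb : Dec b) (hg : Dec g) :
    ∃ C ε : ℝ, 0 < ε ∧ 0 ≤ C ∧ ∀ k j t, 0 ≤ t →
      ‖((c k j : ℝ) : ℂ) * (b j t * g (k - j) t)‖ ≤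
        C * Real.exp (-(ε * n1 k)) * Real.exp (-(ε * n1 j)) := by
  obtain ⟨C, ε, hε, hC, h⟩ := hb
  obtain ⟨C', ε', hε', hC', h'⟩ := hg
  set η := min ε ε' with hη
  have hη0 : 0 < η := lt_min hε hε'
  refine ⟨C * C' * (1 + 2 / η), η / 4, by positivity, by positivity, fun k j t ht => ?_⟩
  set l := k - j with hl
  have e1 : Real.exp (-(ε * n1 j)) ≤ Real.exp (-(η * n1 j)) := by
    rw [Real.exp_le_exp]
    have : η * n1 j ≤ ε * n1 j :=
      mul_le_mul_of_nonneg_right (min_le_left _ _) (Nat.cast_nonneg _)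
    linarith
  have e2 : Real.exp (-(ε' * n1 l)) ≤ Real.exp (-(η * n1 l)) := by
    rw [Real.exp_le_exp]
    have : η * n1 l ≤ ε' * n1 l :=
      mul_le_mul_of_nonneg_right (min_le_right _ _) (Nat.cast_nonneg _)
    linarith
  have hk : (n1 k : ℝ) ≤ n1 j + n1 l := by
    have := n1_add_le j l
    rw [hl, add_sub_cancel] at this
    exact_mod_cast this
  have hj0 : (0 : ℝ) ≤ n1 j := Nat.cast_nonneg _
  have hl0 : (0 : ℝ) ≤ n1 l := Nat.cast_nonneg _
  rw [norm_mul, norm_mul, Complex.norm_real, Real.norm_eq_abs]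
  have b1 : ‖b j t‖ ≤ C * Real.exp (-(η * n1 j)) :=
    (h j t ht).trans (mul_le_mul_of_nonneg_left e1 hC)
  have b2 : ‖g l t‖ ≤ C' * Real.exp (-(η * n1 l)) :=
    (h' l t ht).trans (mul_le_mul_of_nonneg_left e2 hC')
  have hcc := hc k j
  calc |c k j| * (‖b j t‖ * ‖g l t‖)
      ≤ (n1 j + n1 l) * ((C * Real.exp (-(η * n1 j))) * (C' * Real.exp (-(η * n1 l)))) := by
        apply mul_le_mul hcc _ (by positivity) (by positivity)
        exact mul_le_mul b1 b2 (norm_nonneg _) (by positivity)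
    _ = C * C' * ((n1 j + n1 l) * Real.exp (-(η * (n1 j + n1 l)))) := by
        have : Real.exp (-(η * (n1 j + n1 l))) =
            Real.exp (-(η * n1 j)) * Real.exp (-(η * n1 l)) := by
          rw [← Real.exp_add]; congr 1; ring
        rw [this]; ring
    _ ≤ C * C' * ((1 + (n1 j + n1 l)) * Real.exp (-(η * (n1 j + n1 l)))) := by
        apply mul_le_mul_of_nonneg_left _ (mul_nonneg hC hC')
        apply mul_le_mul_of_nonneg_right _ (Real.exp_pos _).le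
        linarith
    _ ≤ C * C' * ((1 + 2 / η) * Real.exp (-(η / 2 * (n1 j + n1 l)))) :=
        mul_le_mul_of_nonneg_left (lin_exp hη0 (by positivity)) (by positivity)
    _ ≤ C * C' * ((1 + 2 / η) * (Real.exp (-(η / 4 * n1 k)) * Real.exp (-(η / 4 * n1 j)))) := by
        rw [← Real.exp_add]
        gcongr
        nlinarith
    _ = _ := by ring

theorem Dec.conv {c : ℤ × ℤ → ℤ × ℤ → ℝ} (hc : AdmC c) {b g : ℤ × ℤ → ℝ → ℂ}
    (hb : Dec b) (hg : Dec g) : Dec (conv c b g) := by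
  obtain ⟨C, ε, hε, hC, h⟩ := conv_bound hc hb hg
  refine ⟨C * ∑' j : ℤ × ℤ, Real.exp (-(ε * n1 j)), ε, hε,
    mul_nonneg hC (tsum_nonneg fun _ => (Real.exp_pos _).le), fun k t ht => ?_⟩
  have hs := (summable_exp hε).mul_left (C * Real.exp (-(ε * n1 k)))
  have := tsum_of_norm_bounded hs.hasSum (fun j => h k j t ht)
  rw [tsum_mul_left] at this
  calc ‖MP_a2fcf1_an_h64.conv c b g k t‖
      ≤ C * Real.exp (-(ε * n1 k)) * ∑' j : ℤ × ℤ, Real.exp (-(ε * n1 j)) := this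
    _ = _ := by ring

/-- Odd reflection of a function about its value at zero. -/
noncomputable def refl (b : ℝ → ℂ) (t : ℝ) : ℂ := if 0 ≤ t then b t else 2 * b 0 - b (-t)

theorem refl_of_nonneg (b : ℝ → ℂ) {t : ℝ} (h : 0 ≤ t) : refl b t = b t := by
  unfold refl; rw [if_pos h]

theorem refl_of_nonpos (b : ℝ → ℂ) {t : ℝ} (h : t ≤ 0) : refl b t = 2 * b 0 - b (-t) := by
  unfold refl
  split_ifs with h1
  · have : t = 0 := le_antisymm h h1
    subst this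
    simp; ring
  · rfl

theorem hasDerivAt_refl {b b' : ℝ → ℂ}
    (h : ∀ t, 0 ≤ t → HasDerivWithinAt b (b' t) (Ici 0) t) (t : ℝ) :
    HasDerivAt (refl b) (b' |t|) t := by
  have hr : ∀ s, 0 ≤ s → HasDerivWithinAt (refl b) (b' |s|) (Ici 0) s := by
    intro s hs
    rw [abs_of_nonneg hs]
    exact (h s hs).congr (fun x hx => refl_of_nonneg b hx) (refl_of_nonneg b hs)
  have hl : ∀ s, s ≤ 0 → HasDerivWithinAt (refl b) (b' |s|) (Iic 0) s := by
    intro s hs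
    rw [abs_of_nonpos hs]
    have h1 : HasDerivWithinAt (fun x : ℝ => b (-x)) ((-1 : ℝ) • b' (-s)) (Iic 0) s := by
      have h2 : HasDerivWithinAt (fun x : ℝ => -x) (-1) (Iic 0) s :=
        (hasDerivAt_neg s).hasDerivWithinAt
      have h3 : MapsTo (fun x : ℝ => -x) (Iic 0) (Ici 0) := by
        intro x hx
        simp only [mem_Iic] at hx
        simp only [mem_Ici]
        linarith
      exact HasDerivWithinAt.scomp s (h (-s) (by linarith)) h2 h3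
    have h4 : HasDerivWithinAt (fun x : ℝ => 2 * b 0 - b (-x)) (b' (-s)) (Iic 0) s := by
      have := (hasDerivWithinAt_const s (Iic 0) (2 * b 0)).fun_sub h1
      simpa using this
    exact h4.congr (fun x hx => refl_of_nonpos b hx) (refl_of_nonpos b hs)
  rcases lt_trichotomy t 0 with ht | ht | ht
  · exact (hl t ht.le).hasDerivAt (Iic_mem_nhds ht)
  · subst ht
    have := (hr 0 le_rfl).union (hl 0 le_rfl)
    rw [Ici_union_Iic, hasDerivWithinAt_univ] at this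
    exact this
  · exact (hr t ht.le).hasDerivAt (Ici_mem_nhds ht)

theorem norm_refl_le {b : ℝ → ℂ} {C : ℝ} (h : ∀ t, 0 ≤ t → ‖b t‖ ≤ C) (t : ℝ) :
    ‖refl b t‖ ≤ 3 * C := by
  have h0 := h 0 le_rfl
  have hC : 0 ≤ C := (norm_nonneg _).trans h0
  rcases le_total 0 t with ht | ht
  · rw [refl_of_nonneg b ht]
    have := h t ht
    linarith
  · rw [refl_of_nonpos b ht]
    have h1 := h (-t) (by linarith)
    calc ‖2 * b 0 - b (-t)‖ ≤ ‖2 * b 0‖ + ‖b (-t)‖ := norm_sub_le _ _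
      _ = 2 * ‖b 0‖ + ‖b (-t)‖ := by rw [norm_mul]; simp
      _ ≤ 3 * C := by linarith

/-- Termwise differentiation on a closed half line. -/
theorem hasDerivWithinAt_tsum_Ici {ι : Type*} {g g' : ι → ℝ → ℂ} {v : ι → ℝ}
    (hd : ∀ i t, 0 ≤ t → HasDerivWithinAt (g i) (g' i t) (Ici 0) t) (hv : Summable v)
    (hb : ∀ i t, 0 ≤ t → ‖g' i t‖ ≤ v i) (h0 : Summable fun i => g i 0) {t : ℝ} (ht : 0 ≤ t) :
    HasDerivWithinAt (fun t => ∑' i, g i t) (∑' i, g' i t) (Ici 0) t := by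
  have h1 : HasDerivAt (fun t => ∑' i, refl (g i) t) (∑' i, g' i |t|) t := by
    apply hasDerivAt_tsum hv (fun i y => hasDerivAt_refl (hd i) y)
      (fun i y => hb i _ (abs_nonneg y)) (y₀ := 0)
    refine h0.congr fun i => ?_
    rw [refl_of_nonneg _ le_rfl]
  rw [abs_of_nonneg ht] at h1
  refine h1.hasDerivWithinAt.congr (fun s hs => ?_) ?_
  · exact tsum_congr fun i => (refl_of_nonneg _ hs).symm
  · exact tsum_congr fun i => (refl_of_nonneg _ ht).symm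

theorem Good.conv {c : ℤ × ℤ → ℤ × ℤ → ℝ} (hc : AdmC c) {n : ℕ} {b g : ℤ × ℤ → ℝ → ℂ}
    (hb : Good n b) (hg : Good n g) : Good n (conv c b g) := by
  induction n generalizing b g with
  | zero =>
    refine ⟨hb.dec.conv hc hg.dec, fun k => ?_⟩
    obtain ⟨C, ε, hε, hC, h⟩ := conv_bound hc hb.dec hg.dec
    unfold MP_a2fcf1_an_h64.conv
    apply continuousOn_tsum (u := fun j => C * Real.exp (-(ε * n1 k)) * Real.exp (-(ε * n1 j)))
    · intro j
      exact continuousOn_const.mul ((hb.cont j).mul (hg.cont (k - j)))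
    · exact (summable_exp hε).mul_left _
    · intro j t ht
      exact h k j t ht
  | succ n ih =>
    have hb0 := hb.pred
    have hg0 := hg.pred
    obtain ⟨hd, b', hb', hb1⟩ := hb
    obtain ⟨hd', g', hg', hg1⟩ := hg
    refine ⟨hd.conv hc hd', fun k t => MP_a2fcf1_an_h64.conv c b' g k t +
      MP_a2fcf1_an_h64.conv c b g' k t, (ih hb' hg0).add (ih hb0 hg'), fun k t ht => ?_⟩
    obtain ⟨C1, ε1, hε1, hC1, h1⟩ := conv_bound hc hb'.dec hd'
    obtain ⟨C2, ε2, hε2, hC2, h2⟩ := conv_bound hc hd hg'.dec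
    obtain ⟨C3, ε3, hε3, hC3, h3⟩ := conv_bound hc hd hd'
    have s1 := (summable_exp hε1).mul_left (C1 * Real.exp (-(ε1 * n1 k)))
    have s2 := (summable_exp hε2).mul_left (C2 * Real.exp (-(ε2 * n1 k)))
    have s3 := (summable_exp hε3).mul_left (C3 * Real.exp (-(ε3 * n1 k)))
    have key := hasDerivWithinAt_tsum_Ici
      (g := fun j t => ((c k j : ℝ) : ℂ) * (b j t * g (k - j) t))
      (g' := fun j t => ((c k j : ℝ) : ℂ) * (b' j t * g (k - j) t) +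
        ((c k j : ℝ) : ℂ) * (b j t * g' (k - j) t))
      (fun j t ht => by
        have := ((hb1 j t ht).mul (hg1 (k - j) t ht)).const_mul ((c k j : ℝ) : ℂ)
        refine this.congr_deriv ?_
        ring)
      (s1.add s2)
      (fun j t ht => (norm_add_le _ _).trans (add_le_add (h1 k j t ht) (h2 k j t ht)))
      (Summable.of_norm_bounded s3 fun j => h3 k j 0 le_rfl) ht
    refine key.congr_deriv ?_
    unfold MP_a2fcf1_an_h64.conv
    rw [Summable.tsum_add]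
    · exact Summable.of_norm_bounded s1 fun j => h1 k j t ht
    · exact Summable.of_norm_bounded s2 fun j => h2 k j t ht

/-- The trigonometric series. -/
noncomputable def ser (b : ℤ × ℤ → ℝ → ℂ) (p : ℝ × (ℝ × ℝ)) : ℂ :=
  ∑' k, b k p.1 * ex k p.2

theorem Dec.summable {b : ℤ × ℤ → ℝ → ℂ} (hb : Dec b) {t : ℝ} (ht : 0 ≤ t) :
    Summable fun k => ‖b k t‖ := by
  obtain ⟨C, ε, hε, hC, h⟩ := hb
  exact Summable.of_nonneg_of_le (fun _ => norm_nonneg _) (fun k => h k t ht)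
    ((summable_exp hε).mul_left C)

theorem Dec.summable_ex {b : ℤ × ℤ → ℝ → ℂ} (hb : Dec b) {t : ℝ} (ht : 0 ≤ t) (x : ℝ × ℝ) :
    Summable fun k => b k t * ex k x := by
  apply Summable.of_norm
  refine (hb.summable ht).congr fun k => ?_
  rw [norm_mul, norm_ex, mul_one]

/-- The linear form with given partial derivatives. -/
noncomputable def lf (z : ℂ × ℂ × ℂ) : ℝ × (ℝ × ℝ) →L[ℝ] ℂ :=
  (ContinuousLinearMap.fst ℝ ℝ (ℝ × ℝ)).smulRight z.1 +
  ((ContinuousLinearMap.fst ℝ ℝ ℝ).comp (ContinuousLinearMap.snd ℝ ℝ (ℝ × ℝ))).smulRight z.2.1 +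
  ((ContinuousLinearMap.snd ℝ ℝ ℝ).comp (ContinuousLinearMap.snd ℝ ℝ (ℝ × ℝ))).smulRight z.2.2

theorem lf_apply (z : ℂ × ℂ × ℂ) (v : ℝ × (ℝ × ℝ)) :
    lf z v = (v.1 : ℂ) * z.1 + (v.2.1 : ℂ) * z.2.1 + (v.2.2 : ℂ) * z.2.2 := by
  simp [lf]

theorem norm_lf_le (z : ℂ × ℂ × ℂ) : ‖lf z‖ ≤ ‖z.1‖ + ‖z.2.1‖ + ‖z.2.2‖ := by
  apply ContinuousLinearMap.opNorm_le_bound _ (by positivity)
  intro v
  rw [lf_apply]
  have h1 : ‖v.1‖ ≤ ‖v‖ := norm_fst_le v
  have h2 : ‖v.2.1‖ ≤ ‖v‖ := (norm_fst_le v.2).trans (norm_snd_le v)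
  have h3 : ‖v.2.2‖ ≤ ‖v‖ := (norm_snd_le v.2).trans (norm_snd_le v)
  calc ‖(v.1 : ℂ) * z.1 + (v.2.1 : ℂ) * z.2.1 + (v.2.2 : ℂ) * z.2.2‖
      ≤ ‖(v.1 : ℂ) * z.1‖ + ‖(v.2.1 : ℂ) * z.2.1‖ + ‖(v.2.2 : ℂ) * z.2.2‖ := norm_add₃_le
    _ = ‖v.1‖ * ‖z.1‖ + ‖v.2.1‖ * ‖z.2.1‖ + ‖v.2.2‖ * ‖z.2.2‖ := by
        rw [norm_mul, norm_mul, norm_mul, Complex.norm_real, Complex.norm_real,
          Complex.norm_real]
    _ ≤ ‖v‖ * ‖z.1‖ + ‖v‖ * ‖z.2.1‖ + ‖v‖ * ‖z.2.2‖ := by gcongr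
    _ = _ := by ring

/-- The linear form depends linearly on the partial derivatives. -/
noncomputable def lfL : (ℂ × ℂ × ℂ) →L[ℝ] (ℝ × (ℝ × ℝ) →L[ℝ] ℂ) :=
  LinearMap.mkContinuous
    { toFun := lf
      map_add' := fun z w => by
        ext
        · simp [lf_apply]
        · simp [lf_apply]
        · simp [lf_apply]
      map_smul' := fun c z => by
        ext
        · simp [lf_apply]
        · simp [lf_apply]
        · simp [lf_apply] }
    3 (fun z => by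
      have h1 : ‖z.1‖ ≤ ‖z‖ := norm_fst_le z
      have h2 : ‖z.2.1‖ ≤ ‖z‖ := (norm_fst_le z.2).trans (norm_snd_le z)
      have h3 : ‖z.2.2‖ ≤ ‖z‖ := (norm_snd_le z.2).trans (norm_snd_le z)
      have := norm_lf_le z
      simp only [LinearMap.coe_mk, AddHom.coe_mk]
      linarith)

theorem lfL_apply (z : ℂ × ℂ × ℂ) : lfL z = lf z := rfl

/-- Multiplier of the first partial derivative. -/
noncomputable def m1 (k : ℤ × ℤ) : ℂ := Complex.I * ((k.1 : ℝ) : ℂ)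

/-- Multiplier of the second partial derivative. -/
noncomputable def m2 (k : ℤ × ℤ) : ℂ := Complex.I * ((k.2 : ℝ) : ℂ)

theorem norm_m1_le (k : ℤ × ℤ) : ‖m1 k‖ ≤ n1 k := by
  rw [m1, norm_mul, Complex.norm_I, one_mul, Complex.norm_real, Real.norm_eq_abs, n1_cast]
  have := abs_nonneg (k.2 : ℝ)
  linarith

theorem norm_m2_le (k : ℤ × ℤ) : ‖m2 k‖ ≤ n1 k := by
  rw [m2, norm_mul, Complex.norm_I, one_mul, Complex.norm_real, Real.norm_eq_abs, n1_cast]
  have := abs_nonneg (k.1 : ℝ)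
  linarith

theorem lin1_of_le {m : ℤ × ℤ → ℂ} {M : ℝ} (hM : 0 ≤ M) (h : ∀ k, ‖m k‖ ≤ M * n1 k) :
    Lin1 m := by
  refine ⟨M, hM, fun k => (h k).trans ?_⟩
  have : (0 : ℝ) ≤ n1 k := Nat.cast_nonneg _
  nlinarith

theorem lin1_m1 : Lin1 m1 := lin1_of_le zero_le_one (fun k => by simpa using norm_m1_le k)

theorem lin1_m2 : Lin1 m2 := lin1_of_le zero_le_one (fun k => by simpa using norm_m2_le k)

theorem hasFDerivAt_ex (k : ℤ × ℤ) (p : ℝ × (ℝ × ℝ)) :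
    HasFDerivAt (fun p : ℝ × (ℝ × ℝ) => ex k p.2) (lf (0, m1 k * ex k p.2, m2 k * ex k p.2)) p := by
  have h1 : HasFDerivAt (fun p : ℝ × (ℝ × ℝ) => ((k.1 : ℝ) * p.2.1 + (k.2 : ℝ) * p.2.2 : ℝ))
      ((k.1 : ℝ) • ((ContinuousLinearMap.fst ℝ ℝ ℝ).comp
        (ContinuousLinearMap.snd ℝ ℝ (ℝ × ℝ))) +
      (k.2 : ℝ) • ((ContinuousLinearMap.snd ℝ ℝ ℝ).comp
        (ContinuousLinearMap.snd ℝ ℝ (ℝ × ℝ)))) p := by
    have e1 : HasFDerivAt (fun p : ℝ × (ℝ × ℝ) => p.2.1)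
        ((ContinuousLinearMap.fst ℝ ℝ ℝ).comp (ContinuousLinearMap.snd ℝ ℝ (ℝ × ℝ))) p :=
      ((ContinuousLinearMap.fst ℝ ℝ ℝ).comp
        (ContinuousLinearMap.snd ℝ ℝ (ℝ × ℝ))).hasFDerivAt
    have e2 : HasFDerivAt (fun p : ℝ × (ℝ × ℝ) => p.2.2)
        ((ContinuousLinearMap.snd ℝ ℝ ℝ).comp (ContinuousLinearMap.snd ℝ ℝ (ℝ × ℝ))) p :=
      ((ContinuousLinearMap.snd ℝ ℝ ℝ).comp
        (ContinuousLinearMap.snd ℝ ℝ (ℝ × ℝ))).hasFDerivAt
    exact (e1.const_mul _).add (e2.const_mul _)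
  have h2 : HasFDerivAt (fun p : ℝ × (ℝ × ℝ) =>
      (((k.1 : ℝ) * p.2.1 + (k.2 : ℝ) * p.2.2 : ℝ) : ℂ)) _ p :=
    (Complex.ofRealCLM.hasFDerivAt).comp p h1
  have h3 := (h2.const_mul Complex.I).cexp
  refine h3.congr_fderiv ?_
  ext
  · simp [lf_apply, m1, m2, ex]
  · simp [lf_apply, m1, m2, ex]
    ring
  · simp [lf_apply, m1, m2, ex]
    ring

end Pool.Agent.Work.MP_a2fcf1_an_h64
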