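import Pool.Agent.Work.MP_a2fcf1_an_h64.Series

/-!
# Fourier coefficients and products of series
-/

namespace Pool.Agent.Work.MP_a2fcf1_an_h64

open Set

/-- One-dimensional exponential. -/
noncomputable def e1d (m : ℤ) (y : ℝ) : ℂ := Complex.exp (Complex.I * (((m : ℝ) * y : ℝ) : ℂ))

theorem ex_eq (k : ℤ × ℤ) (y z : ℝ) : ex k (y, z) = e1d k.1 y * e1d k.2 z := by
  unfold ex e1d
  rw [← Complex.exp_add]
  congr 1
  push_cast
  ring

theorem norm_e1d (m : ℤ) (y : ℝ) : ‖e1d m y‖ = 1 := by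
  unfold e1d
  rw [mul_comm]
  exact Complex.norm_exp_ofReal_mul_I _

theorem continuous_e1d (m : ℤ) : Continuous (e1d m) := by
  unfold e1d
  fun_prop

theorem integral_e1d (m : ℤ) :
    ∫ y in (0 : ℝ)..(2 * Real.pi), e1d m y = if m = 0 then ((2 * Real.pi : ℝ) : ℂ) else 0 := by
  unfold e1d
  split_ifs with h
  · subst h
    simp
  · have hc : Complex.I * (m : ℂ) ≠ 0 := mul_ne_zero Complex.I_ne_zero (by exact_mod_cast h)
    have e : ∀ y : ℝ, Complex.exp (Complex.I * (((m : ℝ) * y : ℝ) : ℂ)) =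
        Complex.exp ((Complex.I * (m : ℂ)) * (y : ℂ)) := by
      intro y; congr 1; push_cast; ring
    simp_rw [e]
    rw [integral_exp_mul_complex hc]
    have e2 : Complex.exp (Complex.I * (m : ℂ) * ((2 * Real.pi : ℝ) : ℂ)) = 1 := by
      have := Complex.exp_int_mul_two_pi_mul_I m
      rw [← this]
      congr 1
      push_cast
      ring
    rw [e2]
    simp

/-- Interchange of a norm-summable series and an interval integral. -/
theorem hasSum_integral {ι : Type*} [Countable ι] {F : ι → ℝ → ℂ} {f : ℝ → ℂ} {u : ι → ℝ}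
    (hF : ∀ i, Continuous (F i)) (hu : Summable u) (hb : ∀ i t, ‖F i t‖ ≤ u i)
    (hs : ∀ t, HasSum (fun i => F i t) (f t)) (a b : ℝ) :
    HasSum (fun i => ∫ t in a..b, F i t) (∫ t in a..b, f t) := by
  apply intervalIntegral.hasSum_integral_of_dominated_convergence (fun i _ => u i)
  · exact fun i => (hF i).aestronglyMeasurable
  · exact fun i => Filter.Eventually.of_forall fun t _ => hb i t
  · exact Filter.Eventually.of_forall fun t _ => hu
  · exact intervalIntegrable_const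
  · exact Filter.Eventually.of_forall fun t _ => hs t

/-- Orthogonality. -/
theorem fc_eq {f : ℝ × ℝ → ℝ} {b : ℤ × ℤ → ℂ} (hb : Summable fun k => ‖b k‖)
    (hf : ∀ x, ((f x : ℝ) : ℂ) = ∑' k, b k * ex k x) (k : ℤ × ℤ) : fc f k = b k := by
  have hsum : ∀ x, HasSum (fun j => b j * ex j x) ((f x : ℝ) : ℂ) := by
    intro x
    rw [hf x]
    apply Summable.hasSum
    apply Summable.of_norm
    refine hb.congr fun j => ?_
    rw [norm_mul, norm_ex, mul_one]
  -- inner integrals
  have inner : ∀ y : ℝ, HasSum (fun j => b j * e1d (j - k).1 y *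
      ∫ z in (0 : ℝ)..(2 * Real.pi), e1d (j - k).2 z)
      (∫ z in (0 : ℝ)..(2 * Real.pi), ((f (y, z) : ℝ) : ℂ) * ex (-k) (y, z)) := by
    intro y
    have h1 := hasSum_integral (F := fun j z => b j * e1d (j - k).1 y * e1d (j - k).2 z)
      (f := fun z => ((f (y, z) : ℝ) : ℂ) * ex (-k) (y, z)) (u := fun j => ‖b j‖)
      (fun j => continuous_const.mul (continuous_e1d _)) hb
      (fun j z => by rw [norm_mul, norm_mul, norm_e1d, norm_e1d, mul_one, mul_one])
      (fun z => by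
        have h2 := (hsum (y, z)).mul_right (ex (-k) (y, z))
        refine h2.congr_fun ?_
        intro j
        rw [mul_assoc (b j) (ex j (y, z)), ← ex_add, ← sub_eq_add_neg, ex_eq, mul_assoc])
      0 (2 * Real.pi)
    refine h1.congr_fun ?_
    intro j
    rw [intervalIntegral.integral_const_mul]
  have outer := hasSum_integral
    (F := fun j y => b j * e1d (j - k).1 y * ∫ z in (0 : ℝ)..(2 * Real.pi), e1d (j - k).2 z)
    (f := fun y => ∫ z in (0 : ℝ)..(2 * Real.pi), ((f (y, z) : ℝ) : ℂ) * ex (-k) (y, z))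
    (u := fun j => ‖b j‖ * (2 * Real.pi))
    (fun j => (continuous_const.mul (continuous_e1d _)).mul continuous_const)
    (hb.mul_right _)
    (fun j y => by
      rw [norm_mul, norm_mul, norm_e1d, mul_one]
      apply mul_le_mul_of_nonneg_left _ (norm_nonneg _)
      rw [integral_e1d]
      split_ifs
      · rw [Complex.norm_real, Real.norm_eq_abs, abs_of_pos Real.two_pi_pos]
      · rw [norm_zero]; exact Real.two_pi_pos.le)
    inner 0 (2 * Real.pi)
  have h3 : (fun j => ∫ y in (0 : ℝ)..(2 * Real.pi), b j * e1d (j - k).1 y *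
      ∫ z in (0 : ℝ)..(2 * Real.pi), e1d (j - k).2 z) =
      fun j => if j = k then b k * (((2 * Real.pi : ℝ) : ℂ) * ((2 * Real.pi : ℝ) : ℂ)) else 0 := by
    funext j
    rw [intervalIntegral.integral_mul_const, intervalIntegral.integral_const_mul,
      integral_e1d, integral_e1d]
    by_cases hjk : j = k
    · subst hjk
      simp only [sub_self, Prod.fst_zero, Prod.snd_zero, if_true]
      ring
    · rw [if_neg hjk]
      by_cases h1 : (j - k).1 = 0
      · have h2 : (j - k).2 ≠ 0 := by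
          intro h2
          exact hjk (sub_eq_zero.mp (Prod.ext h1 h2))
        rw [if_neg h2, mul_zero]
      · rw [if_neg h1, mul_zero, zero_mul]
  rw [h3] at outer
  have h4 := outer.unique (hasSum_ite_eq k (b k * (((2 * Real.pi : ℝ) : ℂ) *
    ((2 * Real.pi : ℝ) : ℂ))))
  unfold fc
  rw [h4]
  have hpi : ((2 * Real.pi : ℝ) : ℂ) ≠ 0 := by exact_mod_cast Real.two_pi_pos.ne'
  push_cast at hpi ⊢
  field_simp

/-- Periodicity of the exponentials. -/
theorem ex_period1 (k : ℤ × ℤ) (x : ℝ × ℝ) : ex k (x.1 + 2 * Real.pi, x.2) = ex k x := by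
  unfold ex
  have : Complex.I * (((k.1 : ℝ) * (x.1 + 2 * Real.pi) + (k.2 : ℝ) * x.2 : ℝ) : ℂ) =
      Complex.I * (((k.1 : ℝ) * x.1 + (k.2 : ℝ) * x.2 : ℝ) : ℂ) +
        (k.1 : ℂ) * (2 * Real.pi * Complex.I) := by
    push_cast; ring
  rw [this, Complex.exp_add, Complex.exp_int_mul_two_pi_mul_I, mul_one]

theorem ex_period2 (k : ℤ × ℤ) (x : ℝ × ℝ) : ex k (x.1, x.2 + 2 * Real.pi) = ex k x := by
  unfold ex
  have : Complex.I * (((k.1 : ℝ) * x.1 + (k.2 : ℝ) * (x.2 + 2 * Real.pi) : ℝ) : ℂ) =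
      Complex.I * (((k.1 : ℝ) * x.1 + (k.2 : ℝ) * x.2 : ℝ) : ℂ) +
        (k.2 : ℂ) * (2 * Real.pi * Complex.I) := by
    push_cast; ring
  rw [this, Complex.exp_add, Complex.exp_int_mul_two_pi_mul_I, mul_one]

/-- The Cauchy product of two series. -/
theorem cauchy {f g : ℤ × ℤ → ℂ} (hf : Summable fun k => ‖f k‖) (hg : Summable fun k => ‖g k‖)
    (x : ℝ × ℝ) :
    HasSum (fun k => (∑' j, f j * g (k - j)) * ex k x)
      ((∑' j, f j * ex j x) * (∑' l, g l * ex l x)) := by
  have hf' : Summable fun k => ‖f k * ex k x‖ :=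
    hf.congr fun j => by rw [norm_mul, norm_ex, mul_one]
  have hg' : Summable fun k => ‖g k * ex k x‖ :=
    hg.congr fun j => by rw [norm_mul, norm_ex, mul_one]
  have h1 := tsum_mul_tsum_of_summable_norm hf' hg'
  have h2 := summable_mul_of_summable_norm hf' hg'
  set e : (ℤ × ℤ) × (ℤ × ℤ) ≃ (ℤ × ℤ) × (ℤ × ℤ) :=
    { toFun := fun p => (p.2, p.1 - p.2)
      invFun := fun p => (p.1 + p.2, p.1)
      left_inv := fun p => by simp
      right_inv := fun p => by simp } with he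
  have h3 : Summable fun p : (ℤ × ℤ) × (ℤ × ℤ) =>
      (f p.2 * ex p.2 x) * (g (p.1 - p.2) * ex (p.1 - p.2) x) :=
    (e.summable_iff (f := fun z : (ℤ × ℤ) × (ℤ × ℤ) =>
      f z.1 * ex z.1 x * (g z.2 * ex z.2 x))).mpr h2
  have h4 : ∑' p : (ℤ × ℤ) × (ℤ × ℤ), (f p.2 * ex p.2 x) * (g (p.1 - p.2) * ex (p.1 - p.2) x) =
      ∑' z : (ℤ × ℤ) × (ℤ × ℤ), f z.1 * ex z.1 x * (g z.2 * ex z.2 x) :=
    e.tsum_eq (fun z : (ℤ × ℤ) × (ℤ × ℤ) => f z.1 * ex z.1 x * (g z.2 * ex z.2 x))
  rw [h1, ← h4]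
  have h5 := h3.hasSum.prod_fiberwise (fun k => (h3.prod_factor k).hasSum)
  refine h5.congr_fun ?_
  intro k
  rw [← tsum_mul_right]
  apply tsum_congr
  intro j
  have h6 : ex k x = ex j x * ex (k - j) x := by rw [← ex_add, add_sub_cancel]
  rw [h6]
  ring

end Pool.Agent.Work.MP_a2fcf1_an_h64
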