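import Pool.Agent.Work.MP_a2fcf1_an_h64.Fourier

/-!
# From the coefficient system to the equation
-/

namespace Pool.Agent.Work.MP_a2fcf1_an_h64

open Set
open scoped ContDiff

theorem Dec.at {b : ℤ × ℤ → ℝ → ℂ} (hb : Dec b) {t : ℝ} (ht : 0 ≤ t) :
    Dec fun k _ => b k t := by
  obtain ⟨C, ε, hε, hC, h⟩ := hb
  exact ⟨C, ε, hε, hC, fun k _ _ => h k t ht⟩

theorem Dec.sum0 {b : ℤ × ℤ → ℂ} (hb : Dec fun k (_ : ℝ) => b k) : Summable fun k => ‖b k‖ :=
  hb.summable le_rfl

/-- Symbol bounded by one. -/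
theorem lin1_of_bdd {m : ℤ × ℤ → ℂ} (h : ∀ k, ‖m k‖ ≤ 1) : Lin1 m := by
  refine ⟨1, zero_le_one, fun k => (h k).trans ?_⟩
  have : (0 : ℝ) ≤ n1 k := Nat.cast_nonneg _
  linarith

theorem abs_fst_le_eu (k : ℤ × ℤ) : |(k.1 : ℝ)| ≤ eu k := by
  unfold eu
  apply Real.abs_le_sqrt
  nlinarith [sq_nonneg (k.2 : ℝ)]

theorem abs_snd_le_eu (k : ℤ × ℤ) : |(k.2 : ℝ)| ≤ eu k := by
  unfold eu
  apply Real.abs_le_sqrt
  nlinarith [sq_nonneg (k.1 : ℝ)]

/-- Riesz symbols. -/
noncomputable def r1 (k : ℤ × ℤ) : ℂ := -Complex.I * ((k.1 : ℝ) : ℂ) / ((eu k : ℝ) : ℂ)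

/-- Riesz symbols. -/
noncomputable def r2 (k : ℤ × ℤ) : ℂ := -Complex.I * ((k.2 : ℝ) : ℂ) / ((eu k : ℝ) : ℂ)

theorem norm_r1_le (k : ℤ × ℤ) : ‖r1 k‖ ≤ 1 := by
  rw [r1, norm_div, norm_mul, norm_neg, Complex.norm_I, one_mul, Complex.norm_real,
    Complex.norm_real, Real.norm_eq_abs, Real.norm_eq_abs, abs_of_nonneg (eu_nonneg k)]
  exact div_le_one_of_le₀ (abs_fst_le_eu k) (eu_nonneg k)

theorem norm_r2_le (k : ℤ × ℤ) : ‖r2 k‖ ≤ 1 := by
  rw [r2, norm_div, norm_mul, norm_neg, Complex.norm_I, one_mul, Complex.norm_real,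
    Complex.norm_real, Real.norm_eq_abs, Real.norm_eq_abs, abs_of_nonneg (eu_nonneg k)]
  exact div_le_one_of_le₀ (abs_snd_le_eu k) (eu_nonneg k)

theorem rpow_eu_le {α : ℝ} (hα0 : 0 < α) (hα : α ≤ 1 / 2) (k : ℤ × ℤ) :
    eu k ^ (2 * α) ≤ 1 + n1 k := by
  have h0 := eu_nonneg k
  have h1 := eu_le_n1 k
  rcases le_total (eu k) 1 with h | h
  · have : eu k ^ (2 * α) ≤ 1 := Real.rpow_le_one h0 h (by linarith)
    have h2 : (0 : ℝ) ≤ n1 k := Nat.cast_nonneg _
    linarith
  · have : eu k ^ (2 * α) ≤ eu k ^ (1 : ℝ) := Real.rpow_le_rpow_of_exponent_le h (by linarith)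
    rw [Real.rpow_one] at this
    linarith

theorem lin1_lam {κ α : ℝ} (hκ : 0 ≤ κ) (hα0 : 0 < α) (hα : α ≤ 1 / 2) :
    Lin1 fun k => -((κ * eu k ^ (2 * α) : ℝ) : ℂ) := by
  refine ⟨κ, hκ, fun k => ?_⟩
  rw [norm_neg, Complex.norm_real, Real.norm_eq_abs, abs_of_nonneg
    (mul_nonneg hκ (Real.rpow_nonneg (eu_nonneg k) _))]
  exact mul_le_mul_of_nonneg_left (rpow_eu_le hα0 hα k) hκ

/-- The interaction coefficients are admissible. -/
theorem admC_sc : AdmC fun k j => sc j (k - j) := fun k j => abs_sc_le_add j (k - j)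

/-- Symmetrisation of the interaction. -/
theorem symmetrise {b : ℤ × ℤ → ℂ} (hb : Dec fun k (_ : ℝ) => b k) (k : ℤ × ℤ) :
    (∑' j, (-r2 j * b j) * (m1 (k - j) * b (k - j))) +
      (∑' j, (r1 j * b j) * (m2 (k - j) * b (k - j))) =
    ∑' j, ((sc j (k - j) : ℝ) : ℂ) * (b j * b (k - j)) := by
  have hbs := hb.sum0
  have h1 := (hb.mul (lin1_of_bdd (m := fun k => -r2 k)
    (fun k => by rw [norm_neg]; exact norm_r2_le k))).sum0
  have h2 := (hb.mul lin1_m1).sum0
  have h3 := (hb.mul (lin1_of_bdd (m := r1) norm_r1_le)).sum0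
  have h4 := (hb.mul lin1_m2).sum0
  -- summability of products along the convolution
  have conv_sum : ∀ {f g : ℤ × ℤ → ℂ}, Summable (fun k => ‖f k‖) → Summable (fun k => ‖g k‖) →
      Summable fun j => f j * g (k - j) := by
    intro f g hf hg
    obtain ⟨C, hC⟩ : ∃ C, ∀ j, ‖g j‖ ≤ C := by
      refine ⟨∑' j, ‖g j‖, fun j => hg.le_tsum j (fun _ _ => norm_nonneg _)⟩
    apply Summable.of_norm_bounded (hf.mul_right C)
    intro j
    rw [norm_mul]
    exact mul_le_mul_of_nonneg_left (hC _) (norm_nonneg _)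
  have s1 := conv_sum h1 h2
  have s2 := conv_sum h3 h4
  rw [← s1.tsum_add s2]
  set T : ℤ × ℤ → ℂ := fun j => (((cr j (k - j) : ℝ) / eu j : ℝ) : ℂ) * (b j * b (k - j)) with hT
  have hTe : ∀ j, (-r2 j * b j) * (m1 (k - j) * b (k - j)) +
      (r1 j * b j) * (m2 (k - j) * b (k - j)) = T j := by
    intro j
    rw [hT]
    simp only [r1, r2, m1, m2, cr]
    push_cast
    have hI : Complex.I * Complex.I = -1 := Complex.I_mul_I
    by_cases hj : j = 0
    · subst hj; simp
    have he : ((eu j : ℝ) : ℂ) ≠ 0 := by exact_mod_cast (eu_pos hj).ne'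
    field_simp
    ring_nf
    rw [Complex.I_sq]
    ring
  have hTs : Summable T := (s1.add s2).congr hTe
  rw [tsum_congr hTe]
  have hTs' : Summable fun j => T (k - j) := (Equiv.subLeft k).summable_iff.mpr hTs
  have hT' : ∑' j, T (k - j) = ∑' j, T j := (Equiv.subLeft k).tsum_eq T
  have h5 : ∑' j, ((sc j (k - j) : ℝ) : ℂ) * (b j * b (k - j)) =
      ∑' j, ((1 / 2 : ℂ) * (T j + T (k - j))) := by
    apply tsum_congr
    intro j
    rw [hT]
    simp only [sub_sub_cancel]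
    rw [sc, cr_swap j (k - j)]
    push_cast
    ring
  rw [h5, tsum_mul_left, hTs.tsum_add hTs', hT']
  ring

/-- Differentiating the real part of a real-valued function. -/
theorem deriv_re {g : ℝ → ℂ} {g' : ℂ} {t : ℝ} (h : HasDerivAt g g' t)
    (hreal : ∀ᶠ s in nhds t, (((g s).re : ℝ) : ℂ) = g s) :
    ((deriv (fun s => (g s).re) t : ℝ) : ℂ) = g' := by
  have h1 : HasDerivAt (fun s => (g s).re) g'.re t :=
    Complex.reCLM.hasFDerivAt.comp_hasDerivAt t h
  rw [h1.deriv]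
  have h2 : HasDerivAt (fun s => (((g s).re : ℝ) : ℂ)) ((g'.re : ℝ) : ℂ) t := h1.ofReal_comp
  have h3 : HasDerivAt (fun s => (((g s).re : ℝ) : ℂ)) g' t := h.congr_of_eventuallyEq hreal
  exact h2.unique h3

theorem ser_real {a : ℤ × ℤ → ℝ → ℂ} {t : ℝ}
    (hsym : ∀ k, a (-k) t = (starRingEnd ℂ) (a k t)) (x : ℝ × ℝ) :
    (((ser a (t, x)).re : ℝ) : ℂ) = ser a (t, x) := by
  rw [← Complex.conj_eq_iff_re]
  unfold ser
  rw [Complex.conj_tsum, ← (Equiv.neg (ℤ × ℤ)).tsum_eq]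
  apply tsum_congr
  intro k
  rw [Equiv.neg_apply, map_mul, hsym, ex_neg, Complex.conj_conj, Complex.conj_conj]

/-- Exponentially decaying solutions of the coefficient system give smooth solutions. -/
theorem globallyRegular_of_coeffs {κ α : ℝ} (hκ : 0 ≤ κ) (hα0 : 0 < α) (hα : α ≤ 1 / 2)
    {a : ℤ × ℤ → ℝ → ℂ} (hdec : Dec a)
    (hsym : ∀ k t, 0 ≤ t → a (-k) t = (starRingEnd ℂ) (a k t))
    (hode : ∀ k t, 0 ≤ t → HasDerivWithinAt (a k)
      (-(((κ * eu k ^ (2 * α) : ℝ) : ℂ) * a k t) -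
        ∑' j, ((sc j (k - j) : ℝ) : ℂ) * (a j t * a (k - j) t)) (Ici 0) t)
    {θ₀ : ℝ × ℝ → ℝ} (hθ₀ : ∀ x, ((θ₀ x : ℝ) : ℂ) = ∑' k, a k 0 * ex k x) :
    GloballyRegular κ α θ₀ := by
  set m : ℤ × ℤ → ℂ := fun k => -((κ * eu k ^ (2 * α) : ℝ) : ℂ) with hm
  set c : ℤ × ℤ → ℤ × ℤ → ℝ := fun k j => sc j (k - j) with hc
  have hm1 : Lin1 m := lin1_lam hκ hα0 hα
  have hode' : ∀ k t, 0 ≤ t →
      HasDerivWithinAt (a k) (m k * a k t + -1 * conv c a a k t) (Ici 0) t := by
    intro k t ht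
    refine (hode k t ht).congr_deriv ?_
    rw [hm, hc]
    simp only [conv]
    ring
  have hgood := goodAll_of_system hdec hm1 admC_sc hode'
  have hdec' : Dec fun k t => m k * a k t + -1 * conv c a a k t :=
    (hdec.mul hm1).add ((hdec.conv admC_sc hdec).mul (lin1_of_bdd (m := fun _ => (-1 : ℂ))
      (fun _ => by simp)))
  refine ⟨fun t x => (ser a (t, x)).re, ?_, ?_, ?_, ?_⟩
  · funext x
    have : ser a (0, x) = ((θ₀ x : ℝ) : ℂ) := by rw [hθ₀]; rfl
    simp only [this, Complex.ofReal_re]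
  · intro t x
    constructor
    · have : ser a (t, (x.1 + 2 * Real.pi, x.2)) = ser a (t, x) :=
        tsum_congr fun k => by rw [ex_period1]
      simp only [this]
    · have : ser a (t, (x.1, x.2 + 2 * Real.pi)) = ser a (t, x) :=
        tsum_congr fun k => by rw [ex_period2]
      simp only [this]
  · exact Complex.reCLM.contDiff.comp_contDiffOn (contDiffOn_ser_infty hgood)
  · intro t ht x
    have ht0 : 0 ≤ t := ht.le
    have hp : ((t, x) : ℝ × (ℝ × ℝ)) ∈ Half := mem_Half.mpr ht0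
    have hnhds : Half ∈ nhds ((t, x) : ℝ × (ℝ × ℝ)) :=
      prod_mem_nhds (Ici_mem_nhds ht) Filter.univ_mem
    have hF := (hasFDerivWithinAt_ser hdec hdec' hode' hp).hasFDerivAt hnhds
    -- time derivative
    have dt : HasDerivAt (fun τ => ser a (τ, x))
        (ser (fun k t => m k * a k t + -1 * conv c a a k t) (t, x)) t := by
      have h1 : HasDerivAt (fun τ : ℝ => ((τ, x) : ℝ × (ℝ × ℝ))) ((1 : ℝ), (0 : ℝ × ℝ)) t :=
        (hasDerivAt_id t).prodMk (hasDerivAt_const t x)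
      have h2 := HasFDerivAt.comp_hasDerivAt t hF h1
      refine h2.congr_deriv ?_
      rw [lf_apply]
      simp
    have d1 : HasDerivAt (fun y => ser a (t, (y, x.2)))
        (ser (fun k t => m1 k * a k t) (t, x)) x.1 := by
      have h1 : HasDerivAt (fun y : ℝ => ((t, (y, x.2)) : ℝ × (ℝ × ℝ)))
          ((0 : ℝ), ((1 : ℝ), (0 : ℝ))) x.1 :=
        (hasDerivAt_const x.1 t).prodMk ((hasDerivAt_id x.1).prodMk (hasDerivAt_const x.1 x.2))
      have h2 := HasFDerivAt.comp_hasDerivAt x.1 hF h1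
      refine h2.congr_deriv ?_
      rw [lf_apply]
      simp
    have d2 : HasDerivAt (fun y => ser a (t, (x.1, y)))
        (ser (fun k t => m2 k * a k t) (t, x)) x.2 := by
      have h1 : HasDerivAt (fun y : ℝ => ((t, (x.1, y)) : ℝ × (ℝ × ℝ)))
          ((0 : ℝ), ((0 : ℝ), (1 : ℝ))) x.2 :=
        (hasDerivAt_const x.2 t).prodMk ((hasDerivAt_const x.2 x.1).prodMk (hasDerivAt_id x.2))
      have h2 := HasFDerivAt.comp_hasDerivAt x.2 hF h1
      refine h2.congr_deriv ?_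
      rw [lf_apply]
      simp
    have hreal : ∀ s, 0 ≤ s → ∀ y, (((ser a (s, y)).re : ℝ) : ℂ) = ser a (s, y) :=
      fun s hs y => ser_real (fun k => hsym k s hs) y
    have edt := deriv_re dt (by
      filter_upwards [Ioi_mem_nhds ht] with s hs
      exact hreal s (le_of_lt hs) x)
    have ed1 := deriv_re d1 (Filter.Eventually.of_forall fun y => hreal t ht0 (y, x.2))
    have ed2 := deriv_re d2 (Filter.Eventually.of_forall fun y => hreal t ht0 (x.1, y))
    -- Fourier coefficients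
    have hdt := hdec.at ht0
    have hsum := hdt.sum0
    have hfc : ∀ k, fc (fun x => (ser a (t, x)).re) k = a k t :=
      fun k => fc_eq hsum (fun y => hreal t ht0 y) k
    have er1 : riesz1 (fun x => (ser a (t, x)).re) x = ∑' k, (r1 k * a k t) * ex k x := by
      unfold riesz1 mult
      exact tsum_congr fun k => by rw [hfc]; rfl
    have er2 : -riesz2 (fun x => (ser a (t, x)).re) x = ∑' k, (-r2 k * a k t) * ex k x := by
      unfold riesz2 mult
      rw [← tsum_neg]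
      exact tsum_congr fun k => by rw [hfc, r2]; ring
    have efl : fracLap α (fun x => (ser a (t, x)).re) x =
        ∑' k, (((eu k ^ (2 * α) : ℝ) : ℂ) * a k t) * ex k x := by
      unfold fracLap mult
      exact tsum_congr fun k => by rw [hfc]
    have h1 := (hdt.mul (lin1_of_bdd (m := fun k => -r2 k)
      (fun k => by rw [norm_neg]; exact norm_r2_le k))).sum0
    have h2 := (hdt.mul lin1_m1).sum0
    have h3 := (hdt.mul (lin1_of_bdd (m := r1) norm_r1_le)).sum0
    have h4 := (hdt.mul lin1_m2).sum0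
    have c1 := cauchy h1 h2 x
    have c2 := cauchy h3 h4 x
    have c3 := c1.add c2
    have hN : HasSum (fun k => conv c a a k t * ex k x)
        ((∑' k, (-r2 k * a k t) * ex k x) * (∑' k, (m1 k * a k t) * ex k x) +
          (∑' k, (r1 k * a k t) * ex k x) * (∑' k, (m2 k * a k t) * ex k x)) := by
      refine c3.congr_fun ?_
      intro k
      rw [← add_mul]
      congr 1
      exact (symmetrise hdt k).symm
    have hL : HasSum (fun k => (m k * a k t) * ex k x) (ser (fun k t => m k * a k t) (t, x)) :=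
      ((hdec.mul hm1).summable_ex ht0 x).hasSum
    have hT : HasSum (fun k => (m k * a k t + -1 * conv c a a k t) * ex k x)
        (ser (fun k t => m k * a k t + -1 * conv c a a k t) (t, x)) :=
      (hdec'.summable_ex ht0 x).hasSum
    have hT2 := hL.sub hN
    have hfun : (fun k => (m k * a k t) * ex k x - conv c a a k t * ex k x) =
        fun k => (m k * a k t + -1 * conv c a a k t) * ex k x := by
      funext k
      ring
    rw [hfun] at hT2
    have e3 := hT.unique hT2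
    have e4 : (κ : ℂ) * ∑' k, (((eu k ^ (2 * α) : ℝ) : ℂ) * a k t) * ex k x =
        -ser (fun k t => m k * a k t) (t, x) := by
      unfold ser
      rw [← tsum_mul_left, ← tsum_neg]
      apply tsum_congr
      intro k
      rw [hm]
      push_cast
      ring
    have e5 : ser (fun k t => m1 k * a k t) (t, x) = ∑' k, (m1 k * a k t) * ex k x := rfl
    have e6 : ser (fun k t => m2 k * a k t) (t, x) = ∑' k, (m2 k * a k t) * ex k x := rfl
    rw [edt, ed1, ed2, er1, er2, efl, e4, e3, e5, e6]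
    ring

end Pool.Agent.Work.MP_a2fcf1_an_h64
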