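import Mathlib

/-!
# The shrinking analyticity radius and the time integrals
-/

namespace Pool.Agent.Work.MP_a2fcf1_an_h64

open Real

/-- The analyticity radius. -/
noncomputable def sg (σ μ ν t : ℝ) : ℝ :=
  σ * (1 / 2 + 1 / 4 * exp (-(μ * t / 4)) + 1 / 4 * exp (-(ν * t / 4)))

/-- The derivative of `exp (-(sg t * x))`. -/
noncomputable def dx (σ μ ν x t : ℝ) : ℝ :=
  x * (σ * (μ / 16 * exp (-(μ * t / 4)) + ν / 16 * exp (-(ν * t / 4)))) *
    exp (-(sg σ μ ν t * x))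

theorem hasDerivAt_sg (σ μ ν t : ℝ) :
    HasDerivAt (sg σ μ ν)
      (-(σ * (μ / 16 * exp (-(μ * t / 4)) + ν / 16 * exp (-(ν * t / 4))))) t := by
  have h1 : HasDerivAt (fun t : ℝ => exp (-(μ * t / 4))) (exp (-(μ * t / 4)) * -(μ / 4)) t := by
    have h : HasDerivAt (fun t : ℝ => -(μ * t / 4)) (-(μ / 4)) t := by
      have := ((hasDerivAt_id t).const_mul μ).div_const 4
      simpa using this.fun_neg
    exact h.exp
  have h2 : HasDerivAt (fun t : ℝ => exp (-(ν * t / 4))) (exp (-(ν * t / 4)) * -(ν / 4)) t := by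
    have h : HasDerivAt (fun t : ℝ => -(ν * t / 4)) (-(ν / 4)) t := by
      have := ((hasDerivAt_id t).const_mul ν).div_const 4
      simpa using this.fun_neg
    exact h.exp
  have h3 := (((hasDerivAt_const t (1 / 2 : ℝ)).add (h1.const_mul (1 / 4))).add
    (h2.const_mul (1 / 4))).const_mul σ
  refine h3.congr_deriv ?_
  ring

theorem continuous_sg (σ μ ν : ℝ) : Continuous (sg σ μ ν) := by
  unfold sg
  fun_prop

theorem hasDerivAt_exp_sg (σ μ ν x t : ℝ) :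
    HasDerivAt (fun t => exp (-(sg σ μ ν t * x))) (dx σ μ ν x t) t := by
  have h := (((hasDerivAt_sg σ μ ν t).mul_const x).fun_neg).exp
  refine h.congr_deriv ?_
  unfold dx
  ring

theorem continuous_dx (σ μ ν x : ℝ) : Continuous (dx σ μ ν x) := by
  unfold dx sg
  fun_prop

theorem integral_dx (σ μ ν x t : ℝ) :
    ∫ s in (0 : ℝ)..t, dx σ μ ν x s = exp (-(sg σ μ ν t * x)) - exp (-(sg σ μ ν 0 * x)) :=
  intervalIntegral.integral_eq_sub_of_hasDerivAt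
    (fun s _ => hasDerivAt_exp_sg σ μ ν x s) ((continuous_dx σ μ ν x).intervalIntegrable _ _)

theorem integral_dx_le (σ μ ν x t : ℝ) :
    ∫ s in (0 : ℝ)..t, dx σ μ ν x s ≤ exp (-(sg σ μ ν t * x)) := by
  rw [integral_dx]
  have := (exp_pos (-(sg σ μ ν 0 * x))).le
  linarith

theorem sg_pos {σ : ℝ} (hσ : 0 < σ) (μ ν t : ℝ) : 0 < sg σ μ ν t := by
  unfold sg; positivity

theorem half_le_sg {σ : ℝ} (hσ : 0 < σ) (μ ν t : ℝ) : σ / 2 ≤ sg σ μ ν t := by
  unfold sg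
  have h1 := (exp_pos (-(μ * t / 4))).le
  have h2 := (exp_pos (-(ν * t / 4))).le
  nlinarith [mul_nonneg hσ.le h1, mul_nonneg hσ.le h2]

theorem sg_le {σ μ ν t : ℝ} (hσ : 0 < σ) (hμ : 0 ≤ μ) (hν : 0 ≤ ν) (ht : 0 ≤ t) :
    sg σ μ ν t ≤ σ := by
  unfold sg
  have h1 : exp (-(μ * t / 4)) ≤ 1 := exp_le_one_iff.mpr (by
    have := mul_nonneg hμ ht
    linarith)
  have h2 : exp (-(ν * t / 4)) ≤ 1 := exp_le_one_iff.mpr (by
    have := mul_nonneg hν ht
    linarith)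
  nlinarith

theorem exp_mu_le_dx {σ μ ν x : ℝ} (hσ : 0 < σ) (hμ : 0 < μ) (hν : 0 < ν) (hx : 0 < x) (s : ℝ) :
    exp (-(μ * s / 4)) * exp (-(sg σ μ ν s * x)) ≤ 16 / (σ * μ * x) * dx σ μ ν x s := by
  have h : 16 / (σ * μ * x) * dx σ μ ν x s =
      (exp (-(μ * s / 4)) + ν / μ * exp (-(ν * s / 4))) * exp (-(sg σ μ ν s * x)) := by
    unfold dx
    field_simp
  rw [h]
  gcongr
  have : 0 < ν / μ * exp (-(ν * s / 4)) := by positivity
  linarith

theorem exp_nu_le_dx {σ μ ν x : ℝ} (hσ : 0 < σ) (hμ : 0 < μ) (hν : 0 < ν) (hx : 0 < x) (s : ℝ) :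
    exp (-(ν * s / 4)) * exp (-(sg σ μ ν s * x)) ≤ 16 / (σ * ν * x) * dx σ μ ν x s := by
  have h : 16 / (σ * ν * x) * dx σ μ ν x s =
      (exp (-(ν * s / 4)) + μ / ν * exp (-(μ * s / 4))) * exp (-(sg σ μ ν s * x)) := by
    unfold dx
    field_simp
    ring
  rw [h]
  gcongr
  have : 0 < μ / ν * exp (-(μ * s / 4)) := by positivity
  linarith

end Pool.Agent.Work.MP_a2fcf1_an_h64
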