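import Pool.Agent.Work.MP_a2fcf1_an_h64.Basic
import Pool.Agent.Work.MP_a2fcf1_an_h64.Time

/-!
# Anisotropic length and the static interaction bound
-/

namespace Pool.Agent.Work.MP_a2fcf1_an_h64

open Real

/-- The anisotropic length `|k · e^⊥| + |k · e| / N` with `e = (u, v)`. -/
noncomputable def al (N u v : ℝ) (k : ℤ × ℤ) : ℝ :=
  |u * k.2 - v * k.1| + |u * k.1 + v * k.2| / N

/-- Parameters of the anisotropic weights. -/
structure APar where
  /-- first component of the direction -/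
  u : ℝ
  /-- second component of the direction -/
  v : ℝ
  /-- threshold frequency -/
  N : ℝ
  /-- slow decay rate -/
  ν : ℝ
  /-- size of the slow part -/
  δ : ℝ
  /-- analyticity radius -/
  σ : ℝ
  /-- weight of the mean -/
  L : ℝ
  huv : u ^ 2 + v ^ 2 = 1
  hN : 1 ≤ N
  hν : 0 < ν
  hδ : 0 < δ
  hδ1 : δ ≤ 1
  hσ : 0 < σ
  hL : 0 < L

namespace APar

variable (P : APar)

/-- The anisotropic length. -/
noncomputable def r (k : ℤ × ℤ) : ℝ := al P.N P.u P.v k

theorem N_pos : 0 < P.N := lt_of_lt_of_le one_pos P.hN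

theorem r_nonneg (k : ℤ × ℤ) : 0 ≤ P.r k := by
  have := P.N_pos
  unfold r al
  positivity

theorem r_add_le (j l : ℤ × ℤ) : P.r (j + l) ≤ P.r j + P.r l := by
  have hN := P.N_pos
  unfold r al
  have h1 : |P.u * ((j + l).2 : ℤ) - P.v * ((j + l).1 : ℤ)| ≤
      |P.u * j.2 - P.v * j.1| + |P.u * l.2 - P.v * l.1| := by
    refine le_trans (le_of_eq ?_) (abs_add_le _ _)
    congr 1
    push_cast [Prod.fst_add, Prod.snd_add]
    ring
  have h2 : |P.u * ((j + l).1 : ℤ) + P.v * ((j + l).2 : ℤ)| ≤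
      |P.u * j.1 + P.v * j.2| + |P.u * l.1 + P.v * l.2| := by
    refine le_trans (le_of_eq ?_) (abs_add_le _ _)
    congr 1
    push_cast [Prod.fst_add, Prod.snd_add]
    ring
  have h3 : |P.u * ((j + l).1 : ℤ) + P.v * ((j + l).2 : ℤ)| / P.N ≤
      |P.u * j.1 + P.v * j.2| / P.N + |P.u * l.1 + P.v * l.2| / P.N := by
    rw [← add_div]
    exact div_le_div_of_nonneg_right h2 hN.le
  linarith

@[simp] theorem r_neg (k : ℤ × ℤ) : P.r (-k) = P.r k := by
  unfold r al
  have h1 : P.u * ((-k).2 : ℤ) - P.v * ((-k).1 : ℤ) = -(P.u * k.2 - P.v * k.1) := by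
    push_cast [Prod.fst_neg, Prod.snd_neg]
    ring
  have h2 : P.u * ((-k).1 : ℤ) + P.v * ((-k).2 : ℤ) = -(P.u * k.1 + P.v * k.2) := by
    push_cast [Prod.fst_neg, Prod.snd_neg]
    ring
  rw [h1, h2, abs_neg, abs_neg]

@[simp] theorem r_zero : P.r 0 = 0 := by simp [r, al]

/-- The cross product is controlled by the anisotropic lengths. -/
theorem abs_cr_le (j l : ℤ × ℤ) : |(cr j l : ℝ)| ≤ P.N * P.r j * P.r l := by
  have hN := P.N_pos
  have e : (cr j l : ℝ) = (P.u * j.1 + P.v * j.2) * (P.u * l.2 - P.v * l.1) -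
      (P.u * j.2 - P.v * j.1) * (P.u * l.1 + P.v * l.2) := by
    have h := P.huv
    unfold cr
    push_cast
    linear_combination (-((j.1 : ℝ) * l.2 - j.2 * l.1)) * h
  set a := P.u * (j.1 : ℝ) + P.v * j.2 with ha
  set b := P.u * (j.2 : ℝ) - P.v * j.1 with hb
  set c := P.u * (l.1 : ℝ) + P.v * l.2 with hc
  set d := P.u * (l.2 : ℝ) - P.v * l.1 with hd
  have hrj : P.r j = |b| + |a| / P.N := rfl
  have hrl : P.r l = |d| + |c| / P.N := rfl
  rw [e, hrj, hrl]
  have h1 : |a * d - b * c| ≤ |a| * |d| + |b| * |c| := by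
    rw [← abs_mul, ← abs_mul]
    exact abs_sub _ _
  have h2 : P.N * (|b| + |a| / P.N) * (|d| + |c| / P.N) =
      |a| * |d| + |b| * |c| + (P.N * (|b| * |d|) + |a| * |c| / P.N) := by
    field_simp
    ring
  rw [h2]
  have h3 : 0 ≤ P.N * (|b| * |d|) + |a| * |c| / P.N := by positivity
  linarith

theorem eu_le (k : ℤ × ℤ) : eu k ≤ P.N * P.r k := by
  have hN := P.N_pos
  have hN1 := P.hN
  set a := P.u * (k.1 : ℝ) + P.v * k.2 with ha
  set b := P.u * (k.2 : ℝ) - P.v * k.1 with hb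
  have hr : P.r k = |b| + |a| / P.N := rfl
  have e : (k.1 : ℝ) ^ 2 + (k.2 : ℝ) ^ 2 = a ^ 2 + b ^ 2 := by
    have h := P.huv
    rw [ha, hb]
    linear_combination (-((k.1 : ℝ) ^ 2 + (k.2 : ℝ) ^ 2)) * h
  have h1 : P.N * P.r k = P.N * |b| + |a| := by
    rw [hr]; field_simp
  rw [h1]
  have h2 : |b| ≤ P.N * |b| := by nlinarith [abs_nonneg b]
  refine le_trans ?_ (add_le_add_left h2 _)
  unfold eu
  rw [e]
  apply Real.sqrt_le_iff.mpr
  refine ⟨by positivity, ?_⟩
  nlinarith [sq_abs a, sq_abs b, mul_nonneg (abs_nonneg a) (abs_nonneg b)]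

theorem r_pos {k : ℤ × ℤ} (hk : k ≠ 0) : 0 < P.r k := by
  have h1 := P.eu_le k
  have h2 := eu_pos hk
  have h3 := P.N_pos
  by_contra h
  push Not at h
  have : P.N * P.r k ≤ 0 := mul_nonpos_of_nonneg_of_nonpos h3.le h
  linarith

theorem n1_le (k : ℤ × ℤ) : (n1 k : ℝ) ≤ 2 * P.N * P.r k := by
  have h1 := P.eu_le k
  have h2 := n1_le_two_eu k
  linarith

/-- The slow frequency factor. -/
noncomputable def m (k : ℤ × ℤ) : ℝ := min 1 (eu k / P.N)

theorem m_nonneg (k : ℤ × ℤ) : 0 ≤ P.m k :=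
  le_min zero_le_one (div_nonneg (eu_nonneg k) P.N_pos.le)

theorem m_pos {k : ℤ × ℤ} (hk : k ≠ 0) : 0 < P.m k :=
  lt_min one_pos (div_pos (eu_pos hk) P.N_pos)

theorem m_le_one (k : ℤ × ℤ) : P.m k ≤ 1 := min_le_left _ _

theorem m_le (k : ℤ × ℤ) : P.m k ≤ eu k / P.N := min_le_right _ _

@[simp] theorem m_neg (k : ℤ × ℤ) : P.m (-k) = P.m k := by simp [m]

theorem m_of_fast {k : ℤ × ℤ} (h : P.N ≤ eu k) : P.m k = 1 := by
  unfold m
  apply min_eq_left
  rw [le_div_iff₀ P.N_pos]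
  linarith

theorem m_of_slow {k : ℤ × ℤ} (h : eu k ≤ P.N) : P.m k = eu k / P.N := by
  unfold m
  apply min_eq_right
  rw [div_le_iff₀ P.N_pos]
  linarith

/-- Difference of inverse lengths. -/
theorem inv_diff {j l : ℤ × ℤ} (hj : j ≠ 0) (hl : l ≠ 0) :
    |1 / eu j - 1 / eu l| * (P.m j * P.m l) ≤ P.m (j + l) / P.N := by
  have hN := P.N_pos
  have pj := eu_pos hj
  have pl := eu_pos hl
  have mj := P.m_nonneg j
  have ml := P.m_nonneg l
  have mj1 := P.m_le_one j
  have ml1 := P.m_le_one l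
  have qj : 1 / eu j * P.m j ≤ 1 / P.N := by
    rw [one_div_mul_eq_div, div_le_div_iff₀ pj hN]
    have := P.m_le j
    rw [le_div_iff₀ hN] at this
    linarith
  have ql : 1 / eu l * P.m l ≤ 1 / P.N := by
    rw [one_div_mul_eq_div, div_le_div_iff₀ pl hN]
    have := P.m_le l
    rw [le_div_iff₀ hN] at this
    linarith
  have ij : 0 ≤ 1 / eu j := by positivity
  have il : 0 ≤ 1 / eu l := by positivity
  have iN : 0 ≤ 1 / P.N := by positivity
  have b1 : |1 / eu j - 1 / eu l| * (P.m j * P.m l) ≤ 1 / P.N := by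
    rcases le_total (1 / eu j) (1 / eu l) with h | h
    · rw [abs_of_nonpos (by linarith)]
      calc -(1 / eu j - 1 / eu l) * (P.m j * P.m l) ≤ (1 / eu l) * (P.m j * P.m l) := by
            apply mul_le_mul_of_nonneg_right _ (mul_nonneg mj ml)
            linarith
        _ = P.m j * (1 / eu l * P.m l) := by ring
        _ ≤ 1 * (1 / P.N) := mul_le_mul mj1 ql (mul_nonneg il ml) zero_le_one
        _ = 1 / P.N := one_mul _
    · rw [abs_of_nonneg (by linarith)]
      calc (1 / eu j - 1 / eu l) * (P.m j * P.m l) ≤ (1 / eu j) * (P.m j * P.m l) := by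
            apply mul_le_mul_of_nonneg_right _ (mul_nonneg mj ml)
            linarith
        _ = (1 / eu j * P.m j) * P.m l := by ring
        _ ≤ (1 / P.N) * 1 := mul_le_mul qj ml1 ml iN
        _ = 1 / P.N := mul_one _
  have b2 : |1 / eu j - 1 / eu l| * (P.m j * P.m l) ≤ (eu (j + l) / P.N) / P.N := by
    have h3 : 1 / eu j - 1 / eu l = (eu l - eu j) / (eu j * eu l) := by
      field_simp
    have h4 := abs_eu_sub_le j l
    rw [h3, abs_div, abs_of_pos (mul_pos pj pl), abs_sub_comm]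
    calc |eu j - eu l| / (eu j * eu l) * (P.m j * P.m l)
        = |eu j - eu l| * ((1 / eu j * P.m j) * (1 / eu l * P.m l)) := by
          field_simp
      _ ≤ eu (j + l) * ((1 / P.N) * (1 / P.N)) := by
          apply mul_le_mul h4 _ (mul_nonneg (mul_nonneg ij mj) (mul_nonneg il ml))
            (eu_nonneg _)
          exact mul_le_mul qj ql (mul_nonneg il ml) iN
      _ = (eu (j + l) / P.N) / P.N := by ring
  unfold m at *
  rw [le_div_iff₀ hN, le_min_iff]
  rw [le_div_iff₀ hN] at b1 b2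
  exact ⟨b1, b2⟩

/-- The static interaction bound. -/
theorem sc_bound (j l : ℤ × ℤ) :
    |sc j l| * (P.m j * P.m l) ≤
      (1 / 2) * (P.m (j + l) * P.r (j + l)) * min (P.r j) (P.r l) := by
  have hN := P.N_pos
  have hr := P.r_nonneg (j + l)
  have hm := P.m_nonneg (j + l)
  have hmin : 0 ≤ min (P.r j) (P.r l) := le_min (P.r_nonneg j) (P.r_nonneg l)
  by_cases hj : j = 0
  · subst hj
    rw [sc_zero_left, abs_zero, zero_mul]
    positivity
  by_cases hl : l = 0
  · subst hl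
    rw [sc_zero_right, abs_zero, zero_mul]
    positivity
  have c1 : |(cr j l : ℝ)| ≤ P.N * P.r (j + l) * min (P.r j) (P.r l) := by
    have h1 : |(cr j l : ℝ)| ≤ P.N * P.r (j + l) * P.r l := by
      have h := P.abs_cr_le (j + l) l
      rwa [cr_add_left, cr_self, add_zero] at h
    have h2 : |(cr j l : ℝ)| ≤ P.N * P.r (j + l) * P.r j := by
      have h := P.abs_cr_le j (j + l)
      rw [cr_add_right, cr_self, zero_add] at h
      calc |(cr j l : ℝ)| ≤ P.N * P.r j * P.r (j + l) := h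
        _ = _ := by ring
    rcases min_choice (P.r j) (P.r l) with h | h <;> rw [h] <;> assumption
  have c2 := P.inv_diff hj hl
  rw [sc, abs_mul, abs_mul, abs_of_pos (by norm_num : (0 : ℝ) < 1 / 2)]
  calc 1 / 2 * |(cr j l : ℝ)| * |1 / eu j - 1 / eu l| * (P.m j * P.m l)
      = 1 / 2 * |(cr j l : ℝ)| * (|1 / eu j - 1 / eu l| * (P.m j * P.m l)) := by ring
    _ ≤ 1 / 2 * (P.N * P.r (j + l) * min (P.r j) (P.r l)) * (P.m (j + l) / P.N) := by
        apply mul_le_mul _ c2
          (mul_nonneg (abs_nonneg _) (mul_nonneg (P.m_nonneg _) (P.m_nonneg _)))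
          (by positivity)
        apply mul_le_mul_of_nonneg_left c1 (by norm_num)
    _ = _ := by field_simp

/-- Inverse polynomial factor. -/
noncomputable def q (k : ℤ × ℤ) : ℝ := (1 + P.r k)⁻¹

theorem q_pos (k : ℤ × ℤ) : 0 < P.q k := by
  have := P.r_nonneg k
  unfold q
  positivity

theorem q_le_one (k : ℤ × ℤ) : P.q k ≤ 1 := by
  have := P.r_nonneg k
  unfold q
  apply inv_le_one_of_one_le₀
  linarith

@[simp] theorem q_neg (k : ℤ × ℤ) : P.q (-k) = P.q k := by simp [q]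

theorem min_q (j l : ℤ × ℤ) :
    min (P.r j) (P.r l) * (P.q j * P.q l) ≤ 2 * P.q (j + l) := by
  have hj := P.r_nonneg j
  have hl := P.r_nonneg l
  have hk := P.r_nonneg (j + l)
  have h := P.r_add_le j l
  unfold q
  rw [← mul_inv, ← div_eq_mul_inv, ← div_eq_mul_inv, div_le_div_iff₀ (by positivity)
    (by positivity)]
  rcases le_total (P.r j) (P.r l) with h1 | h1
  · rw [min_eq_left h1]
    nlinarith [mul_nonneg hj hl, mul_nonneg hj hk]
  · rw [min_eq_right h1]
    nlinarith [mul_nonneg hj hl, mul_nonneg hl hk]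

/-- The static bound with polynomial factors. -/
theorem sc_bound' (j l : ℤ × ℤ) :
    |sc j l| * ((P.m j * P.q j) * (P.m l * P.q l)) ≤
      P.m (j + l) * P.r (j + l) * P.q (j + l) := by
  have h1 := P.sc_bound j l
  have h2 := P.min_q j l
  have q1 := P.q_pos j
  have q2 := P.q_pos l
  have hr := P.r_nonneg (j + l)
  have hm := P.m_nonneg (j + l)
  calc |sc j l| * ((P.m j * P.q j) * (P.m l * P.q l))
      = (|sc j l| * (P.m j * P.m l)) * (P.q j * P.q l) := by ring
    _ ≤ ((1 / 2) * (P.m (j + l) * P.r (j + l)) * min (P.r j) (P.r l)) * (P.q j * P.q l) :=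
        mul_le_mul_of_nonneg_right h1 (mul_nonneg q1.le q2.le)
    _ = ((1 / 2) * (P.m (j + l) * P.r (j + l))) *
        (min (P.r j) (P.r l) * (P.q j * P.q l)) := by ring
    _ ≤ ((1 / 2) * (P.m (j + l) * P.r (j + l))) * (2 * P.q (j + l)) :=
        mul_le_mul_of_nonneg_left h2 (by positivity)
    _ = _ := by ring

end APar

end Pool.Agent.Work.MP_a2fcf1_an_h64
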