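import Pool.Agent.Work.MP_a2fcf1_an_h64.Aniso

/-!
# Anisotropic time dependent weights and the integrated pairwise bound
-/

namespace Pool.Agent.Work.MP_a2fcf1_an_h64

open Real

namespace APar

variable (P : APar)

/-- Fast decay rate. -/
noncomputable def μ : ℝ := P.ν / P.δ ^ 2

theorem hμ : 0 < P.μ := div_pos P.hν (pow_pos P.hδ 2)

theorem ν_le_μ : P.ν ≤ P.μ := by
  rw [μ, le_div_iff₀ (pow_pos P.hδ 2)]
  have h1 : P.δ ^ 2 ≤ 1 := pow_le_one₀ P.hδ.le P.hδ1
  nlinarith [P.hν]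

/-- Analyticity radius at time `t`. -/
noncomputable def s (t : ℝ) : ℝ := sg P.σ P.μ P.ν t

theorem s_pos (t : ℝ) : 0 < P.s t := sg_pos P.hσ _ _ _

/-- Exponential factor. -/
noncomputable def X (k : ℤ × ℤ) (t : ℝ) : ℝ := exp (-(P.s t * P.r k))

/-- Fast exponential. -/
noncomputable def e1 (t : ℝ) : ℝ := exp (-(P.μ * t / 2))

/-- Slow exponential. -/
noncomputable def e2 (t : ℝ) : ℝ := exp (-(P.ν * t / 2))

theorem X_pos (k : ℤ × ℤ) (t : ℝ) : 0 < P.X k t := exp_pos _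
theorem e1_pos (t : ℝ) : 0 < P.e1 t := exp_pos _
theorem e2_pos (t : ℝ) : 0 < P.e2 t := exp_pos _

theorem X_mul_X (j l : ℤ × ℤ) (t : ℝ) : P.X j t * P.X l t ≤ P.X (j + l) t := by
  unfold X
  rw [← exp_add, exp_le_exp]
  have h := P.r_add_le j l
  nlinarith [P.s_pos t]

open Classical in
/-- Time factor of the weight. -/
noncomputable def T (k : ℤ × ℤ) (t : ℝ) : ℝ :=
  (if P.N ≤ eu k then P.e1 t else 0) + P.δ * P.e2 t

theorem T_pos (k : ℤ × ℤ) (t : ℝ) : 0 < P.T k t := by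
  have h1 := P.e1_pos t
  have h2 := P.e2_pos t
  have h3 := P.hδ
  unfold T
  split_ifs <;> positivity

theorem T_le (k : ℤ × ℤ) (t : ℝ) : P.T k t ≤ P.e1 t + P.δ * P.e2 t := by
  have h1 := P.e1_pos t
  unfold T
  split_ifs <;> linarith

theorem T_of_fast {k : ℤ × ℤ} (h : P.N ≤ eu k) (t : ℝ) :
    P.T k t = P.e1 t + P.δ * P.e2 t := by unfold T; rw [if_pos h]

theorem T_of_slow {k : ℤ × ℤ} (h : ¬ P.N ≤ eu k) (t : ℝ) :
    P.T k t = P.δ * P.e2 t := by unfold T; rw [if_neg h, zero_add]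

open Classical in
/-- The weight. -/
noncomputable def w (k : ℤ × ℤ) (t : ℝ) : ℝ :=
  if k = 0 then P.L else P.m k * P.q k * P.X k t * P.T k t

theorem w_zero (t : ℝ) : P.w 0 t = P.L := by unfold w; rw [if_pos rfl]

theorem w_of_ne {k : ℤ × ℤ} (h : k ≠ 0) (t : ℝ) :
    P.w k t = P.m k * P.q k * P.X k t * P.T k t := by unfold w; rw [if_neg h]

theorem w_pos (k : ℤ × ℤ) (t : ℝ) : 0 < P.w k t := by
  by_cases hk : k = 0
  · subst hk; rw [w_zero]; exact P.hL
  · rw [P.w_of_ne hk]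
    have h1 := P.m_pos hk
    have h2 := P.q_pos k
    have h3 := P.X_pos k t
    have h4 := P.T_pos k t
    positivity

theorem w_neg (k : ℤ × ℤ) (t : ℝ) : P.w (-k) t = P.w k t := by
  by_cases hk : k = 0
  · subst hk; rw [neg_zero]
  · have hk' : -k ≠ 0 := neg_ne_zero.mpr hk
    rw [P.w_of_ne hk, P.w_of_ne hk']
    unfold X T
    rw [m_neg, q_neg, r_neg, eu_neg]

theorem continuous_s : Continuous P.s := continuous_sg _ _ _

theorem continuous_w (k : ℤ × ℤ) : Continuous (P.w k) := by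
  have hs := P.continuous_s
  have hX : Continuous (P.X k) := by unfold X; fun_prop
  have h1 : Continuous P.e1 := by unfold e1; fun_prop
  have h2 : Continuous P.e2 := by unfold e2; fun_prop
  have hT : Continuous (P.T k) := by
    unfold T
    split_ifs
    · exact h1.add (continuous_const.mul h2)
    · exact continuous_const.add (continuous_const.mul h2)
  unfold w
  split_ifs
  · exact continuous_const
  · exact (continuous_const.mul hX).mul hT

/-- The pointwise bound of a pair. -/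
theorem pair_bound (j l : ℤ × ℤ) (t : ℝ) :
    |sc j l| * (P.w j t * P.w l t) ≤
      P.m (j + l) * P.q (j + l) * (P.r (j + l) * P.X (j + l) t) *
        (P.e1 t * P.e1 t + 2 * P.δ * (P.e1 t * P.e2 t) + P.δ ^ 2 * (P.e2 t * P.e2 t)) := by
  have h1 := P.e1_pos t
  have h2 := P.e2_pos t
  have h3 := P.hδ
  have hm := P.m_nonneg (j + l)
  have hq := P.q_pos (j + l)
  have hr := P.r_nonneg (j + l)
  have hX := P.X_pos (j + l) t
  have hR : 0 ≤ P.m (j + l) * P.q (j + l) * (P.r (j + l) * P.X (j + l) t) *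
        (P.e1 t * P.e1 t + 2 * P.δ * (P.e1 t * P.e2 t) + P.δ ^ 2 * (P.e2 t * P.e2 t)) := by
    positivity
  by_cases hj : j = 0
  · subst hj
    rw [sc_zero_left, abs_zero, zero_mul]
    exact hR
  by_cases hl : l = 0
  · subst hl
    rw [sc_zero_right, abs_zero, zero_mul]
    exact hR
  have a1 := P.sc_bound' j l
  have a2 := P.X_mul_X j l t
  have a3 := P.T_le j t
  have a4 := P.T_le l t
  have b1 := P.T_pos j t
  have b2 := P.T_pos l t
  have b3 := P.X_pos j t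
  have b4 := P.X_pos l t
  have b5 : P.T j t * P.T l t ≤ (P.e1 t + P.δ * P.e2 t) * (P.e1 t + P.δ * P.e2 t) :=
    mul_le_mul a3 a4 b2.le (by positivity)
  rw [P.w_of_ne hj, P.w_of_ne hl]
  calc |sc j l| * (P.m j * P.q j * P.X j t * P.T j t * (P.m l * P.q l * P.X l t * P.T l t))
      = (|sc j l| * ((P.m j * P.q j) * (P.m l * P.q l))) * (P.X j t * P.X l t) *
        (P.T j t * P.T l t) := by ring
    _ ≤ (P.m (j + l) * P.r (j + l) * P.q (j + l)) * P.X (j + l) t *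
        ((P.e1 t + P.δ * P.e2 t) * (P.e1 t + P.δ * P.e2 t)) := by
        apply mul_le_mul _ b5 (mul_pos b1 b2).le (by positivity)
        exact mul_le_mul a1 a2 (mul_pos b3 b4).le (by positivity)
    _ = _ := by ring

theorem fac1 {lam t s : ℝ} (h : P.μ ≤ lam) (h0 : 0 ≤ s) (hst : s ≤ t) :
    exp (-(lam * (t - s))) * (P.e1 s * P.e1 s) ≤ P.e1 t * exp (-(P.μ * s / 4)) := by
  unfold e1
  rw [← exp_add, ← exp_add, ← exp_add, exp_le_exp]
  have hμ := P.hμ
  have h1 : P.μ * (t - s) ≤ lam * (t - s) := mul_le_mul_of_nonneg_right h (by linarith)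
  have h2 : 0 ≤ P.μ * s := by positivity
  have h3 : 0 ≤ P.μ * (t - s) := mul_nonneg hμ.le (by linarith)
  nlinarith

theorem fac3 {lam t s : ℝ} (h : P.ν ≤ lam) (h0 : 0 ≤ s) (hst : s ≤ t) :
    exp (-(lam * (t - s))) * (P.e2 s * P.e2 s) ≤ P.e2 t * exp (-(P.ν * s / 4)) := by
  unfold e2
  rw [← exp_add, ← exp_add, ← exp_add, exp_le_exp]
  have hν := P.hν
  have h1 : P.ν * (t - s) ≤ lam * (t - s) := mul_le_mul_of_nonneg_right h (by linarith)
  have h2 : 0 ≤ P.ν * s := by positivity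
  have h3 : 0 ≤ P.ν * (t - s) := mul_nonneg hν.le (by linarith)
  nlinarith

theorem fac4 {lam t s : ℝ} (h : P.ν ≤ lam) (h0 : 0 ≤ s) (hst : s ≤ t) :
    exp (-(lam * (t - s))) * (P.e1 s * P.e1 s) ≤ P.e2 t * exp (-(P.μ * s / 4)) := by
  unfold e1 e2
  rw [← exp_add, ← exp_add, ← exp_add, exp_le_exp]
  have hν := P.hν
  have hμ := P.hμ
  have h1 : P.ν * (t - s) ≤ lam * (t - s) := mul_le_mul_of_nonneg_right h (by linarith)
  have h2 : P.ν * s ≤ P.μ * s := mul_le_mul_of_nonneg_right P.ν_le_μ h0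
  have h3 : 0 ≤ P.ν * (t - s) := mul_nonneg hν.le (by linarith)
  have h4 : 0 ≤ P.μ * s := by positivity
  nlinarith

theorem fac5 {lam t s : ℝ} (h : P.ν ≤ lam) (h0 : 0 ≤ s) (hst : s ≤ t) :
    exp (-(lam * (t - s))) * (P.e1 s * P.e2 s) ≤ P.e2 t * exp (-(P.μ * s / 4)) := by
  unfold e1 e2
  rw [← exp_add, ← exp_add, ← exp_add, exp_le_exp]
  have hν := P.hν
  have hμ := P.hμ
  have h1 : P.ν * (t - s) ≤ lam * (t - s) := mul_le_mul_of_nonneg_right h (by linarith)
  have h3 : 0 ≤ P.ν * (t - s) := mul_nonneg hν.le (by linarith)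
  have h4 : 0 ≤ P.μ * s := by positivity
  nlinarith

/-- The contraction constant. -/
noncomputable def K0 : ℝ := 64 * (P.δ / (P.σ * P.ν))

theorem K0_nonneg : 0 ≤ P.K0 := by
  have := P.hδ
  have := P.hσ
  have := P.hν
  unfold K0
  positivity

theorem mu_term {k : ℤ × ℤ} (hk : k ≠ 0) (s : ℝ) :
    exp (-(P.μ * s / 4)) * (P.r k * P.X k s) ≤
      16 * P.δ ^ 2 / (P.σ * P.ν) * dx P.σ P.μ P.ν (P.r k) s := by
  have hr := P.r_pos hk
  have hμ := P.hμ
  have hσ := P.hσ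
  have hν := P.hν
  have hδ := P.hδ
  have g := exp_mu_le_dx P.hσ P.hμ P.hν hr s
  calc exp (-(P.μ * s / 4)) * (P.r k * P.X k s)
      = P.r k * (exp (-(P.μ * s / 4)) * exp (-(sg P.σ P.μ P.ν s * P.r k))) := by
        unfold X APar.s; ring
    _ ≤ P.r k * (16 / (P.σ * P.μ * P.r k) * dx P.σ P.μ P.ν (P.r k) s) :=
        mul_le_mul_of_nonneg_left g hr.le
    _ = 16 * (1 / P.μ) / P.σ * dx P.σ P.μ P.ν (P.r k) s := by field_simp
    _ = _ := by
        have e : 1 / P.μ = P.δ ^ 2 / P.ν := by unfold APar.μ; field_simp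
        rw [e]
        field_simp

theorem nu_term {k : ℤ × ℤ} (hk : k ≠ 0) (s : ℝ) :
    exp (-(P.ν * s / 4)) * (P.r k * P.X k s) ≤
      16 / (P.σ * P.ν) * dx P.σ P.μ P.ν (P.r k) s := by
  have hr := P.r_pos hk
  have hμ := P.hμ
  have hσ := P.hσ
  have hν := P.hν
  have g := exp_nu_le_dx P.hσ P.hμ P.hν hr s
  calc exp (-(P.ν * s / 4)) * (P.r k * P.X k s)
      = P.r k * (exp (-(P.ν * s / 4)) * exp (-(sg P.σ P.μ P.ν s * P.r k))) := by
        unfold X APar.s; ring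
    _ ≤ P.r k * (16 / (P.σ * P.ν * P.r k) * dx P.σ P.μ P.ν (P.r k) s) :=
        mul_le_mul_of_nonneg_left g hr.le
    _ = _ := by field_simp

/-- The time majorant. -/
theorem time_bound {k : ℤ × ℤ} (hk : k ≠ 0) {lam t s : ℝ} (hlam : P.ν ≤ lam)
    (hlamF : P.N ≤ eu k → P.μ ≤ lam) (h0 : 0 ≤ s) (hst : s ≤ t) :
    exp (-(lam * (t - s))) * ((P.r k * P.X k s) *
        (P.e1 s * P.e1 s + 2 * P.δ * (P.e1 s * P.e2 s) + P.δ ^ 2 * (P.e2 s * P.e2 s))) ≤
      P.K0 * P.T k t * dx P.σ P.μ P.ν (P.r k) s := by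
  have hr := P.r_pos hk
  have hμ := P.hμ
  have hσ := P.hσ
  have hν := P.hν
  have hδ := P.hδ
  have hδ1 := P.hδ1
  have hX := P.X_pos k s
  have E1 := P.e1_pos t
  have E2 := P.e2_pos t
  have m1 := P.mu_term hk s
  have n1' := P.nu_term hk s
  have f3 := P.fac3 hlam h0 hst
  have f5 := P.fac5 hlam h0 hst
  have hD : 0 ≤ dx P.σ P.μ P.ν (P.r k) s := by unfold dx; positivity
  set D := dx P.σ P.μ P.ν (P.r k) s with hDdef
  have t3 : exp (-(lam * (t - s))) * ((P.r k * P.X k s) * (P.e2 s * P.e2 s)) ≤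
      P.e2 t * (16 / (P.σ * P.ν) * D) := by
    calc exp (-(lam * (t - s))) * ((P.r k * P.X k s) * (P.e2 s * P.e2 s))
        = (exp (-(lam * (t - s))) * (P.e2 s * P.e2 s)) * (P.r k * P.X k s) := by ring
      _ ≤ (P.e2 t * exp (-(P.ν * s / 4))) * (P.r k * P.X k s) :=
          mul_le_mul_of_nonneg_right f3 (by positivity)
      _ = P.e2 t * (exp (-(P.ν * s / 4)) * (P.r k * P.X k s)) := by ring
      _ ≤ _ := mul_le_mul_of_nonneg_left n1' E2.le
  have t2 : exp (-(lam * (t - s))) * ((P.r k * P.X k s) * (P.e1 s * P.e2 s)) ≤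
      P.e2 t * (16 * P.δ ^ 2 / (P.σ * P.ν) * D) := by
    calc exp (-(lam * (t - s))) * ((P.r k * P.X k s) * (P.e1 s * P.e2 s))
        = (exp (-(lam * (t - s))) * (P.e1 s * P.e2 s)) * (P.r k * P.X k s) := by ring
      _ ≤ (P.e2 t * exp (-(P.μ * s / 4))) * (P.r k * P.X k s) :=
          mul_le_mul_of_nonneg_right f5 (by positivity)
      _ = P.e2 t * (exp (-(P.μ * s / 4)) * (P.r k * P.X k s)) := by ring
      _ ≤ _ := mul_le_mul_of_nonneg_left m1 E2.le
  have hsplit : exp (-(lam * (t - s))) * ((P.r k * P.X k s) *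
        (P.e1 s * P.e1 s + 2 * P.δ * (P.e1 s * P.e2 s) + P.δ ^ 2 * (P.e2 s * P.e2 s))) =
      exp (-(lam * (t - s))) * ((P.r k * P.X k s) * (P.e1 s * P.e1 s)) +
      2 * P.δ * (exp (-(lam * (t - s))) * ((P.r k * P.X k s) * (P.e1 s * P.e2 s))) +
      P.δ ^ 2 * (exp (-(lam * (t - s))) * ((P.r k * P.X k s) * (P.e2 s * P.e2 s))) := by ring
  rw [hsplit]
  have hδ2 : P.δ ^ 2 ≤ P.δ := by nlinarith
  have hδ3 : P.δ ^ 3 ≤ P.δ ^ 2 := by nlinarith [pow_pos hδ 2]
  have A : 0 ≤ D / (P.σ * P.ν) := by positivity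
  by_cases hF : P.N ≤ eu k
  · have f1 := P.fac1 (hlamF hF) h0 hst
    have t1 : exp (-(lam * (t - s))) * ((P.r k * P.X k s) * (P.e1 s * P.e1 s)) ≤
        P.e1 t * (16 * P.δ ^ 2 / (P.σ * P.ν) * D) := by
      calc exp (-(lam * (t - s))) * ((P.r k * P.X k s) * (P.e1 s * P.e1 s))
          = (exp (-(lam * (t - s))) * (P.e1 s * P.e1 s)) * (P.r k * P.X k s) := by ring
        _ ≤ (P.e1 t * exp (-(P.μ * s / 4))) * (P.r k * P.X k s) :=
            mul_le_mul_of_nonneg_right f1 (by positivity)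
        _ = P.e1 t * (exp (-(P.μ * s / 4)) * (P.r k * P.X k s)) := by ring
        _ ≤ _ := mul_le_mul_of_nonneg_left m1 E1.le
    rw [P.T_of_fast hF]
    have g1 : exp (-(lam * (t - s))) * ((P.r k * P.X k s) * (P.e1 s * P.e1 s)) +
        2 * P.δ * (exp (-(lam * (t - s))) * ((P.r k * P.X k s) * (P.e1 s * P.e2 s))) +
        P.δ ^ 2 * (exp (-(lam * (t - s))) * ((P.r k * P.X k s) * (P.e2 s * P.e2 s))) ≤
        P.e1 t * (16 * P.δ ^ 2 / (P.σ * P.ν) * D) +
        2 * P.δ * (P.e2 t * (16 * P.δ ^ 2 / (P.σ * P.ν) * D)) +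
        P.δ ^ 2 * (P.e2 t * (16 / (P.σ * P.ν) * D)) :=
      add_le_add (add_le_add t1 (mul_le_mul_of_nonneg_left t2 (by positivity)))
        (mul_le_mul_of_nonneg_left t3 (by positivity))
    refine g1.trans ?_
    have e1' : P.e1 t * (16 * P.δ ^ 2 / (P.σ * P.ν) * D) +
        2 * P.δ * (P.e2 t * (16 * P.δ ^ 2 / (P.σ * P.ν) * D)) +
        P.δ ^ 2 * (P.e2 t * (16 / (P.σ * P.ν) * D)) =
        (16 * P.δ ^ 2 * P.e1 t + (32 * P.δ ^ 3 + 16 * P.δ ^ 2) * P.e2 t) *
          (D / (P.σ * P.ν)) := by ring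
    have e2' : P.K0 * (P.e1 t + P.δ * P.e2 t) * D =
        (64 * P.δ * P.e1 t + 64 * P.δ ^ 2 * P.e2 t) * (D / (P.σ * P.ν)) := by
      unfold K0; ring
    rw [e1', e2']
    apply mul_le_mul_of_nonneg_right _ A
    have i1 : 16 * P.δ ^ 2 * P.e1 t ≤ 64 * P.δ * P.e1 t :=
      mul_le_mul_of_nonneg_right (by linarith) E1.le
    have i2 : (32 * P.δ ^ 3 + 16 * P.δ ^ 2) * P.e2 t ≤ 64 * P.δ ^ 2 * P.e2 t := by
      apply mul_le_mul_of_nonneg_right _ E2.le
      nlinarith [pow_pos hδ 2]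
    linarith
  · have f4 := P.fac4 hlam h0 hst
    have t1 : exp (-(lam * (t - s))) * ((P.r k * P.X k s) * (P.e1 s * P.e1 s)) ≤
        P.e2 t * (16 * P.δ ^ 2 / (P.σ * P.ν) * D) := by
      calc exp (-(lam * (t - s))) * ((P.r k * P.X k s) * (P.e1 s * P.e1 s))
          = (exp (-(lam * (t - s))) * (P.e1 s * P.e1 s)) * (P.r k * P.X k s) := by ring
        _ ≤ (P.e2 t * exp (-(P.μ * s / 4))) * (P.r k * P.X k s) :=
            mul_le_mul_of_nonneg_right f4 (by positivity)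
        _ = P.e2 t * (exp (-(P.μ * s / 4)) * (P.r k * P.X k s)) := by ring
        _ ≤ _ := mul_le_mul_of_nonneg_left m1 E2.le
    rw [P.T_of_slow hF]
    have g1 : exp (-(lam * (t - s))) * ((P.r k * P.X k s) * (P.e1 s * P.e1 s)) +
        2 * P.δ * (exp (-(lam * (t - s))) * ((P.r k * P.X k s) * (P.e1 s * P.e2 s))) +
        P.δ ^ 2 * (exp (-(lam * (t - s))) * ((P.r k * P.X k s) * (P.e2 s * P.e2 s))) ≤
        P.e2 t * (16 * P.δ ^ 2 / (P.σ * P.ν) * D) +
        2 * P.δ * (P.e2 t * (16 * P.δ ^ 2 / (P.σ * P.ν) * D)) +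
        P.δ ^ 2 * (P.e2 t * (16 / (P.σ * P.ν) * D)) :=
      add_le_add (add_le_add t1 (mul_le_mul_of_nonneg_left t2 (by positivity)))
        (mul_le_mul_of_nonneg_left t3 (by positivity))
    refine g1.trans ?_
    have e1' : P.e2 t * (16 * P.δ ^ 2 / (P.σ * P.ν) * D) +
        2 * P.δ * (P.e2 t * (16 * P.δ ^ 2 / (P.σ * P.ν) * D)) +
        P.δ ^ 2 * (P.e2 t * (16 / (P.σ * P.ν) * D)) =
        ((32 * P.δ ^ 2 + 32 * P.δ ^ 3) * P.e2 t) * (D / (P.σ * P.ν)) := by ring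
    have e2' : P.K0 * (P.δ * P.e2 t) * D =
        (64 * P.δ ^ 2 * P.e2 t) * (D / (P.σ * P.ν)) := by
      unfold K0; ring
    rw [e1', e2']
    apply mul_le_mul_of_nonneg_right _ A
    apply mul_le_mul_of_nonneg_right _ E2.le
    linarith

/-- The integrated pairwise bound. -/
theorem int_bound (k j : ℤ × ℤ) {lam : ℝ} (hlam : k ≠ 0 → P.ν ≤ lam)
    (hlamF : P.N ≤ eu k → P.μ ≤ lam) {t : ℝ} (ht : 0 ≤ t) :
    ∫ s in (0 : ℝ)..t, exp (-(lam * (t - s))) * (|sc j (k - j)| * (P.w j s * P.w (k - j) s)) ≤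
      P.K0 * P.w k t := by
  by_cases hk : k = 0
  · subst hk
    simp only [sc_zero_sub, abs_zero, zero_mul, mul_zero, intervalIntegral.integral_zero]
    exact mul_nonneg P.K0_nonneg (P.w_pos _ _).le
  have hm := P.m_nonneg k
  have hq := P.q_pos k
  have hT := P.T_pos k t
  have hK := P.K0_nonneg
  have hcj := P.continuous_w j
  have hcl := P.continuous_w (k - j)
  have hcd := continuous_dx P.σ P.μ P.ν (P.r k)
  calc ∫ s in (0 : ℝ)..t, exp (-(lam * (t - s))) * (|sc j (k - j)| * (P.w j s * P.w (k - j) s))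
      ≤ ∫ s in (0 : ℝ)..t, (P.m k * P.q k * (P.K0 * P.T k t)) * dx P.σ P.μ P.ν (P.r k) s := by
        apply intervalIntegral.integral_mono_on ht
        · apply Continuous.intervalIntegrable
          fun_prop
        · apply Continuous.intervalIntegrable
          fun_prop
        · intro s hs
          have p := P.pair_bound j (k - j) s
          rw [add_sub_cancel] at p
          have tb := P.time_bound hk (hlam hk) hlamF hs.1 hs.2
          calc exp (-(lam * (t - s))) * (|sc j (k - j)| * (P.w j s * P.w (k - j) s))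
              ≤ exp (-(lam * (t - s))) * (P.m k * P.q k * (P.r k * P.X k s) *
                (P.e1 s * P.e1 s + 2 * P.δ * (P.e1 s * P.e2 s) +
                  P.δ ^ 2 * (P.e2 s * P.e2 s))) :=
                mul_le_mul_of_nonneg_left p (exp_pos _).le
            _ = (P.m k * P.q k) * (exp (-(lam * (t - s))) * ((P.r k * P.X k s) *
                (P.e1 s * P.e1 s + 2 * P.δ * (P.e1 s * P.e2 s) +
                  P.δ ^ 2 * (P.e2 s * P.e2 s)))) := by ring
            _ ≤ (P.m k * P.q k) * (P.K0 * P.T k t * dx P.σ P.μ P.ν (P.r k) s) :=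
                mul_le_mul_of_nonneg_left tb (by positivity)
            _ = _ := by ring
    _ = (P.m k * P.q k * (P.K0 * P.T k t)) * ∫ s in (0 : ℝ)..t, dx P.σ P.μ P.ν (P.r k) s :=
        intervalIntegral.integral_const_mul _ _
    _ ≤ (P.m k * P.q k * (P.K0 * P.T k t)) * exp (-(sg P.σ P.μ P.ν t * P.r k)) :=
        mul_le_mul_of_nonneg_left (integral_dx_le _ _ _ _ _) (by positivity)
    _ = P.K0 * P.w k t := by
        rw [P.w_of_ne hk]
        unfold X APar.s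
        ring

/-- Exponential decay of the weights, uniformly in time. -/
theorem w_le (k : ℤ × ℤ) {t : ℝ} (ht : 0 ≤ t) :
    P.w k t ≤ (2 + P.L) * exp (-(P.σ / (4 * P.N) * n1 k)) := by
  have hN := P.N_pos
  have hσ := P.hσ
  have hL := P.hL
  by_cases hk : k = 0
  · subst hk
    rw [w_zero, n1_zero]
    simp
  rw [P.w_of_ne hk]
  have hs : P.σ / 2 ≤ P.s t := half_le_sg P.hσ _ _ _
  have hn := P.n1_le k
  have hr := P.r_nonneg k
  have hX : P.X k t ≤ exp (-(P.σ / (4 * P.N) * n1 k)) := by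
    unfold X
    rw [exp_le_exp]
    have h1 : P.σ / (4 * P.N) * n1 k ≤ P.σ / 2 * P.r k := by
      rw [div_mul_eq_mul_div, div_le_iff₀ (by positivity)]
      nlinarith
    have h2 : P.σ / 2 * P.r k ≤ P.s t * P.r k := mul_le_mul_of_nonneg_right hs hr
    linarith
  have he1 : P.e1 t ≤ 1 := by
    unfold e1
    rw [exp_le_one_iff]
    have := mul_nonneg P.hμ.le ht
    linarith
  have he2 : P.e2 t ≤ 1 := by
    unfold e2
    rw [exp_le_one_iff]
    have := mul_nonneg P.hν.le ht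
    linarith
  have hT : P.T k t ≤ 2 := by
    have h1 := P.T_le k t
    have h2 : P.δ * P.e2 t ≤ 1 * 1 := mul_le_mul P.hδ1 he2 (P.e2_pos t).le zero_le_one
    linarith
  have hm := P.m_nonneg k
  have hm1 := P.m_le_one k
  have hq := P.q_pos k
  have hq1 := P.q_le_one k
  have hT0 := P.T_pos k t
  have hX0 := P.X_pos k t
  calc P.m k * P.q k * P.X k t * P.T k t
      ≤ 1 * 1 * exp (-(P.σ / (4 * P.N) * n1 k)) * 2 := by gcongr
    _ ≤ _ := by
        have := (exp_pos (-(P.σ / (4 * P.N) * n1 k))).le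
        nlinarith

end APar

end Pool.Agent.Work.MP_a2fcf1_an_h64
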