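import Mathlib

/-!
# A weighted fixed point lemma for quadratic systems indexed by the lattice, summable form
-/

namespace Pool.Agent.Work.MP_a2fcf1_an_h64

open Set BoundedContinuousFunction

/-- Convolution of nonnegative summable families. -/
theorem conv_summable {x y : ℤ × ℤ → ℝ} (hx0 : ∀ k, 0 ≤ x k) (hy0 : ∀ k, 0 ≤ y k)
    (hx : Summable x) (hy : Summable y) :
    (∀ k, Summable fun j => x j * y (k - j)) ∧
      HasSum (fun k => ∑' j, x j * y (k - j)) ((∑' j, x j) * ∑' j, y j) := by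
  have h2 : Summable fun p : (ℤ × ℤ) × (ℤ × ℤ) => x p.1 * y p.2 := hx.mul_of_nonneg hy hx0 hy0
  have h1 : (∑' j, x j) * (∑' j, y j) = ∑' p : (ℤ × ℤ) × (ℤ × ℤ), x p.1 * y p.2 :=
    hx.tsum_mul_tsum hy h2
  set e : (ℤ × ℤ) × (ℤ × ℤ) ≃ (ℤ × ℤ) × (ℤ × ℤ) :=
    { toFun := fun p => (p.2, p.1 - p.2)
      invFun := fun p => (p.1 + p.2, p.1)
      left_inv := fun p => by simp
      right_inv := fun p => by simp } with he
  have h3 : Summable fun p : (ℤ × ℤ) × (ℤ × ℤ) => x p.2 * y (p.1 - p.2) :=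
    (e.summable_iff (f := fun z : (ℤ × ℤ) × (ℤ × ℤ) => x z.1 * y z.2)).mpr h2
  have h4 : ∑' p : (ℤ × ℤ) × (ℤ × ℤ), x p.2 * y (p.1 - p.2) =
      ∑' z : (ℤ × ℤ) × (ℤ × ℤ), x z.1 * y z.2 :=
    e.tsum_eq (fun z : (ℤ × ℤ) × (ℤ × ℤ) => x z.1 * y z.2)
  rw [h1, ← h4]
  exact ⟨fun k => h3.prod_factor k, h3.hasSum.prod_fiberwise fun k => (h3.prod_factor k).hasSum⟩

/-- Interchange of sum and integral on a bounded interval. -/
theorem hasSum_int {F : ℤ × ℤ → ℝ → ℂ} {f : ℝ → ℂ} {u : ℤ × ℤ → ℝ}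
    (hc : ∀ j, Continuous (F j)) (hu : Summable u) {t : ℝ} (ht : 0 ≤ t)
    (hb : ∀ j s, 0 ≤ s → s ≤ t → ‖F j s‖ ≤ u j)
    (hs : ∀ s, 0 ≤ s → s ≤ t → HasSum (fun j => F j s) (f s)) :
    HasSum (fun j => ∫ s in (0 : ℝ)..t, F j s) (∫ s in (0 : ℝ)..t, f s) := by
  apply intervalIntegral.hasSum_integral_of_dominated_convergence (fun j _ => u j)
  · intro j
    exact (hc j).aestronglyMeasurable
  · intro j
    refine Filter.Eventually.of_forall fun s hs' => ?_
    rw [uIoc_of_le ht] at hs'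
    exact hb j s hs'.1.le hs'.2
  · exact Filter.Eventually.of_forall fun s _ => hu
  · exact intervalIntegrable_const
  · refine Filter.Eventually.of_forall fun s hs' => ?_
    rw [uIoc_of_le ht] at hs'
    exact hs s hs'.1.le hs'.2

/-- A quadratic system with weights. -/
structure L1Sys where
  /-- damping rates -/
  lam : ℤ × ℤ → ℝ
  /-- weights -/
  w : ℤ × ℤ → ℝ → ℝ
  /-- interaction coefficients -/
  c : ℤ × ℤ → ℤ × ℤ → ℝ
  /-- majorants -/
  U : ℤ × ℤ → ℝ
  /-- smallness constant -/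
  K : ℝ
  hw : ∀ k t, 0 < w k t
  hwc : ∀ k, Continuous (w k)
  hcU : ∀ k j t, 0 ≤ t → |c k j| * (w j t * w (k - j) t) ≤ U k
  hK0 : 0 ≤ K
  hK : ∀ k j t, 0 ≤ t →
    ∫ s in (0 : ℝ)..t, Real.exp (-(lam k * (t - s))) * (|c k j| * (w j s * w (k - j) s)) ≤
      K * w k t

namespace L1Sys

variable (S : L1Sys)

/-- Bounded continuous functions of time. -/
abbrev B := BoundedContinuousFunction ℝ ℂ

/-- The space of renormalised coefficient families. -/
noncomputable abbrev E := lp (fun _ : ℤ × ℤ => B) 1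

theorem summable_E (b : E) : Summable fun k => ‖b k‖ := by
  have h := (lp.memℓp b).summable (by norm_num)
  simpa using h

theorem norm_E (b : E) : ‖b‖ = ∑' k, ‖b k‖ := by
  rw [lp.norm_eq_tsum_rpow (by norm_num)]
  simp

/-- An element of the space from a summable family. -/
noncomputable def mkE (f : ℤ × ℤ → B) (h : Summable fun k => ‖f k‖) : E :=
  ⟨f, memℓp_gen (by simpa using h)⟩

theorem mkE_apply (f : ℤ × ℤ → B) (h : Summable fun k => ‖f k‖) (k : ℤ × ℤ) :
    mkE f h k = f k := rfl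

/-- Convolution of norms. -/
noncomputable def cv (b g : E) (k : ℤ × ℤ) : ℝ := ∑' j, ‖b j‖ * ‖g (k - j)‖

theorem summable_cv (b g : E) (k : ℤ × ℤ) : Summable fun j => ‖b j‖ * ‖g (k - j)‖ :=
  (conv_summable (fun _ => norm_nonneg _) (fun _ => norm_nonneg _) (summable_E b)
    (summable_E g)).1 k

theorem hasSum_cv (b g : E) : HasSum (cv b g) (‖b‖ * ‖g‖) := by
  rw [norm_E, norm_E]
  exact (conv_summable (fun _ => norm_nonneg _) (fun _ => norm_nonneg _) (summable_E b)
    (summable_E g)).2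

theorem cv_nonneg (b g : E) (k : ℤ × ℤ) : 0 ≤ cv b g k :=
  tsum_nonneg fun _ => mul_nonneg (norm_nonneg _) (norm_nonneg _)

theorem cw_nonneg (k j : ℤ × ℤ) (t : ℝ) : 0 ≤ |S.c k j| * (S.w j t * S.w (k - j) t) :=
  mul_nonneg (abs_nonneg _) (mul_nonneg (S.hw _ _).le (S.hw _ _).le)

/-- The coefficients encoded by an element of the space. -/
noncomputable def aa (b : E) (k : ℤ × ℤ) (t : ℝ) : ℂ := ((S.w k (max t 0) : ℝ) : ℂ) * (b k) t

theorem continuous_aa (b : E) (k : ℤ × ℤ) : Continuous (S.aa b k) := by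
  unfold aa
  have h1 : Continuous fun t : ℝ => S.w k (max t 0) :=
    (S.hwc k).comp (continuous_id.max continuous_const)
  exact (Complex.continuous_ofReal.comp h1).mul (b k).continuous

theorem norm_aa_le (b : E) (k : ℤ × ℤ) (t : ℝ) :
    ‖S.aa b k t‖ ≤ S.w k (max t 0) * ‖b k‖ := by
  unfold aa
  rw [norm_mul, Complex.norm_real, Real.norm_eq_abs, abs_of_pos (S.hw _ _)]
  exact mul_le_mul_of_nonneg_left ((b k).norm_coe_le_norm _) (S.hw _ _).le

theorem aa_sub (b g : E) (k : ℤ × ℤ) (t : ℝ) : S.aa (b - g) k t = S.aa b k t - S.aa g k t := by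
  unfold aa
  have : (b - g) k t = b k t - g k t := rfl
  rw [this]
  ring

/-- One term of the interaction. -/
noncomputable def tm (b g : E) (k j : ℤ × ℤ) (s : ℝ) : ℂ :=
  ((S.c k j : ℝ) : ℂ) * (S.aa b j s * S.aa g (k - j) s)

/-- The bilinear interaction. -/
noncomputable def F (b g : E) (k : ℤ × ℤ) (s : ℝ) : ℂ := ∑' j, S.tm b g k j s

theorem continuous_tm (b g : E) (k j : ℤ × ℤ) : Continuous (S.tm b g k j) :=
  continuous_const.mul ((S.continuous_aa b j).mul (S.continuous_aa g (k - j)))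

theorem norm_tm_le (b g : E) (k j : ℤ × ℤ) (s : ℝ) :
    ‖S.tm b g k j s‖ ≤
      (‖b j‖ * ‖g (k - j)‖) * (|S.c k j| * (S.w j (max s 0) * S.w (k - j) (max s 0))) := by
  unfold tm
  rw [norm_mul, norm_mul, Complex.norm_real, Real.norm_eq_abs]
  calc |S.c k j| * (‖S.aa b j s‖ * ‖S.aa g (k - j) s‖)
      ≤ |S.c k j| * ((S.w j (max s 0) * ‖b j‖) * (S.w (k - j) (max s 0) * ‖g (k - j)‖)) := by
        apply mul_le_mul_of_nonneg_left _ (abs_nonneg _)
        exact mul_le_mul (S.norm_aa_le b j s) (S.norm_aa_le g (k - j) s) (norm_nonneg _)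
          (mul_nonneg (S.hw _ _).le (norm_nonneg _))
    _ = _ := by ring

theorem norm_tm_le_U (b g : E) (k j : ℤ × ℤ) (s : ℝ) :
    ‖S.tm b g k j s‖ ≤ (‖b j‖ * ‖g (k - j)‖) * S.U k :=
  (S.norm_tm_le b g k j s).trans
    (mul_le_mul_of_nonneg_left (S.hcU k j _ (le_max_right _ _))
      (mul_nonneg (norm_nonneg _) (norm_nonneg _)))

theorem U_nonneg (k : ℤ × ℤ) : 0 ≤ S.U k := (S.cw_nonneg k 0 0).trans (S.hcU k 0 0 le_rfl)

theorem summable_tm (b g : E) (k : ℤ × ℤ) (s : ℝ) : Summable fun j => S.tm b g k j s :=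
  Summable.of_norm_bounded ((summable_cv b g k).mul_right _) (fun j => S.norm_tm_le_U b g k j s)

theorem continuous_F (b g : E) (k : ℤ × ℤ) : Continuous (S.F b g k) :=
  continuous_tsum (S.continuous_tm b g k) ((summable_cv b g k).mul_right (S.U k))
    (fun j s => S.norm_tm_le_U b g k j s)

theorem F_sub (b g : E) (k : ℤ × ℤ) (s : ℝ) :
    S.F b b k s - S.F g g k s = S.F (b - g) b k s + S.F g (b - g) k s := by
  unfold F
  rw [← (S.summable_tm b b k s).tsum_sub (S.summable_tm g g k s),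
    ← (S.summable_tm (b - g) b k s).tsum_add (S.summable_tm g (b - g) k s)]
  apply tsum_congr
  intro j
  unfold tm
  rw [S.aa_sub, S.aa_sub]
  ring

theorem continuous_integrand (b g : E) (k : ℤ × ℤ) :
    Continuous fun s => ((Real.exp (S.lam k * s) : ℝ) : ℂ) * S.F b g k s := by
  have := S.continuous_F b g k
  fun_prop

/-- The Duhamel integral of one term. -/
theorem term_bound (b g : E) (k j : ℤ × ℤ) {t : ℝ} (ht : 0 ≤ t) :
    ‖((Real.exp (-(S.lam k * t)) : ℝ) : ℂ) *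
      ∫ s in (0 : ℝ)..t, ((Real.exp (S.lam k * s) : ℝ) : ℂ) * S.tm b g k j s‖ ≤
      (‖b j‖ * ‖g (k - j)‖) * (S.K * S.w k t) := by
  have hcj := S.hwc j
  have hcl := S.hwc (k - j)
  have hbg : 0 ≤ ‖b j‖ * ‖g (k - j)‖ := mul_nonneg (norm_nonneg _) (norm_nonneg _)
  rw [← intervalIntegral.integral_const_mul]
  calc ‖∫ s in (0 : ℝ)..t, ((Real.exp (-(S.lam k * t)) : ℝ) : ℂ) *
        (((Real.exp (S.lam k * s) : ℝ) : ℂ) * S.tm b g k j s)‖
      ≤ ∫ s in (0 : ℝ)..t, (‖b j‖ * ‖g (k - j)‖) * (Real.exp (-(S.lam k * (t - s))) *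
          (|S.c k j| * (S.w j s * S.w (k - j) s))) := by
        apply intervalIntegral.norm_integral_le_of_norm_le ht
        · refine Filter.Eventually.of_forall fun s hs => ?_
          have h0 : 0 ≤ s := hs.1.le
          have e : ((Real.exp (-(S.lam k * t)) : ℝ) : ℂ) *
              (((Real.exp (S.lam k * s) : ℝ) : ℂ) * S.tm b g k j s) =
              ((Real.exp (-(S.lam k * (t - s))) : ℝ) : ℂ) * S.tm b g k j s := by
            rw [← mul_assoc, ← Complex.ofReal_mul, ← Real.exp_add]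
            congr 3
            ring_nf
          rw [e, norm_mul, Complex.norm_real, Real.norm_eq_abs, Real.abs_exp]
          have h1 := S.norm_tm_le b g k j s
          rw [max_eq_left h0] at h1
          calc Real.exp (-(S.lam k * (t - s))) * ‖S.tm b g k j s‖
              ≤ Real.exp (-(S.lam k * (t - s))) * ((‖b j‖ * ‖g (k - j)‖) *
                (|S.c k j| * (S.w j s * S.w (k - j) s))) :=
                mul_le_mul_of_nonneg_left h1 (Real.exp_pos _).le
            _ = _ := by ring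
        · apply Continuous.intervalIntegrable
          fun_prop
    _ = (‖b j‖ * ‖g (k - j)‖) * ∫ s in (0 : ℝ)..t, Real.exp (-(S.lam k * (t - s))) *
          (|S.c k j| * (S.w j s * S.w (k - j) s)) := intervalIntegral.integral_const_mul _ _
    _ ≤ _ := mul_le_mul_of_nonneg_left (S.hK k j t ht) hbg

/-- The Duhamel integral as a sum. -/
theorem hasSum_duhamel (b g : E) (k : ℤ × ℤ) {t : ℝ} (ht : 0 ≤ t) :
    HasSum (fun j => ((Real.exp (-(S.lam k * t)) : ℝ) : ℂ) *
      ∫ s in (0 : ℝ)..t, ((Real.exp (S.lam k * s) : ℝ) : ℂ) * S.tm b g k j s)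
      (((Real.exp (-(S.lam k * t)) : ℝ) : ℂ) *
        ∫ s in (0 : ℝ)..t, ((Real.exp (S.lam k * s) : ℝ) : ℂ) * S.F b g k s) := by
  apply HasSum.mul_left
  apply hasSum_int (u := fun j => (‖b j‖ * ‖g (k - j)‖) * (Real.exp (|S.lam k| * t) * S.U k))
  · intro j
    have := S.continuous_tm b g k j
    fun_prop
  · exact (summable_cv b g k).mul_right _
  · exact ht
  · intro j s h0 hst
    rw [norm_mul, Complex.norm_real, Real.norm_eq_abs, Real.abs_exp]
    have h1 := S.norm_tm_le_U b g k j s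
    have h2 : Real.exp (S.lam k * s) ≤ Real.exp (|S.lam k| * t) := by
      rw [Real.exp_le_exp]
      calc S.lam k * s ≤ |S.lam k| * s := mul_le_mul_of_nonneg_right (le_abs_self _) h0
        _ ≤ |S.lam k| * t := mul_le_mul_of_nonneg_left hst (abs_nonneg _)
    calc Real.exp (S.lam k * s) * ‖S.tm b g k j s‖
        ≤ Real.exp (|S.lam k| * t) * ((‖b j‖ * ‖g (k - j)‖) * S.U k) :=
          mul_le_mul h2 h1 (norm_nonneg _) (Real.exp_pos _).le
      _ = _ := by ring
  · intro s _ _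
    exact ((S.summable_tm b g k s).hasSum).mul_left _

theorem duhamel_bound (b g : E) (k : ℤ × ℤ) {t : ℝ} (ht : 0 ≤ t) :
    ‖((Real.exp (-(S.lam k * t)) : ℝ) : ℂ) *
      ∫ s in (0 : ℝ)..t, ((Real.exp (S.lam k * s) : ℝ) : ℂ) * S.F b g k s‖ ≤
      S.K * cv b g k * S.w k t := by
  rw [← (S.hasSum_duhamel b g k ht).tsum_eq]
  have h := tsum_of_norm_bounded ((summable_cv b g k).mul_right (S.K * S.w k t)).hasSum
    (fun j => S.term_bound b g k j ht)
  rw [tsum_mul_right] at h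
  refine h.trans (le_of_eq ?_)
  unfold cv
  ring

variable (d : ℤ × ℤ → ℂ)

/-- The Duhamel map before renormalisation. -/
noncomputable def Ph (b : E) (k : ℤ × ℤ) (t : ℝ) : ℂ :=
  ((Real.exp (-(S.lam k * max t 0)) : ℝ) : ℂ) *
    (d k - ∫ s in (0 : ℝ)..(max t 0), ((Real.exp (S.lam k * s) : ℝ) : ℂ) * S.F b b k s)

theorem continuous_Ph (b : E) (k : ℤ × ℤ) : Continuous (S.Ph d b k) := by
  unfold Ph
  have h1 : Continuous fun t : ℝ => ∫ s in (0 : ℝ)..t,
      ((Real.exp (S.lam k * s) : ℝ) : ℂ) * S.F b b k s :=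
    intervalIntegral.continuous_primitive
      (fun a b' => (S.continuous_integrand b b k).intervalIntegrable _ _) 0
  have h2 : Continuous fun t : ℝ => max t 0 := continuous_id.max continuous_const
  have h3 := h1.comp h2
  have h4 : Continuous fun t : ℝ => ((Real.exp (-(S.lam k * max t 0)) : ℝ) : ℂ) := by
    fun_prop
  exact h4.mul (continuous_const.sub h3)

/-- The data bound. -/
structure DataBd (D : ℤ × ℤ → ℝ) (R : ℝ) : Prop where
  bd : ∀ k t, 0 ≤ t → Real.exp (-(S.lam k * t)) * ‖d k‖ ≤ D k * S.w k t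
  sum : Summable D
  le : ∑' k, D k ≤ R

variable {d} {D : ℤ × ℤ → ℝ} {R : ℝ}

theorem DataBd.nonneg (hd : S.DataBd d D R) (k : ℤ × ℤ) : 0 ≤ D k := by
  have h := hd.bd k 0 le_rfl
  have h1 : 0 ≤ Real.exp (-(S.lam k * 0)) * ‖d k‖ :=
    mul_nonneg (Real.exp_pos _).le (norm_nonneg _)
  have h2 := S.hw k 0
  by_contra h3
  push Not at h3
  have h4 : D k * S.w k 0 < 0 := mul_neg_of_neg_of_pos h3 h2
  linarith

theorem norm_Ph_le (hd : S.DataBd d D R) (b : E) (k : ℤ × ℤ) (t : ℝ) :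
    ‖S.Ph d b k t‖ ≤ (D k + S.K * cv b b k) * S.w k (max t 0) := by
  have ht : 0 ≤ max t 0 := le_max_right _ _
  unfold Ph
  rw [mul_sub]
  refine (norm_sub_le _ _).trans ?_
  have h1 : ‖((Real.exp (-(S.lam k * max t 0)) : ℝ) : ℂ) * d k‖ ≤ D k * S.w k (max t 0) := by
    rw [norm_mul, Complex.norm_real, Real.norm_eq_abs, Real.abs_exp]
    exact hd.bd k _ ht
  have h2 := S.duhamel_bound b b k ht
  linarith

theorem norm_Ph_sub_le (b g : E) (k : ℤ × ℤ) (t : ℝ) :
    ‖S.Ph d b k t - S.Ph d g k t‖ ≤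
      (S.K * cv (b - g) b k + S.K * cv g (b - g) k) * S.w k (max t 0) := by
  have ht : 0 ≤ max t 0 := le_max_right _ _
  have e : S.Ph d b k t - S.Ph d g k t =
      -(((Real.exp (-(S.lam k * max t 0)) : ℝ) : ℂ) *
        ∫ s in (0 : ℝ)..(max t 0), ((Real.exp (S.lam k * s) : ℝ) : ℂ) * S.F (b - g) b k s) -
      ((Real.exp (-(S.lam k * max t 0)) : ℝ) : ℂ) *
        ∫ s in (0 : ℝ)..(max t 0), ((Real.exp (S.lam k * s) : ℝ) : ℂ) *
          S.F g (b - g) k s := by
    unfold Ph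
    have h : (∫ s in (0 : ℝ)..(max t 0), ((Real.exp (S.lam k * s) : ℝ) : ℂ) *
          S.F (b - g) b k s) +
        (∫ s in (0 : ℝ)..(max t 0), ((Real.exp (S.lam k * s) : ℝ) : ℂ) *
          S.F g (b - g) k s) =
        (∫ s in (0 : ℝ)..(max t 0), ((Real.exp (S.lam k * s) : ℝ) : ℂ) * S.F b b k s) -
        ∫ s in (0 : ℝ)..(max t 0), ((Real.exp (S.lam k * s) : ℝ) : ℂ) * S.F g g k s := by
      rw [← intervalIntegral.integral_sub
        ((S.continuous_integrand b b k).intervalIntegrable _ _)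
        ((S.continuous_integrand g g k).intervalIntegrable _ _),
        ← intervalIntegral.integral_add
        ((S.continuous_integrand (b - g) b k).intervalIntegrable _ _)
        ((S.continuous_integrand g (b - g) k).intervalIntegrable _ _)]
      apply intervalIntegral.integral_congr
      intro s _
      simp only
      rw [← mul_add, ← S.F_sub b g k s]
      ring
    linear_combination ((Real.exp (-(S.lam k * max t 0)) : ℝ) : ℂ) * h
  rw [e]
  refine (norm_sub_le _ _).trans ?_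
  rw [norm_neg]
  have h1 := S.duhamel_bound (b - g) b k ht
  have h2 := S.duhamel_bound g (b - g) k ht
  linarith

theorem norm_div_w (z : ℂ) (k : ℤ × ℤ) (t : ℝ) {C : ℝ} (h : ‖z‖ ≤ C * S.w k (max t 0)) :
    ‖z / ((S.w k (max t 0) : ℝ) : ℂ)‖ ≤ C := by
  rw [norm_div, Complex.norm_real, Real.norm_eq_abs, abs_of_pos (S.hw _ _),
    div_le_iff₀ (S.hw _ _)]
  exact h

/-- One component of the Duhamel map. -/
noncomputable def Phk (hd : S.DataBd d D R) (b : E) (k : ℤ × ℤ) : B :=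
  ofNormedAddCommGroup
    (fun t : ℝ => S.Ph d b k t / ((S.w k (max t 0) : ℝ) : ℂ))
    (by
      apply (S.continuous_Ph d b k).div
      · exact Complex.continuous_ofReal.comp
          ((S.hwc k).comp (continuous_id.max continuous_const))
      · intro t
        exact_mod_cast (S.hw k (max t 0)).ne')
    (D k + S.K * cv b b k)
    (fun t => S.norm_div_w _ _ _ (S.norm_Ph_le hd b k t))

theorem norm_Phk_le (hd : S.DataBd d D R) (b : E) (k : ℤ × ℤ) :
    ‖S.Phk hd b k‖ ≤ D k + S.K * cv b b k := by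
  apply norm_ofNormedAddCommGroup_le
  have h1 := hd.nonneg S k
  have h2 := S.hK0
  have h3 := cv_nonneg b b k
  positivity

theorem summable_Phk (hd : S.DataBd d D R) (b : E) : Summable fun k => ‖S.Phk hd b k‖ :=
  Summable.of_nonneg_of_le (fun _ => norm_nonneg _) (S.norm_Phk_le hd b)
    (hd.sum.add ((hasSum_cv b b).summable.mul_left _))

/-- The Duhamel map on the space. -/
noncomputable def Phi (hd : S.DataBd d D R) (b : E) : E := mkE (S.Phk hd b) (S.summable_Phk hd b)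

theorem Phi_apply (hd : S.DataBd d D R) (b : E) (k : ℤ × ℤ) (t : ℝ) :
    (S.Phi hd b k) t = S.Ph d b k t / ((S.w k (max t 0) : ℝ) : ℂ) := rfl

theorem norm_Phi_le (hd : S.DataBd d D R) (b : E) :
    ‖S.Phi hd b‖ ≤ R + ‖b‖ * ‖b‖ * S.K := by
  rw [norm_E]
  have h1 : ∑' k, ‖S.Phi hd b k‖ ≤ ∑' k, (D k + S.K * cv b b k) :=
    (S.summable_Phk hd b).tsum_le_tsum (S.norm_Phk_le hd b)
      (hd.sum.add ((hasSum_cv b b).summable.mul_left _))
  refine h1.trans ?_
  rw [hd.sum.tsum_add ((hasSum_cv b b).summable.mul_left _), tsum_mul_left,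
    (hasSum_cv b b).tsum_eq]
  have := hd.le
  linarith

theorem dist_Phi_le (hd : S.DataBd d D R) (b g : E) :
    dist (S.Phi hd b) (S.Phi hd g) ≤ (‖b‖ + ‖g‖) * ‖b - g‖ * S.K := by
  have hK := S.hK0
  rw [dist_eq_norm, norm_E]
  have hk : ∀ k, ‖(S.Phi hd b - S.Phi hd g) k‖ ≤ S.K * cv (b - g) b k + S.K * cv g (b - g) k := by
    intro k
    have h1 := cv_nonneg (b - g) b k
    have h2 := cv_nonneg g (b - g) k
    rw [BoundedContinuousFunction.norm_le (by positivity)]
    intro t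
    have e : ((S.Phi hd b - S.Phi hd g) k) t =
        (S.Ph d b k t - S.Ph d g k t) / ((S.w k (max t 0) : ℝ) : ℂ) := by
      rw [sub_div]
      rfl
    rw [e]
    exact S.norm_div_w _ _ _ (S.norm_Ph_sub_le b g k t)
  have s1 := (hasSum_cv (b - g) b).mul_left S.K
  have s2 := (hasSum_cv g (b - g)).mul_left S.K
  have h3 := (summable_E (S.Phi hd b - S.Phi hd g)).tsum_le_tsum hk (s1.add s2).summable
  refine h3.trans (le_of_eq ?_)
  rw [(s1.add s2).tsum_eq]
  ring

/-- Symmetry under conjugation. -/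
structure Sym (d : ℤ × ℤ → ℂ) : Prop where
  lam : ∀ k, S.lam (-k) = S.lam k
  w : ∀ k t, S.w (-k) t = S.w k t
  c : ∀ k j, S.c (-k) (-j) = S.c k j
  d : ∀ k, d (-k) = (starRingEnd ℂ) (d k)

/-- Conjugation symmetric elements of a ball. -/
def Ball (R : ℝ) : Set E :=
  {b | ‖b‖ ≤ R ∧ ∀ k t, b (-k) t = (starRingEnd ℂ) (b k t)}

theorem continuous_coord (k : ℤ × ℤ) (t : ℝ) : Continuous fun b : E => b k t := by
  have h1 : Continuous fun b : E => b k :=
    (continuous_apply k).comp lp.uniformContinuous_coe.continuous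
  exact (continuous_eval_const (F := B) t).comp h1

theorem isClosed_Ball (R : ℝ) : IsClosed (Ball R) := by
  have h1 : IsClosed {b : E | ‖b‖ ≤ R} := isClosed_le continuous_norm continuous_const
  have h2 : IsClosed {b : E | ∀ k t, b (-k) t = (starRingEnd ℂ) (b k t)} := by
    have : {b : E | ∀ k t, b (-k) t = (starRingEnd ℂ) (b k t)} =
        ⋂ k : ℤ × ℤ, ⋂ t : ℝ, {b : E | b (-k) t = (starRingEnd ℂ) (b k t)} := by
      ext b; simp
    rw [this]
    refine isClosed_iInter fun k => isClosed_iInter fun t => isClosed_eq ?_ ?_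
    · exact continuous_coord (-k) t
    · exact Complex.continuous_conj.comp (continuous_coord k t)
  exact h1.inter h2

theorem aa_conj {d : ℤ × ℤ → ℂ} (hs : S.Sym d) {R : ℝ} {b : E} (hb : b ∈ Ball R)
    (k : ℤ × ℤ) (t : ℝ) : S.aa b (-k) t = (starRingEnd ℂ) (S.aa b k t) := by
  unfold aa
  rw [hs.w, hb.2, map_mul, Complex.conj_ofReal]

theorem F_conj {d : ℤ × ℤ → ℂ} (hs : S.Sym d) {R : ℝ} {b : E} (hb : b ∈ Ball R)
    (k : ℤ × ℤ) (t : ℝ) : S.F b b (-k) t = (starRingEnd ℂ) (S.F b b k t) := by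
  unfold F
  rw [Complex.conj_tsum, ← (Equiv.neg (ℤ × ℤ)).tsum_eq]
  apply tsum_congr
  intro j
  unfold tm
  have e : -k - -j = -(k - j) := by abel
  rw [Equiv.neg_apply, hs.c, e, S.aa_conj hs hb, S.aa_conj hs hb, map_mul, map_mul,
    Complex.conj_ofReal]

theorem Ph_conj {d : ℤ × ℤ → ℂ} (hs : S.Sym d) {R : ℝ} {b : E} (hb : b ∈ Ball R)
    (k : ℤ × ℤ) (t : ℝ) : S.Ph d b (-k) t = (starRingEnd ℂ) (S.Ph d b k t) := by
  unfold Ph
  rw [map_mul, map_sub, ← intervalIntegral.intervalIntegral_conj, hs.lam, hs.d,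
    Complex.conj_ofReal]
  congr 2
  apply intervalIntegral.integral_congr
  intro s _
  simp only
  rw [S.F_conj hs hb, map_mul, Complex.conj_ofReal]

theorem mapsTo_Phi (hR : 0 ≤ R) (hd : S.DataBd d D R) (hs : S.Sym d)
    (hsmall : 4 * S.K * R < 1) : MapsTo (S.Phi hd) (Ball (2 * R)) (Ball (2 * R)) := by
  intro b hb
  refine ⟨?_, ?_⟩
  · refine (S.norm_Phi_le hd b).trans ?_
    have h1 : ‖b‖ ≤ 2 * R := hb.1
    have h2 : ‖b‖ * ‖b‖ ≤ (2 * R) * (2 * R) := by gcongr
    have hK := S.hK0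
    have h3 : ‖b‖ * ‖b‖ * S.K ≤ (2 * R) * (2 * R) * S.K := by gcongr
    nlinarith
  · intro k t
    rw [Phi_apply, Phi_apply, map_div₀, Complex.conj_ofReal, hs.w, S.Ph_conj hs hb]

/-- The fixed point. -/
theorem exists_fixed (hR : 0 ≤ R) (hd : S.DataBd d D R) (hs : S.Sym d)
    (hsmall : 4 * S.K * R < 1) : ∃ b ∈ Ball (2 * R), S.Phi hd b = b := by
  have hK := S.hK0
  set q : NNReal := ⟨4 * S.K * R, by positivity⟩ with hq
  have hmaps := S.mapsTo_Phi hR hd hs hsmall
  have hcon : ContractingWith q (hmaps.restrict (S.Phi hd) (Ball (2 * R)) (Ball (2 * R))) := by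
    refine ⟨?_, ?_⟩
    · rw [← NNReal.coe_lt_coe]
      exact hsmall
    · apply LipschitzWith.of_dist_le_mul
      rintro ⟨b, hb⟩ ⟨g, hg⟩
      have h1 := S.dist_Phi_le hd b g
      have hb1 : ‖b‖ ≤ 2 * R := hb.1
      have hg1 : ‖g‖ ≤ 2 * R := hg.1
      change dist (S.Phi hd b) (S.Phi hd g) ≤ (4 * S.K * R) * dist b g
      rw [dist_eq_norm b g]
      calc dist (S.Phi hd b) (S.Phi hd g) ≤ (‖b‖ + ‖g‖) * ‖b - g‖ * S.K := h1
        _ ≤ (2 * R + 2 * R) * ‖b - g‖ * S.K := by gcongr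
        _ = (4 * S.K * R) * ‖b - g‖ := by ring
  have h0 : (0 : E) ∈ Ball (2 * R) := by
    refine ⟨by rw [norm_zero]; positivity, fun k t => ?_⟩
    have : ∀ k t, (0 : E) k t = 0 := fun k t => rfl
    rw [this, this, map_zero]
  obtain ⟨b, hb, hfix, -⟩ := hcon.exists_fixedPoint' (isClosed_Ball (2 * R)).isComplete hmaps
    h0 (edist_ne_top _ _)
  exact ⟨b, hb, hfix⟩

/-- Solutions of the quadratic system. -/
theorem exists_solution (hR : 0 ≤ R) (hd : S.DataBd d D R) (hs : S.Sym d)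
    (hsmall : 4 * S.K * R < 1) :
    ∃ a : ℤ × ℤ → ℝ → ℂ, (∀ k, Continuous (a k)) ∧
      (∀ k t, 0 ≤ t → ‖a k t‖ ≤ 2 * R * S.w k t) ∧
      (∀ k t, a (-k) t = (starRingEnd ℂ) (a k t)) ∧
      (∀ k, a k 0 = d k) ∧
      (∀ k t, 0 ≤ t → HasDerivWithinAt (a k)
        (-(((S.lam k : ℝ) : ℂ) * a k t) -
          ∑' j, ((S.c k j : ℝ) : ℂ) * (a j t * a (k - j) t)) (Ici 0) t) := by
  obtain ⟨b, hb, hfix⟩ := S.exists_fixed hR hd hs hsmall
  have hval : ∀ k t, S.aa b k t = S.Ph d b k t := by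
    intro k t
    have h1 : b k t = S.Ph d b k t / ((S.w k (max t 0) : ℝ) : ℂ) := by
      rw [← S.Phi_apply hd b k t, hfix]
    have h2 : ((S.w k (max t 0) : ℝ) : ℂ) ≠ 0 := by exact_mod_cast (S.hw k (max t 0)).ne'
    unfold aa
    rw [h1]
    field_simp
  refine ⟨S.aa b, S.continuous_aa b, ?_, ?_, ?_, ?_⟩
  · intro k t ht
    have h1 := S.norm_aa_le b k t
    rw [max_eq_left ht] at h1
    have h2 : ‖b k‖ ≤ 2 * R := by
      refine le_trans ?_ hb.1
      rw [norm_E]
      exact (summable_E b).le_tsum k (fun _ _ => norm_nonneg _)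
    calc ‖S.aa b k t‖ ≤ S.w k t * ‖b k‖ := h1
      _ ≤ S.w k t * (2 * R) := mul_le_mul_of_nonneg_left h2 (S.hw _ _).le
      _ = _ := by ring
  · intro k t
    exact S.aa_conj hs hb k t
  · intro k
    rw [hval]
    simp [Ph]
  · intro k t ht
    set g : ℝ → ℂ := fun t => ((Real.exp (-(S.lam k * t)) : ℝ) : ℂ) *
      (d k - ∫ s in (0 : ℝ)..t, ((Real.exp (S.lam k * s) : ℝ) : ℂ) * S.F b b k s) with hg
    have hgt : ∀ s, 0 ≤ s → S.aa b k s = g s := by
      intro s hs'
      rw [hval, Ph, max_eq_left hs']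
    have d1 : HasDerivAt (fun t : ℝ => ((Real.exp (-(S.lam k * t)) : ℝ) : ℂ))
        (((Real.exp (-(S.lam k * t)) * -(S.lam k) : ℝ)) : ℂ) t := by
      apply HasDerivAt.ofReal_comp
      have h : HasDerivAt (fun t : ℝ => -(S.lam k * t)) (-(S.lam k)) t := by
        have := (hasDerivAt_id t).const_mul (S.lam k)
        simpa using this.fun_neg
      exact h.exp
    have d2 : HasDerivAt (fun t : ℝ => ∫ s in (0 : ℝ)..t,
        ((Real.exp (S.lam k * s) : ℝ) : ℂ) * S.F b b k s)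
        (((Real.exp (S.lam k * t) : ℝ) : ℂ) * S.F b b k t) t :=
      ((S.continuous_integrand b b k).integral_hasStrictDerivAt 0 t).hasDerivAt
    have d3 := d1.mul ((hasDerivAt_const t (d k)).sub d2)
    have e1 : ((Real.exp (-(S.lam k * t)) : ℝ) : ℂ) * ((Real.exp (S.lam k * t) : ℝ) : ℂ) = 1 := by
      rw [← Complex.ofReal_mul, ← Real.exp_add]
      simp
    have d4 : HasDerivAt g (-(((S.lam k : ℝ) : ℂ) * g t) - S.F b b k t) t := by
      refine d3.congr_deriv ?_
      rw [hg]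
      simp only [Pi.sub_apply, zero_sub]
      push_cast
      have e2 : ∀ x : ℂ, Complex.exp (-((S.lam k : ℂ) * t)) *
          -(Complex.exp ((S.lam k : ℂ) * t) * x) = -x := by
        intro x
        rw [mul_neg, ← mul_assoc]
        have : Complex.exp (-((S.lam k : ℂ) * t)) * Complex.exp ((S.lam k : ℂ) * t) = 1 := by
          rw [← Complex.exp_add]; simp
        rw [this, one_mul]
      rw [e2]
      ring
    have d5 : HasDerivWithinAt (S.aa b k) (-(((S.lam k : ℝ) : ℂ) * g t) - S.F b b k t)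
        (Ici 0) t :=
      d4.hasDerivWithinAt.congr (fun s hs' => hgt s hs') (hgt t ht)
    rw [hgt t ht]
    exact d5

end L1Sys

end Pool.Agent.Work.MP_a2fcf1_an_h64
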