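import Pool.Agent.Work.MP_a2fcf1_an_h64.PDE
import Pool.Agent.Work.MP_a2fcf1_an_h64.PicardL1
import Pool.Agent.Work.MP_a2fcf1_an_h64.AnisoTime

/-!
# Global regularity from an anisotropic Wiener norm
-/

namespace Pool.Agent.Work.MP_a2fcf1_an_h64

open Set

namespace APar

variable (P : APar)

theorem dec_w : Dec fun k t => ((P.w k t : ℝ) : ℂ) := by
  have hN := P.N_pos
  have hσ := P.hσ
  have hL := P.hL
  refine ⟨2 + P.L, P.σ / (4 * P.N), by positivity, by positivity, fun k t ht => ?_⟩
  rw [Complex.norm_real, Real.norm_eq_abs, abs_of_pos (P.w_pos _ _)]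
  exact P.w_le k ht

/-- The quadratic system of the parameters. -/
theorem exists_sys (lam : ℤ × ℤ → ℝ) (h1 : ∀ k, k ≠ 0 → P.ν ≤ lam k)
    (h2 : ∀ k, P.N ≤ eu k → P.μ ≤ lam k) :
    ∃ S : L1Sys, S.lam = lam ∧ S.w = P.w ∧ S.c = (fun k j => sc j (k - j)) ∧ S.K = P.K0 := by
  obtain ⟨C, ε, hε, hC, h⟩ := conv_bound admC_sc P.dec_w P.dec_w
  refine ⟨{ lam := lam
            w := P.w
            c := fun k j => sc j (k - j)
            U := fun _ => C
            K := P.K0
            hw := P.w_pos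
            hwc := P.continuous_w
            hcU := ?_
            hK0 := P.K0_nonneg
            hK := fun k j t ht => P.int_bound k j (h1 k) (h2 k) ht }, rfl, rfl, rfl, rfl⟩
  intro k j t ht
  have := h k j t ht
  rw [norm_mul, norm_mul, Complex.norm_real, Complex.norm_real, Complex.norm_real,
    Real.norm_eq_abs, Real.norm_eq_abs, Real.norm_eq_abs, abs_of_pos (P.w_pos _ _),
    abs_of_pos (P.w_pos _ _)] at this
  refine this.trans ?_
  have hk0 : (0 : ℝ) ≤ n1 k := Nat.cast_nonneg _
  have hj0 : (0 : ℝ) ≤ n1 j := Nat.cast_nonneg _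
  have g1 : Real.exp (-(ε * n1 k)) ≤ 1 := by
    rw [Real.exp_le_one_iff]
    have := mul_nonneg hε.le hk0
    linarith
  have g2 : Real.exp (-(ε * n1 j)) ≤ 1 := by
    rw [Real.exp_le_one_iff]
    have := mul_nonneg hε.le hj0
    linarith
  calc C * Real.exp (-(ε * n1 k)) * Real.exp (-(ε * n1 j)) ≤ C * 1 * 1 := by
        gcongr
    _ = C := by ring

end APar

/-- Global regularity from weighted coefficient sums. -/
theorem globallyRegular_of_aniso (P : APar) {κ α : ℝ} (hκ : 0 ≤ κ) (hα0 : 0 < α)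
    (hα : α ≤ 1 / 2) (h1 : ∀ k, k ≠ 0 → P.ν ≤ κ * eu k ^ (2 * α))
    (h2 : ∀ k, P.N ≤ eu k → P.μ ≤ κ * eu k ^ (2 * α))
    {d : ℤ × ℤ → ℂ} {D : ℤ × ℤ → ℝ} {R : ℝ} (hR : 0 ≤ R)
    (hd : ∀ k t, 0 ≤ t → Real.exp (-(κ * eu k ^ (2 * α) * t)) * ‖d k‖ ≤ D k * P.w k t)
    (hD0 : ∀ k, 0 ≤ D k) (hD : Summable D) (hDR : ∑' k, D k ≤ R)
    (hsmall : 4 * P.K0 * R < 1) {θ₀ : ℝ × ℝ → ℝ}
    (hθ₀ : ∀ x, ((θ₀ x : ℝ) : ℂ) = ∑' k, d k * ex k x) :
    GloballyRegular κ α θ₀ := by
  obtain ⟨S, hS1, hS2, hS3, hS4⟩ := P.exists_sys (fun k => κ * eu k ^ (2 * α)) h1 h2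
  have hN := P.N_pos
  have hσ := P.hσ
  have hL := P.hL
  have hw0 : ∀ k t, 0 ≤ t → P.w k t ≤ (2 + P.L) * Real.exp (-(P.σ / (4 * P.N) * n1 k)) :=
    fun k t ht => P.w_le k ht
  have hdd : ∀ k, ‖d k‖ ≤ D k * P.w k 0 := by
    intro k
    have := hd k 0 le_rfl
    simpa using this
  have hsum : Summable fun k => ‖d k‖ := by
    refine Summable.of_nonneg_of_le (fun _ => norm_nonneg _) (fun k => ?_)
      (hD.mul_right (2 + P.L))
    refine (hdd k).trans (mul_le_mul_of_nonneg_left ?_ (hD0 k))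
    refine (hw0 k 0 le_rfl).trans ?_
    have g1 : Real.exp (-(P.σ / (4 * P.N) * n1 k)) ≤ 1 := by
      rw [Real.exp_le_one_iff]
      have : 0 ≤ P.σ / (4 * P.N) * n1 k := by positivity
      linarith
    calc (2 + P.L) * Real.exp (-(P.σ / (4 * P.N) * n1 k)) ≤ (2 + P.L) * 1 :=
          mul_le_mul_of_nonneg_left g1 (by positivity)
      _ = _ := mul_one _
  have hsymd : ∀ k, d (-k) = (starRingEnd ℂ) (d k) := by
    intro k
    rw [← fc_eq hsum hθ₀ k, ← fc_eq hsum hθ₀ (-k)]
    unfold fc
    rw [map_mul, Complex.conj_ofReal, ← intervalIntegral.intervalIntegral_conj]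
    congr 1
    apply intervalIntegral.integral_congr
    intro y _
    simp only
    rw [← intervalIntegral.intervalIntegral_conj]
    apply intervalIntegral.integral_congr
    intro z _
    simp only
    rw [map_mul, Complex.conj_ofReal, ← ex_neg]
  have hsym : S.Sym d := by
    refine ⟨fun k => ?_, fun k t => ?_, fun k j => ?_, hsymd⟩
    · rw [hS1]; simp only [eu_neg]
    · rw [hS2]; exact P.w_neg k t
    · rw [hS3]
      have : -k - -j = -(k - j) := by abel
      simp only [this, sc_neg_neg]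
  have hdata : S.DataBd d D R := by
    refine ⟨fun k t ht => ?_, hD, hDR⟩
    rw [hS1, hS2]
    exact hd k t ht
  have hsm : 4 * S.K * R < 1 := by rw [hS4]; exact hsmall
  obtain ⟨a, -, ha, hac, ha0, hode⟩ := S.exists_solution hR hdata hsym hsm
  have hdec : Dec a := by
    refine ⟨2 * R * (2 + P.L), P.σ / (4 * P.N), by positivity, by positivity,
      fun k t ht => ?_⟩
    have h3 := ha k t ht
    rw [hS2] at h3
    calc ‖a k t‖ ≤ 2 * R * P.w k t := h3
      _ ≤ 2 * R * ((2 + P.L) * Real.exp (-(P.σ / (4 * P.N) * n1 k))) :=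
          mul_le_mul_of_nonneg_left (hw0 k t ht) (by positivity)
      _ = _ := by ring
  refine globallyRegular_of_coeffs hκ hα0 hα hdec (fun k t _ => hac k t) (fun k t ht => ?_)
    (fun x => ?_)
  · have := hode k t ht
    rw [hS1, hS3] at this
    exact this
  · rw [hθ₀ x]
    exact tsum_congr fun k => by rw [ha0]

open Classical in
/-- The weight of the frequency `k` in the anisotropic norm. -/
noncomputable def dens (α σ N u v : ℝ) (k : ℤ × ℤ) : ℝ :=
  if k = 0 then 0 else
    (1 + al N u v k) * Real.exp (σ * al N u v k) * (if N ≤ eu k then N ^ (-α) else N / eu k)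

theorem dens_nonneg {α σ N u v : ℝ} (hN : 1 ≤ N) (k : ℤ × ℤ) : 0 ≤ dens α σ N u v k := by
  have hN0 : 0 < N := lt_of_lt_of_le one_pos hN
  have h1 : 0 ≤ al N u v k := by unfold al; positivity
  have h2 := eu_nonneg k
  unfold dens
  split_ifs
  · exact le_rfl
  · have : 0 ≤ N ^ (-α) := Real.rpow_nonneg hN0.le _
    positivity
  · positivity

/-- **Global regularity from an anisotropic Wiener norm.** -/
theorem aniso {κ α σ N u v : ℝ} (hκ : 0 < κ) (hα0 : 0 < α) (hα : α ≤ 1 / 2) (hσ : 0 < σ)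
    (hN : 1 ≤ N) (huv : u ^ 2 + v ^ 2 = 1) {a : ℤ × ℤ → ℂ}
    (hsum : Summable fun k => dens α σ N u v k * ‖a k‖)
    (hsmall : ∑' k, dens α σ N u v k * ‖a k‖ < κ * σ / 256) {θ₀ : ℝ × ℝ → ℝ}
    (hθ₀ : ∀ x, ((θ₀ x : ℝ) : ℂ) = ∑' k, a k * ex k x) :
    GloballyRegular κ α θ₀ := by
  have hN0 : 0 < N := lt_of_lt_of_le one_pos hN
  set W := ∑' k, dens α σ N u v k * ‖a k‖ with hW
  have hW0 : 0 ≤ W := tsum_nonneg fun k => mul_nonneg (dens_nonneg hN k) (norm_nonneg _)
  set x : ℝ := 256 * ‖a 0‖ / (κ * σ) with hx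
  have hx0 : 0 ≤ x := by positivity
  set η : ℝ := 1 - 256 * W / (κ * σ) with hη
  have hη0 : 0 < η := by
    rw [hη, sub_pos, div_lt_one (by positivity)]
    rw [lt_div_iff₀ (by norm_num)] at hsmall
    linarith
  have hδ : 0 < N ^ (-α) := Real.rpow_pos_of_pos hN0 _
  have hδ1 : N ^ (-α) ≤ 1 := Real.rpow_le_one_of_one_le_of_nonpos hN (by linarith)
  have hNα : 0 < N ^ α := Real.rpow_pos_of_pos hN0 _
  have hNαδ : N ^ α * N ^ (-α) = 1 := by
    rw [← Real.rpow_add hN0]
    simp
  set P : APar :=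
    { u := u, v := v, N := N, ν := κ, δ := N ^ (-α), σ := σ, L := (x + 1) / η
      huv := huv, hN := hN, hν := hκ, hδ := hδ, hδ1 := hδ1, hσ := hσ
      hL := by positivity } with hP
  have hμ : P.μ = κ * N ^ (2 * α) := by
    have e : P.μ = κ / (N ^ (-α)) ^ 2 := rfl
    rw [e]
    have e2 : N ^ (2 * α) = N ^ α * N ^ α := by
      rw [← Real.rpow_add hN0]; ring_nf
    rw [e2, div_eq_iff (by positivity)]
    have : N ^ α * N ^ α * (N ^ (-α)) ^ 2 = (N ^ α * N ^ (-α)) ^ 2 := by ring
    rw [mul_assoc, this, hNαδ]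
    ring
  have hlam : ∀ k : ℤ × ℤ, k ≠ 0 → κ ≤ κ * eu k ^ (2 * α) := by
    intro k hk
    have : 1 ≤ eu k ^ (2 * α) := Real.one_le_rpow (one_le_eu hk) (by linarith)
    nlinarith
  have hlamF : ∀ k : ℤ × ℤ, N ≤ eu k → κ * N ^ (2 * α) ≤ κ * eu k ^ (2 * α) := by
    intro k hk
    apply mul_le_mul_of_nonneg_left _ hκ.le
    exact Real.rpow_le_rpow hN0.le hk (by linarith)
  set D : ℤ × ℤ → ℝ := fun k =>
    N ^ α * (dens α σ N u v k * ‖a k‖) + (if k = 0 then ‖a 0‖ / P.L else 0) with hD
  have hLpos := P.hL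
  have hD0 : ∀ k, 0 ≤ D k := by
    intro k
    have h3 := dens_nonneg (α := α) (σ := σ) (u := u) (v := v) hN k
    have h4 : 0 ≤ (if k = 0 then ‖a 0‖ / P.L else 0) := by
      split_ifs
      · positivity
      · exact le_rfl
    have h5 : 0 ≤ N ^ α * (dens α σ N u v k * ‖a k‖) := by positivity
    exact add_nonneg h5 h4
  have hDs : HasSum D (N ^ α * W + ‖a 0‖ / P.L) := by
    have s1 := hsum.hasSum.mul_left (N ^ α)
    have s2 : HasSum (fun k : ℤ × ℤ => if k = 0 then ‖a 0‖ / P.L else 0) (‖a 0‖ / P.L) :=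
      hasSum_ite_eq 0 _
    exact s1.add s2
  have hR : 0 ≤ N ^ α * W + ‖a 0‖ / P.L := by positivity
  refine globallyRegular_of_aniso P hκ.le hα0 hα hlam (fun k hk => by rw [hμ]; exact hlamF k hk)
    hR ?_ hD0 hDs.summable hDs.tsum_eq.le ?_ hθ₀
  · intro k t ht
    by_cases hk : k = 0
    · subst hk
      have e1 : D 0 * P.w 0 t = ‖a 0‖ := by
        have hd0 : dens α σ N u v 0 = 0 := by unfold dens; rw [if_pos rfl]
        rw [P.w_zero, hD]
        simp only [hd0, if_true, zero_mul, mul_zero, zero_add]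
        field_simp
      have h0 : (0 : ℝ) ^ (2 * α) = 0 := Real.zero_rpow (by linarith)
      rw [e1, eu_zero, h0]
      simp
    · have hq := P.q_pos k
      have hr : 0 ≤ al N u v k := P.r_nonneg k
      have hrr : P.r k = al N u v k := rfl
      have hX : Real.exp (-(σ * al N u v k)) ≤ P.X k t := by
        have h6 : P.s t ≤ σ := sg_le hσ P.hμ.le hκ.le ht
        have h7 : P.s t * P.r k ≤ σ * al N u v k := mul_le_mul_of_nonneg_right h6 hr
        unfold APar.X
        rw [Real.exp_le_exp]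
        linarith
      have hDk : D k = N ^ α * (dens α σ N u v k * ‖a k‖) := by
        rw [hD]; simp only [if_neg hk, add_zero]
      have hq1 : (1 + al N u v k) * P.q k = 1 := by
        have e : P.q k = (1 + al N u v k)⁻¹ := rfl
        rw [e]
        exact mul_inv_cancel₀ (by positivity)
      have hexp : Real.exp (σ * al N u v k) * Real.exp (-(σ * al N u v k)) = 1 := by
        rw [← Real.exp_add]; simp
      have hnorm := norm_nonneg (a k)
      have hlk := hlam k hk
      rw [hDk, P.w_of_ne hk]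
      by_cases hF : N ≤ eu k
      · have hm1 : P.m k = 1 := P.m_of_fast hF
        have hT : Real.exp (-(κ * eu k ^ (2 * α) * t)) ≤ P.T k t := by
          have e1 : P.T k t = P.e1 t + P.δ * P.e2 t := P.T_of_fast hF t
          have e2 : Real.exp (-(κ * eu k ^ (2 * α) * t)) ≤ P.e1 t := by
            unfold APar.e1
            rw [Real.exp_le_exp, hμ]
            have h8 := mul_le_mul_of_nonneg_right (hlamF k hF) ht
            have h9 : 0 ≤ κ * N ^ (2 * α) * t := by
              have : 0 ≤ N ^ (2 * α) := Real.rpow_nonneg hN0.le _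
              positivity
            linarith
          have e3 : 0 < P.δ * P.e2 t := mul_pos P.hδ (P.e2_pos t)
          rw [e1]; linarith
        have hdens : dens α σ N u v k =
            (1 + al N u v k) * Real.exp (σ * al N u v k) * N ^ (-α) := by
          unfold dens; rw [if_neg hk, if_pos hF]
        rw [hdens, hm1]
        calc Real.exp (-(κ * eu k ^ (2 * α) * t)) * ‖a k‖
            = (N ^ α * N ^ (-α)) * ((1 + al N u v k) * P.q k) *
              (Real.exp (σ * al N u v k) * Real.exp (-(σ * al N u v k))) * ‖a k‖ *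
              Real.exp (-(κ * eu k ^ (2 * α) * t)) := by
              rw [hNαδ, hq1, hexp]; ring
          _ = (N ^ α * N ^ (-α) * ((1 + al N u v k) * P.q k) *
              Real.exp (σ * al N u v k) * ‖a k‖) * (Real.exp (-(σ * al N u v k)) *
              Real.exp (-(κ * eu k ^ (2 * α) * t))) := by ring
          _ ≤ (N ^ α * N ^ (-α) * ((1 + al N u v k) * P.q k) *
              Real.exp (σ * al N u v k) * ‖a k‖) * (P.X k t * P.T k t) := by
              apply mul_le_mul_of_nonneg_left _ (by positivity)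
              exact mul_le_mul hX hT (Real.exp_pos _).le (P.X_pos k t).le
          _ = _ := by ring
      · have hslow : eu k ≤ N := by linarith [not_le.mp hF]
        have hm1 : P.m k = eu k / N := P.m_of_slow hslow
        have hek := eu_pos hk
        have hT : N ^ (-α) * Real.exp (-(κ * eu k ^ (2 * α) * t)) ≤ P.T k t := by
          have e1 : P.T k t = N ^ (-α) * P.e2 t := P.T_of_slow hF t
          have e2 : Real.exp (-(κ * eu k ^ (2 * α) * t)) ≤ P.e2 t := by
            unfold APar.e2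
            have e3 : P.ν = κ := rfl
            rw [Real.exp_le_exp, e3]
            have h8 := mul_le_mul_of_nonneg_right hlk ht
            have h9 : 0 ≤ κ * t := by positivity
            linarith
          rw [e1]
          exact mul_le_mul_of_nonneg_left e2 hδ.le
        have hdens : dens α σ N u v k =
            (1 + al N u v k) * Real.exp (σ * al N u v k) * (N / eu k) := by
          unfold dens; rw [if_neg hk, if_neg hF]
        have hNe : N / eu k * (eu k / N) = 1 := by field_simp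
        rw [hdens, hm1]
        calc Real.exp (-(κ * eu k ^ (2 * α) * t)) * ‖a k‖
            = (N ^ α * N ^ (-α)) * ((1 + al N u v k) * P.q k) *
              (Real.exp (σ * al N u v k) * Real.exp (-(σ * al N u v k))) *
              (N / eu k * (eu k / N)) * ‖a k‖ *
              Real.exp (-(κ * eu k ^ (2 * α) * t)) := by
              rw [hNαδ, hq1, hexp, hNe]; ring
          _ = (N ^ α * ((1 + al N u v k) * P.q k) * Real.exp (σ * al N u v k) *
              (N / eu k * (eu k / N)) * ‖a k‖) * (Real.exp (-(σ * al N u v k)) *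
              (N ^ (-α) * Real.exp (-(κ * eu k ^ (2 * α) * t)))) := by ring
          _ ≤ (N ^ α * ((1 + al N u v k) * P.q k) * Real.exp (σ * al N u v k) *
              (N / eu k * (eu k / N)) * ‖a k‖) * (P.X k t * P.T k t) := by
              apply mul_le_mul_of_nonneg_left _ (by positivity)
              exact mul_le_mul hX hT (by positivity) (P.X_pos k t).le
          _ = _ := by ring
  · have e1 : P.K0 = 64 * (N ^ (-α) / (σ * κ)) := rfl
    have e2 : P.L = (x + 1) / η := rfl
    rw [e1, e2]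
    have e3 : 4 * (64 * (N ^ (-α) / (σ * κ))) * (N ^ α * W + ‖a 0‖ / ((x + 1) / η)) =
        (N ^ α * N ^ (-α)) * (256 * W / (κ * σ)) + N ^ (-α) * (η * (x / (x + 1))) := by
      rw [hx]
      field_simp
      ring
    rw [e3, hNαδ, one_mul]
    have h10 : x / (x + 1) < 1 := by
      rw [div_lt_one (by positivity)]; linarith
    have h11 : 0 ≤ x / (x + 1) := by positivity
    have h12 : N ^ (-α) * (η * (x / (x + 1))) < η := by
      calc N ^ (-α) * (η * (x / (x + 1))) ≤ 1 * (η * (x / (x + 1))) :=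
            mul_le_mul_of_nonneg_right hδ1 (by positivity)
        _ = η * (x / (x + 1)) := one_mul _
        _ < η * 1 := mul_lt_mul_of_pos_left h10 hη0
        _ = η := mul_one _
    have h13 : η = 1 - 256 * W / (κ * σ) := hη
    linarith

end Pool.Agent.Work.MP_a2fcf1_an_h64
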