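import Pool.Agent.Work.MP_a2fcf1_an_h64.Weights

/-!
# The integrated interaction bound
-/

namespace Pool.Agent.Work.MP_a2fcf1_an_h64

open Real

namespace Par

variable (P : Par)

/-- The contraction constant. -/
noncomputable def K0 : ℝ := 32768 * Z6 * (P.δ / (P.σ * P.ν))

theorem K0_nonneg : 0 ≤ P.K0 := by
  have := Z6_nonneg
  have := P.hδ
  have := P.hσ
  have := P.hν
  unfold K0
  positivity

theorem fac1 {lam t s : ℝ} (h : P.μ ≤ lam) (h0 : 0 ≤ s) (hst : s ≤ t) :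
    exp (-(lam * (t - s))) * (P.e1 s * P.e1 s) ≤ P.e1 t * exp (-(P.μ * s / 4)) := by
  unfold e1
  rw [← exp_add, ← exp_add, ← exp_add, exp_le_exp]
  have hμ := P.hμ
  have h1 : P.μ * (t - s) ≤ lam * (t - s) := mul_le_mul_of_nonneg_right h (by linarith)
  have h2 : 0 ≤ P.μ * s := by positivity
  have h3 : 0 ≤ P.μ * (t - s) := mul_nonneg hμ.le (by linarith)
  nlinarith

theorem fac2 {lam t s : ℝ} (h : P.μ ≤ lam) (h0 : 0 ≤ s) (hst : s ≤ t) :
    exp (-(lam * (t - s))) * (P.e1 s * P.e2 s) ≤ P.e1 t * exp (-(P.ν * s / 4)) := by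
  unfold e1 e2
  rw [← exp_add, ← exp_add, ← exp_add, exp_le_exp]
  have hμ := P.hμ
  have hν := P.hν
  have h1 : P.μ * (t - s) ≤ lam * (t - s) := mul_le_mul_of_nonneg_right h (by linarith)
  have h2 : 0 ≤ P.ν * s := by positivity
  have h3 : 0 ≤ P.μ * (t - s) := mul_nonneg hμ.le (by linarith)
  nlinarith

theorem fac3 {lam t s : ℝ} (h : P.ν ≤ lam) (h0 : 0 ≤ s) (hst : s ≤ t) :
    exp (-(lam * (t - s))) * (P.e2 s * P.e2 s) ≤ P.e2 t * exp (-(P.ν * s / 4)) := by
  unfold e2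
  rw [← exp_add, ← exp_add, ← exp_add, exp_le_exp]
  have hν := P.hν
  have h1 : P.ν * (t - s) ≤ lam * (t - s) := mul_le_mul_of_nonneg_right h (by linarith)
  have h2 : 0 ≤ P.ν * s := by positivity
  have h3 : 0 ≤ P.ν * (t - s) := mul_nonneg hν.le (by linarith)
  nlinarith

theorem fac4 {lam t s : ℝ} (h : P.ν ≤ lam) (h0 : 0 ≤ s) (hst : s ≤ t) :
    exp (-(lam * (t - s))) * (P.e1 s * P.e1 s) ≤ P.e2 t * exp (-(P.μ * s / 4)) := by
  unfold e1 e2
  rw [← exp_add, ← exp_add, ← exp_add, exp_le_exp]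
  have hν := P.hν
  have hμ := P.hμ
  have h1 : P.ν * (t - s) ≤ lam * (t - s) := mul_le_mul_of_nonneg_right h (by linarith)
  have h2 : P.ν * s ≤ P.μ * s := mul_le_mul_of_nonneg_right P.ν_le_μ h0
  have h3 : 0 ≤ P.ν * (t - s) := mul_nonneg hν.le (by linarith)
  have h4 : 0 ≤ P.μ * s := by positivity
  nlinarith

theorem fac5 {lam t s : ℝ} (h : P.ν ≤ lam) (h0 : 0 ≤ s) (hst : s ≤ t) :
    exp (-(lam * (t - s))) * (P.e1 s * P.e2 s) ≤ P.e2 t * exp (-(P.μ * s / 4)) := by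
  unfold e1 e2
  rw [← exp_add, ← exp_add, ← exp_add, exp_le_exp]
  have hν := P.hν
  have hμ := P.hμ
  have h1 : P.ν * (t - s) ≤ lam * (t - s) := mul_le_mul_of_nonneg_right h (by linarith)
  have h3 : 0 ≤ P.ν * (t - s) := mul_nonneg hν.le (by linarith)
  have h4 : 0 ≤ P.μ * s := by positivity
  nlinarith

theorem summable_fast (k : ℤ × ℤ) (s : ℝ) :
    Summable fun j => |sc j (k - j)| * (P.wt j s * P.wt (k - j) s) :=
  Summable.of_nonneg_of_le
    (fun _ => mul_nonneg (abs_nonneg _) (mul_nonneg (P.wt_pos _ _).le (P.wt_pos _ _).le))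
    (fun j => P.term_fast k j s) ((summable_pw P.n k).mul_left _)

theorem Hf_nonneg (k : ℤ × ℤ) (t : ℝ) : 0 ≤ P.Hf k t := by
  have := P.P6_pos k
  have := P.Q7_pos k
  have := P.e1_pos t
  have := P.e2_pos t
  have := P.hδ
  have := P.X_pos k t
  have := P.Y_pos k t
  have := mm_pos P.hn k
  unfold Hf
  positivity

theorem Hs_nonneg (k : ℤ × ℤ) (t : ℝ) : 0 ≤ P.Hs k t := by
  have := P.P7_pos k
  have := P.Q7_pos k
  have := P.e1_pos t
  have := P.e2_pos t
  have := P.hδ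
  have := P.X_pos k t
  have := P.Y_pos k t
  have := mm_pos P.hn k
  unfold Hs
  positivity

theorem tsum_fast (k : ℤ × ℤ) (s : ℝ) :
    ∑' j, |sc j (k - j)| * (P.wt j s * P.wt (k - j) s) ≤ 2 * Z6 * P.Hf k s := by
  calc ∑' j, |sc j (k - j)| * (P.wt j s * P.wt (k - j) s)
      ≤ ∑' j, P.Hf k s * pw P.n k j :=
        (P.summable_fast k s).tsum_le_tsum (fun j => P.term_fast k j s)
          ((summable_pw P.n k).mul_left _)
    _ = P.Hf k s * ∑' j, pw P.n k j := tsum_mul_left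
    _ ≤ P.Hf k s * (2 * Z6) :=
        mul_le_mul_of_nonneg_left (tsum_pw_le P.n k) (P.Hf_nonneg k s)
    _ = _ := by ring

theorem tsum_slow (k : ℤ × ℤ) (s : ℝ) :
    ∑' j, |sc j (k - j)| * (P.wt j s * P.wt (k - j) s) ≤ 2 * Z6 * P.Hs k s := by
  calc ∑' j, |sc j (k - j)| * (P.wt j s * P.wt (k - j) s)
      ≤ ∑' j, P.Hs k s * pw P.n k j :=
        (P.summable_fast k s).tsum_le_tsum (fun j => P.term_slow k j s)
          ((summable_pw P.n k).mul_left _)
    _ = P.Hs k s * ∑' j, pw P.n k j := tsum_mul_left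
    _ ≤ P.Hs k s * (2 * Z6) :=
        mul_le_mul_of_nonneg_left (tsum_pw_le P.n k) (P.Hs_nonneg k s)
    _ = _ := by ring

/-- Time majorant, slow-slow part. -/
theorem timeBB {k : ℤ × ℤ} (hk : k ≠ 0) {lam t s : ℝ} (h : P.ν ≤ lam) (h0 : 0 ≤ s)
    (hst : s ≤ t) :
    exp (-(lam * (t - s))) *
      (128 * (n1 k * mm P.n k) * P.Q7 k * (P.δ ^ 2 * (P.e2 s * P.e2 s) * P.Y k s)) ≤
    2048 * (P.δ / (P.σ * P.ν)) * (P.δ * P.e2 t * mm P.n k * P.Q7 k) *
      dx P.σ P.μ P.ν (n1 k) s := by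
  have hm := mm_pos P.hn k
  have hQ := P.Q7_pos k
  have hδ := P.hδ
  have hσ := P.hσ
  have hν := P.hν
  have hY := P.Y_pos k s
  have he := P.e2_pos t
  have hq : (0 : ℝ) < n1 k := by exact_mod_cast one_le_n1 hk
  have f := P.fac3 h h0 hst
  have g := exp_nu_le_dx P.hσ P.hμ P.hν hq s
  calc exp (-(lam * (t - s))) *
      (128 * (n1 k * mm P.n k) * P.Q7 k * (P.δ ^ 2 * (P.e2 s * P.e2 s) * P.Y k s))
      = (128 * (n1 k * mm P.n k) * P.Q7 k * P.δ ^ 2 * P.Y k s) *
        (exp (-(lam * (t - s))) * (P.e2 s * P.e2 s)) := by ring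
    _ ≤ (128 * (n1 k * mm P.n k) * P.Q7 k * P.δ ^ 2 * P.Y k s) *
        (P.e2 t * exp (-(P.ν * s / 4))) := mul_le_mul_of_nonneg_left f (by positivity)
    _ = (128 * (n1 k * mm P.n k) * P.Q7 k * P.δ ^ 2 * P.e2 t) *
        (exp (-(P.ν * s / 4)) * exp (-(sg P.σ P.μ P.ν s * n1 k))) := by
        unfold Y Par.s; ring
    _ ≤ (128 * (n1 k * mm P.n k) * P.Q7 k * P.δ ^ 2 * P.e2 t) *
        (16 / (P.σ * P.ν * n1 k) * dx P.σ P.μ P.ν (n1 k) s) :=
        mul_le_mul_of_nonneg_left g (by positivity)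
    _ = _ := by field_simp; ring

/-- Time majorant, fast output. -/
theorem timeF {k : ℤ × ℤ} (hk : k ≠ 0) {lam t s : ℝ} (h : P.μ ≤ lam) (h0 : 0 ≤ s)
    (hst : s ≤ t) :
    exp (-(lam * (t - s))) *
      (128 * P.P6 k * ((P.e1 s * P.e1 s + 2 * (P.δ * (P.e1 s * P.e2 s))) * P.X k s)) ≤
    12288 * (P.δ / (P.σ * P.ν)) * (P.e1 t * P.P7 k) * dx P.σ P.μ P.ν (rho P.n k) s := by
  have hP := P.P6_pos k
  have hP7 := P.P7_pos k
  have hδ := P.hδ
  have hσ := P.hσ
  have hν := P.hν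
  have hμ := P.hμ
  have hX := P.X_pos k s
  have he := P.e1_pos t
  have hq : (1 : ℝ) ≤ rho P.n k := by exact_mod_cast one_le_rho P.hn hk
  have hq0 : (0 : ℝ) < rho P.n k := by linarith
  have f := P.fac1 h h0 hst
  have f2 := P.fac2 h h0 hst
  have g := exp_mu_le_dx P.hσ P.hμ P.hν hq0 s
  have g2 := exp_nu_le_dx P.hσ P.hμ P.hν hq0 s
  have hdx : 0 ≤ dx P.σ P.μ P.ν (rho P.n k) s := by unfold dx; positivity
  have hμδ : 1 / P.μ ≤ P.δ / P.ν := by
    have e : 1 / P.μ = P.δ * (P.δ / P.ν) := by unfold Par.μ; field_simp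
    rw [e]
    apply mul_le_of_le_one_left (by positivity) P.hδ1
  have hP6 : P.P6 k ≤ 2 * rho P.n k * P.P7 k := by
    have e : P.P6 k = (1 + (rho P.n k : ℝ)) * P.P7 k := by
      unfold P6 P7; field_simp
    rw [e]
    gcongr
    linarith
  calc exp (-(lam * (t - s))) *
      (128 * P.P6 k * ((P.e1 s * P.e1 s + 2 * (P.δ * (P.e1 s * P.e2 s))) * P.X k s))
      = (128 * P.P6 k * P.X k s) * (exp (-(lam * (t - s))) * (P.e1 s * P.e1 s) +
        2 * P.δ * (exp (-(lam * (t - s))) * (P.e1 s * P.e2 s))) := by ring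
    _ ≤ (128 * P.P6 k * P.X k s) * (P.e1 t * exp (-(P.μ * s / 4)) +
        2 * P.δ * (P.e1 t * exp (-(P.ν * s / 4)))) := by
        apply mul_le_mul_of_nonneg_left _ (by positivity)
        exact add_le_add f (mul_le_mul_of_nonneg_left f2 (by positivity))
    _ = (128 * P.P6 k * P.e1 t) *
        ((exp (-(P.μ * s / 4)) * exp (-(sg P.σ P.μ P.ν s * rho P.n k))) +
        2 * P.δ * (exp (-(P.ν * s / 4)) * exp (-(sg P.σ P.μ P.ν s * rho P.n k)))) := by
        unfold X Par.s; ring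
    _ ≤ (128 * P.P6 k * P.e1 t) *
        ((16 / (P.σ * P.μ * rho P.n k) * dx P.σ P.μ P.ν (rho P.n k) s) +
        2 * P.δ * (16 / (P.σ * P.ν * rho P.n k) * dx P.σ P.μ P.ν (rho P.n k) s)) := by
        apply mul_le_mul_of_nonneg_left _ (by positivity)
        exact add_le_add g (mul_le_mul_of_nonneg_left g2 (by positivity))
    _ = (128 * P.P6 k * P.e1 t) *
        ((16 * (1 / P.μ) + 32 * (P.δ / P.ν)) * (1 / (P.σ * rho P.n k)) *
          dx P.σ P.μ P.ν (rho P.n k) s) := by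
        field_simp; ring
    _ ≤ (128 * (2 * rho P.n k * P.P7 k) * P.e1 t) *
        ((16 * (P.δ / P.ν) + 32 * (P.δ / P.ν)) * (1 / (P.σ * rho P.n k)) *
          dx P.σ P.μ P.ν (rho P.n k) s) := by
        gcongr
    _ = _ := by field_simp; ring

/-- Time majorant, slow output. -/
theorem timeS {k : ℤ × ℤ} (hk : k ≠ 0) {lam t s : ℝ} (h : P.ν ≤ lam) (h0 : 0 ≤ s)
    (hst : s ≤ t) :
    exp (-(lam * (t - s))) *
      (256 * (rho P.n k * mm P.n k) * P.P7 k *
        ((P.e1 s * P.e1 s + 2 * (P.δ * (P.e1 s * P.e2 s))) * P.X k s)) ≤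
    12288 * (P.δ / (P.σ * P.ν)) * (P.δ * P.e2 t * mm P.n k * P.P7 k) *
      dx P.σ P.μ P.ν (rho P.n k) s := by
  have hP7 := P.P7_pos k
  have hδ := P.hδ
  have hσ := P.hσ
  have hν := P.hν
  have hμ := P.hμ
  have hm := mm_pos P.hn k
  have hX := P.X_pos k s
  have he := P.e2_pos t
  have hq : (1 : ℝ) ≤ rho P.n k := by exact_mod_cast one_le_rho P.hn hk
  have hq0 : (0 : ℝ) < rho P.n k := by linarith
  have f := P.fac4 h h0 hst
  have f2 := P.fac5 h h0 hst
  have g := exp_mu_le_dx P.hσ P.hμ P.hν hq0 s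
  have hdx : 0 ≤ dx P.σ P.μ P.ν (rho P.n k) s := by unfold dx; positivity
  have hμδ : 1 / P.μ = P.δ * (P.δ / P.ν) := by unfold Par.μ; field_simp
  calc exp (-(lam * (t - s))) *
      (256 * (rho P.n k * mm P.n k) * P.P7 k *
        ((P.e1 s * P.e1 s + 2 * (P.δ * (P.e1 s * P.e2 s))) * P.X k s))
      = (256 * (rho P.n k * mm P.n k) * P.P7 k * P.X k s) *
        (exp (-(lam * (t - s))) * (P.e1 s * P.e1 s) +
        2 * P.δ * (exp (-(lam * (t - s))) * (P.e1 s * P.e2 s))) := by ring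
    _ ≤ (256 * (rho P.n k * mm P.n k) * P.P7 k * P.X k s) *
        (P.e2 t * exp (-(P.μ * s / 4)) + 2 * P.δ * (P.e2 t * exp (-(P.μ * s / 4)))) := by
        apply mul_le_mul_of_nonneg_left _ (by positivity)
        exact add_le_add f (mul_le_mul_of_nonneg_left f2 (by positivity))
    _ = (256 * (rho P.n k * mm P.n k) * P.P7 k * P.e2 t) * (1 + 2 * P.δ) *
        (exp (-(P.μ * s / 4)) * exp (-(sg P.σ P.μ P.ν s * rho P.n k))) := by
        unfold X Par.s; ring
    _ ≤ (256 * (rho P.n k * mm P.n k) * P.P7 k * P.e2 t) * (1 + 2 * 1) *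
        (16 / (P.σ * P.μ * rho P.n k) * dx P.σ P.μ P.ν (rho P.n k) s) := by
        gcongr
        exact P.hδ1
    _ = (12288 * mm P.n k * P.P7 k * P.e2 t) * (1 / P.μ) * (1 / P.σ) *
        dx P.σ P.μ P.ν (rho P.n k) s := by field_simp; ring
    _ = _ := by rw [hμδ]; field_simp

/-- The integrated interaction bound. -/
theorem main_bound {k : ℤ × ℤ} {lam : ℝ} (hlam : k ≠ 0 → P.ν ≤ lam)
    (hlamF : Fast P.n k → P.μ ≤ lam) (t : ℝ) :
    ∃ h : ℝ → ℝ, Continuous h ∧
      (∀ s, 0 ≤ s → s ≤ t → exp (-(lam * (t - s))) *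
        (∑' j, |sc j (k - j)| * (P.wt j s * P.wt (k - j) s)) ≤ h s) ∧
      ∫ s in (0 : ℝ)..t, h s ≤ P.K0 * P.wt k t := by
  have hZ := Z6_nonneg
  have hδ := P.hδ
  have hσ := P.hσ
  have hν := P.hν
  by_cases hk : k = 0
  · subst hk
    refine ⟨fun _ => 0, continuous_const, fun s _ _ => ?_, ?_⟩
    · simp
    · simp only [intervalIntegral.integral_zero]
      exact mul_nonneg P.K0_nonneg (P.wt_pos _ _).le
  have hwt : P.wt k t = P.wA k t + P.wB k t := by unfold wt; rw [if_neg hk]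
  have hA0 := P.wA_nonneg k t
  have hB0 := P.wB_pos k t
  set G := P.δ / (P.σ * P.ν) with hG
  have hG0 : 0 < G := by rw [hG]; positivity
  have hm := mm_pos P.hn k
  have hQ := P.Q7_pos k
  have hP7 := P.P7_pos k
  have he1 := P.e1_pos t
  have he2 := P.e2_pos t
  have iY := integral_dx_le P.σ P.μ P.ν (n1 k) t
  have iX := integral_dx_le P.σ P.μ P.ν (rho P.n k) t
  have cY := (continuous_dx P.σ P.μ P.ν (n1 k))
  have cX := (continuous_dx P.σ P.μ P.ν (rho P.n k))
  by_cases hF : Fast P.n k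
  · refine ⟨fun s => 2 * Z6 * (12288 * G * (P.e1 t * P.P7 k)) *
        dx P.σ P.μ P.ν (rho P.n k) s +
        2 * Z6 * (2048 * G * (P.δ * P.e2 t * mm P.n k * P.Q7 k)) *
        dx P.σ P.μ P.ν (n1 k) s, by fun_prop, fun s h0 hst => ?_, ?_⟩
    · have h1 := P.tsum_fast k s
      have h2 := P.timeF hk (hlamF hF) h0 hst
      have h3 := P.timeBB hk (hlam hk) h0 hst
      calc exp (-(lam * (t - s))) * (∑' j, |sc j (k - j)| * (P.wt j s * P.wt (k - j) s))
          ≤ exp (-(lam * (t - s))) * (2 * Z6 * P.Hf k s) :=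
            mul_le_mul_of_nonneg_left h1 (exp_pos _).le
        _ = 2 * Z6 * (exp (-(lam * (t - s))) * (128 * P.P6 k *
              ((P.e1 s * P.e1 s + 2 * (P.δ * (P.e1 s * P.e2 s))) * P.X k s))) +
            2 * Z6 * (exp (-(lam * (t - s))) * (128 * (n1 k * mm P.n k) * P.Q7 k *
              (P.δ ^ 2 * (P.e2 s * P.e2 s) * P.Y k s))) := by
            unfold Hf; ring
        _ ≤ 2 * Z6 * (12288 * G * (P.e1 t * P.P7 k) * dx P.σ P.μ P.ν (rho P.n k) s) +
            2 * Z6 * (2048 * G * (P.δ * P.e2 t * mm P.n k * P.Q7 k) *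
              dx P.σ P.μ P.ν (n1 k) s) :=
            add_le_add (mul_le_mul_of_nonneg_left h2 (by positivity))
              (mul_le_mul_of_nonneg_left h3 (by positivity))
        _ = _ := by ring
    · rw [intervalIntegral.integral_add ((cX.const_mul _).intervalIntegrable _ _)
        ((cY.const_mul _).intervalIntegrable _ _), intervalIntegral.integral_const_mul,
        intervalIntegral.integral_const_mul]
      calc 2 * Z6 * (12288 * G * (P.e1 t * P.P7 k)) *
            (∫ s in (0 : ℝ)..t, dx P.σ P.μ P.ν (rho P.n k) s) +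
            2 * Z6 * (2048 * G * (P.δ * P.e2 t * mm P.n k * P.Q7 k)) *
            (∫ s in (0 : ℝ)..t, dx P.σ P.μ P.ν (n1 k) s)
          ≤ 2 * Z6 * (12288 * G * (P.e1 t * P.P7 k)) *
            exp (-(sg P.σ P.μ P.ν t * rho P.n k)) +
            2 * Z6 * (2048 * G * (P.δ * P.e2 t * mm P.n k * P.Q7 k)) *
            exp (-(sg P.σ P.μ P.ν t * n1 k)) :=
            add_le_add (mul_le_mul_of_nonneg_left iX (by positivity))
              (mul_le_mul_of_nonneg_left iY (by positivity))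
        _ = 24576 * Z6 * G * P.wA k t + 4096 * Z6 * G * P.wB k t := by
            rw [P.wA_of hF]
            unfold wB X Y Par.s
            ring
        _ ≤ 32768 * Z6 * G * P.wA k t + 32768 * Z6 * G * P.wB k t := by
            gcongr <;> norm_num
        _ = P.K0 * P.wt k t := by
            rw [hwt]; unfold K0; ring
  · have hrq : (rho P.n k : ℝ) = n1 k := by exact_mod_cast not_fast_iff.mp hF
    have hPQ : P.P7 k = P.Q7 k := by unfold P7 Q7; rw [hrq]
    refine ⟨fun s => 2 * Z6 * (12288 * G * (P.δ * P.e2 t * mm P.n k * P.P7 k)) *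
        dx P.σ P.μ P.ν (rho P.n k) s +
        2 * Z6 * (2048 * G * (P.δ * P.e2 t * mm P.n k * P.Q7 k)) *
        dx P.σ P.μ P.ν (n1 k) s, by fun_prop, fun s h0 hst => ?_, ?_⟩
    · have h1 := P.tsum_slow k s
      have h2 := P.timeS hk (hlam hk) h0 hst
      have h3 := P.timeBB hk (hlam hk) h0 hst
      calc exp (-(lam * (t - s))) * (∑' j, |sc j (k - j)| * (P.wt j s * P.wt (k - j) s))
          ≤ exp (-(lam * (t - s))) * (2 * Z6 * P.Hs k s) :=
            mul_le_mul_of_nonneg_left h1 (exp_pos _).le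
        _ = 2 * Z6 * (exp (-(lam * (t - s))) * (256 * (rho P.n k * mm P.n k) * P.P7 k *
              ((P.e1 s * P.e1 s + 2 * (P.δ * (P.e1 s * P.e2 s))) * P.X k s))) +
            2 * Z6 * (exp (-(lam * (t - s))) * (128 * (n1 k * mm P.n k) * P.Q7 k *
              (P.δ ^ 2 * (P.e2 s * P.e2 s) * P.Y k s))) := by
            rw [hrq]; unfold Hs; ring
        _ ≤ 2 * Z6 * (12288 * G * (P.δ * P.e2 t * mm P.n k * P.P7 k) *
              dx P.σ P.μ P.ν (rho P.n k) s) +
            2 * Z6 * (2048 * G * (P.δ * P.e2 t * mm P.n k * P.Q7 k) *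
              dx P.σ P.μ P.ν (n1 k) s) :=
            add_le_add (mul_le_mul_of_nonneg_left h2 (by positivity))
              (mul_le_mul_of_nonneg_left h3 (by positivity))
        _ = _ := by ring
    · rw [intervalIntegral.integral_add ((cX.const_mul _).intervalIntegrable _ _)
        ((cY.const_mul _).intervalIntegrable _ _), intervalIntegral.integral_const_mul,
        intervalIntegral.integral_const_mul]
      calc 2 * Z6 * (12288 * G * (P.δ * P.e2 t * mm P.n k * P.P7 k)) *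
            (∫ s in (0 : ℝ)..t, dx P.σ P.μ P.ν (rho P.n k) s) +
            2 * Z6 * (2048 * G * (P.δ * P.e2 t * mm P.n k * P.Q7 k)) *
            (∫ s in (0 : ℝ)..t, dx P.σ P.μ P.ν (n1 k) s)
          ≤ 2 * Z6 * (12288 * G * (P.δ * P.e2 t * mm P.n k * P.P7 k)) *
            exp (-(sg P.σ P.μ P.ν t * rho P.n k)) +
            2 * Z6 * (2048 * G * (P.δ * P.e2 t * mm P.n k * P.Q7 k)) *
            exp (-(sg P.σ P.μ P.ν t * n1 k)) :=
            add_le_add (mul_le_mul_of_nonneg_left iX (by positivity))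
              (mul_le_mul_of_nonneg_left iY (by positivity))
        _ = 28672 * Z6 * G * P.wB k t := by
            rw [hPQ, hrq]
            unfold wB Y Par.s
            ring
        _ ≤ 32768 * Z6 * G * P.wB k t := by
            gcongr; norm_num
        _ = P.K0 * P.wt k t := by
            rw [hwt, P.wA_of_not hF]; unfold K0; ring

end Par

end Pool.Agent.Work.MP_a2fcf1_an_h64
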