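import Mathlib

/-!
# A weighted fixed point lemma for quadratic systems indexed by the lattice
-/

namespace Pool.Agent.Work.MP_a2fcf1_an_h64

open Set BoundedContinuousFunction

/-- A quadratic system with weights. -/
structure PicSys where
  /-- damping rates -/
  lam : ℤ × ℤ → ℝ
  /-- weights -/
  w : ℤ × ℤ → ℝ → ℝ
  /-- interaction coefficients -/
  c : ℤ × ℤ → ℤ × ℤ → ℝ
  /-- summable majorants -/
  u : ℤ × ℤ → ℤ × ℤ → ℝ
  /-- smallness constant -/
  K : ℝ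
  hw : ∀ k t, 0 < w k t
  hwc : ∀ k, Continuous (w k)
  hu : ∀ k, Summable (u k)
  hcu : ∀ k j t, 0 ≤ t → |c k j| * (w j t * w (k - j) t) ≤ u k j
  hK0 : 0 ≤ K
  hK : ∀ k t, 0 ≤ t → ∃ h : ℝ → ℝ, Continuous h ∧
    (∀ s, 0 ≤ s → s ≤ t → Real.exp (-(lam k * (t - s))) *
      (∑' j, |c k j| * (w j s * w (k - j) s)) ≤ h s) ∧
    ∫ s in (0 : ℝ)..t, h s ≤ K * w k t

namespace PicSys

variable (S : PicSys)

/-- The space of renormalised coefficient families. -/
abbrev E := BoundedContinuousFunction ((ℤ × ℤ) × ℝ) ℂ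

/-- The weighted sum of the coefficients. -/
noncomputable def S0 (k : ℤ × ℤ) (s : ℝ) : ℝ := ∑' j, |S.c k j| * (S.w j s * S.w (k - j) s)

theorem cw_nonneg (k j : ℤ × ℤ) (t : ℝ) : 0 ≤ |S.c k j| * (S.w j t * S.w (k - j) t) :=
  mul_nonneg (abs_nonneg _) (mul_nonneg (S.hw _ _).le (S.hw _ _).le)

theorem u_nonneg (k j : ℤ × ℤ) : 0 ≤ S.u k j :=
  (S.cw_nonneg k j 0).trans (S.hcu k j 0 le_rfl)

theorem summable_cw (k : ℤ × ℤ) {t : ℝ} (ht : 0 ≤ t) :
    Summable fun j => |S.c k j| * (S.w j t * S.w (k - j) t) :=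
  Summable.of_nonneg_of_le (fun j => S.cw_nonneg k j t) (fun j => S.hcu k j t ht) (S.hu k)

theorem S0_nonneg (k : ℤ × ℤ) (s : ℝ) : 0 ≤ S.S0 k s := tsum_nonneg fun j => S.cw_nonneg k j s

theorem int_bound (k : ℤ × ℤ) (G : ℝ → ℂ) {M : ℝ} (hM : 0 ≤ M)
    (hG : ∀ s, 0 ≤ s → ‖G s‖ ≤ M * S.S0 k s) {t : ℝ} (ht : 0 ≤ t) :
    ‖((Real.exp (-(S.lam k * t)) : ℝ) : ℂ) *
      ∫ s in (0 : ℝ)..t, ((Real.exp (S.lam k * s) : ℝ) : ℂ) * G s‖ ≤ M * S.K * S.w k t := by
  obtain ⟨h, hc, hb, hi⟩ := S.hK k t ht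
  rw [← intervalIntegral.integral_const_mul]
  calc ‖∫ s in (0 : ℝ)..t, ((Real.exp (-(S.lam k * t)) : ℝ) : ℂ) *
        (((Real.exp (S.lam k * s) : ℝ) : ℂ) * G s)‖
      ≤ ∫ s in (0 : ℝ)..t, M * h s := by
        apply intervalIntegral.norm_integral_le_of_norm_le ht
        · refine Filter.Eventually.of_forall fun s hs => ?_
          have h0 : 0 ≤ s := hs.1.le
          have e : ((Real.exp (-(S.lam k * t)) : ℝ) : ℂ) *
              (((Real.exp (S.lam k * s) : ℝ) : ℂ) * G s) =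
              ((Real.exp (-(S.lam k * (t - s))) : ℝ) : ℂ) * G s := by
            rw [← mul_assoc, ← Complex.ofReal_mul, ← Real.exp_add]
            congr 3
            ring_nf
          rw [e, norm_mul, Complex.norm_real, Real.norm_eq_abs, Real.abs_exp]
          calc Real.exp (-(S.lam k * (t - s))) * ‖G s‖
              ≤ Real.exp (-(S.lam k * (t - s))) * (M * S.S0 k s) :=
                mul_le_mul_of_nonneg_left (hG s h0) (Real.exp_pos _).le
            _ = M * (Real.exp (-(S.lam k * (t - s))) * S.S0 k s) := by ring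
            _ ≤ M * h s := mul_le_mul_of_nonneg_left (hb s h0 hs.2) hM
        · exact (hc.const_mul M).intervalIntegrable _ _
    _ = M * ∫ s in (0 : ℝ)..t, h s := intervalIntegral.integral_const_mul _ _
    _ ≤ M * (S.K * S.w k t) := mul_le_mul_of_nonneg_left hi hM
    _ = _ := by ring

/-- The coefficients encoded by an element of the space. -/
noncomputable def aa (b : E) (k : ℤ × ℤ) (t : ℝ) : ℂ := ((S.w k (max t 0) : ℝ) : ℂ) * b (k, t)

theorem continuous_aa (b : E) (k : ℤ × ℤ) : Continuous (S.aa b k) := by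
  unfold aa
  have h1 : Continuous fun t : ℝ => S.w k (max t 0) :=
    (S.hwc k).comp (continuous_id.max continuous_const)
  have h2 : Continuous fun t : ℝ => b (k, t) := b.continuous.comp (by fun_prop)
  exact (Complex.continuous_ofReal.comp h1).mul h2

theorem norm_aa_le (b : E) (k : ℤ × ℤ) (t : ℝ) : ‖S.aa b k t‖ ≤ S.w k (max t 0) * ‖b‖ := by
  unfold aa
  rw [norm_mul, Complex.norm_real, Real.norm_eq_abs, abs_of_pos (S.hw _ _)]
  exact mul_le_mul_of_nonneg_left (b.norm_coe_le_norm _) (S.hw _ _).le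

theorem aa_sub (b g : E) (k : ℤ × ℤ) (t : ℝ) : S.aa (b - g) k t = S.aa b k t - S.aa g k t := by
  unfold aa
  rw [BoundedContinuousFunction.sub_apply]
  ring

/-- The bilinear interaction. -/
noncomputable def F (b g : E) (k : ℤ × ℤ) (s : ℝ) : ℂ :=
  ∑' j, ((S.c k j : ℝ) : ℂ) * (S.aa b j s * S.aa g (k - j) s)

theorem norm_term_le (b g : E) (k j : ℤ × ℤ) (s : ℝ) :
    ‖((S.c k j : ℝ) : ℂ) * (S.aa b j s * S.aa g (k - j) s)‖ ≤
      (‖b‖ * ‖g‖) * (|S.c k j| * (S.w j (max s 0) * S.w (k - j) (max s 0))) := by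
  rw [norm_mul, norm_mul, Complex.norm_real, Real.norm_eq_abs]
  calc |S.c k j| * (‖S.aa b j s‖ * ‖S.aa g (k - j) s‖)
      ≤ |S.c k j| * ((S.w j (max s 0) * ‖b‖) * (S.w (k - j) (max s 0) * ‖g‖)) := by
        apply mul_le_mul_of_nonneg_left _ (abs_nonneg _)
        exact mul_le_mul (S.norm_aa_le b j s) (S.norm_aa_le g (k - j) s) (norm_nonneg _)
          (mul_nonneg (S.hw _ _).le (norm_nonneg _))
    _ = _ := by ring

theorem norm_term_le_u (b g : E) (k j : ℤ × ℤ) (s : ℝ) :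
    ‖((S.c k j : ℝ) : ℂ) * (S.aa b j s * S.aa g (k - j) s)‖ ≤ (‖b‖ * ‖g‖) * S.u k j :=
  (S.norm_term_le b g k j s).trans
    (mul_le_mul_of_nonneg_left (S.hcu k j _ (le_max_right _ _))
      (mul_nonneg (norm_nonneg _) (norm_nonneg _)))

theorem summable_F (b g : E) (k : ℤ × ℤ) (s : ℝ) :
    Summable fun j => ((S.c k j : ℝ) : ℂ) * (S.aa b j s * S.aa g (k - j) s) :=
  Summable.of_norm_bounded ((S.hu k).mul_left _) (fun j => S.norm_term_le_u b g k j s)

theorem norm_F_le (b g : E) (k : ℤ × ℤ) {s : ℝ} (hs : 0 ≤ s) :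
    ‖S.F b g k s‖ ≤ (‖b‖ * ‖g‖) * S.S0 k s := by
  unfold F S0
  rw [← tsum_mul_left]
  have h : ∀ j, ‖((S.c k j : ℝ) : ℂ) * (S.aa b j s * S.aa g (k - j) s)‖ ≤
      (‖b‖ * ‖g‖) * (|S.c k j| * (S.w j s * S.w (k - j) s)) := by
    intro j
    have := S.norm_term_le b g k j s
    rwa [max_eq_left hs] at this
  exact tsum_of_norm_bounded (((S.summable_cw k hs).mul_left _).hasSum) h

theorem continuous_F (b g : E) (k : ℤ × ℤ) : Continuous (S.F b g k) := by
  apply continuous_tsum _ ((S.hu k).mul_left (‖b‖ * ‖g‖)) (fun j s => S.norm_term_le_u b g k j s)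
  intro j
  exact continuous_const.mul ((S.continuous_aa b j).mul (S.continuous_aa g (k - j)))

theorem F_sub (b g : E) (k : ℤ × ℤ) (s : ℝ) :
    S.F b b k s - S.F g g k s = S.F (b - g) b k s + S.F g (b - g) k s := by
  unfold F
  rw [← (S.summable_F b b k s).tsum_sub (S.summable_F g g k s),
    ← (S.summable_F (b - g) b k s).tsum_add (S.summable_F g (b - g) k s)]
  apply tsum_congr
  intro j
  rw [S.aa_sub, S.aa_sub]
  ring

variable (d : ℤ × ℤ → ℂ)

/-- The Duhamel map before renormalisation. -/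
noncomputable def Ph (b : E) (k : ℤ × ℤ) (t : ℝ) : ℂ :=
  ((Real.exp (-(S.lam k * max t 0)) : ℝ) : ℂ) *
    (d k - ∫ s in (0 : ℝ)..(max t 0), ((Real.exp (S.lam k * s) : ℝ) : ℂ) * S.F b b k s)

theorem continuous_integrand (b g : E) (k : ℤ × ℤ) :
    Continuous fun s => ((Real.exp (S.lam k * s) : ℝ) : ℂ) * S.F b g k s := by
  have := S.continuous_F b g k
  fun_prop

theorem continuous_Ph (b : E) (k : ℤ × ℤ) : Continuous (S.Ph d b k) := by
  unfold Ph
  have h1 : Continuous fun t : ℝ => ∫ s in (0 : ℝ)..t,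
      ((Real.exp (S.lam k * s) : ℝ) : ℂ) * S.F b b k s :=
    intervalIntegral.continuous_primitive
      (fun a b' => (S.continuous_integrand b b k).intervalIntegrable _ _) 0
  have h2 : Continuous fun t : ℝ => max t 0 := continuous_id.max continuous_const
  have h3 := h1.comp h2
  have h4 : Continuous fun t : ℝ => ((Real.exp (-(S.lam k * max t 0)) : ℝ) : ℂ) := by
    fun_prop
  exact h4.mul (continuous_const.sub h3)

/-- The data bound. -/
def DataBd (R : ℝ) : Prop :=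
  ∀ k t, 0 ≤ t → Real.exp (-(S.lam k * t)) * ‖d k‖ ≤ R * S.w k t

variable {d}

theorem norm_Ph_le {R : ℝ} (hd : S.DataBd d R) (b : E) (k : ℤ × ℤ) (t : ℝ) :
    ‖S.Ph d b k t‖ ≤ (R + ‖b‖ * ‖b‖ * S.K) * S.w k (max t 0) := by
  have ht : 0 ≤ max t 0 := le_max_right _ _
  unfold Ph
  rw [mul_sub]
  refine (norm_sub_le _ _).trans ?_
  have h1 : ‖((Real.exp (-(S.lam k * max t 0)) : ℝ) : ℂ) * d k‖ ≤ R * S.w k (max t 0) := by
    rw [norm_mul, Complex.norm_real, Real.norm_eq_abs, Real.abs_exp]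
    exact hd k _ ht
  have h2 := S.int_bound k (S.F b b k) (mul_nonneg (norm_nonneg b) (norm_nonneg b))
    (fun s hs => S.norm_F_le b b k hs) ht
  linarith

theorem norm_Ph_sub_le (b g : E) (k : ℤ × ℤ) (t : ℝ) :
    ‖S.Ph d b k t - S.Ph d g k t‖ ≤
      ((‖b‖ + ‖g‖) * ‖b - g‖ * S.K) * S.w k (max t 0) := by
  have ht : 0 ≤ max t 0 := le_max_right _ _
  have e : S.Ph d b k t - S.Ph d g k t =
      -(((Real.exp (-(S.lam k * max t 0)) : ℝ) : ℂ) *
        ∫ s in (0 : ℝ)..(max t 0), ((Real.exp (S.lam k * s) : ℝ) : ℂ) *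
          (S.F (b - g) b k s + S.F g (b - g) k s)) := by
    unfold Ph
    have h : ∫ s in (0 : ℝ)..(max t 0), ((Real.exp (S.lam k * s) : ℝ) : ℂ) *
          (S.F (b - g) b k s + S.F g (b - g) k s) =
        (∫ s in (0 : ℝ)..(max t 0), ((Real.exp (S.lam k * s) : ℝ) : ℂ) * S.F b b k s) -
        ∫ s in (0 : ℝ)..(max t 0), ((Real.exp (S.lam k * s) : ℝ) : ℂ) * S.F g g k s := by
      rw [← intervalIntegral.integral_sub
        ((S.continuous_integrand b b k).intervalIntegrable _ _)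
        ((S.continuous_integrand g g k).intervalIntegrable _ _)]
      apply intervalIntegral.integral_congr
      intro s _
      simp only
      rw [← S.F_sub b g k s]
      ring
    rw [h]
    ring
  rw [e, norm_neg]
  apply S.int_bound k _ (mul_nonneg (add_nonneg (norm_nonneg _) (norm_nonneg _))
    (norm_nonneg _)) _ ht
  intro s hs
  have h1 := S.norm_F_le (b - g) b k hs
  have h2 := S.norm_F_le g (b - g) k hs
  calc ‖S.F (b - g) b k s + S.F g (b - g) k s‖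
      ≤ ‖S.F (b - g) b k s‖ + ‖S.F g (b - g) k s‖ := norm_add_le _ _
    _ ≤ (‖b - g‖ * ‖b‖) * S.S0 k s + (‖g‖ * ‖b - g‖) * S.S0 k s := add_le_add h1 h2
    _ = _ := by ring

theorem norm_div_w (z : ℂ) (k : ℤ × ℤ) (t : ℝ) {C : ℝ} (h : ‖z‖ ≤ C * S.w k (max t 0)) :
    ‖z / ((S.w k (max t 0) : ℝ) : ℂ)‖ ≤ C := by
  rw [norm_div, Complex.norm_real, Real.norm_eq_abs, abs_of_pos (S.hw _ _),
    div_le_iff₀ (S.hw _ _)]
  exact h

/-- The Duhamel map on the space. -/
noncomputable def Phi {R : ℝ} (hd : S.DataBd d R) (b : E) : E :=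
  ofNormedAddCommGroup
    (fun p : (ℤ × ℤ) × ℝ => S.Ph d b p.1 p.2 / ((S.w p.1 (max p.2 0) : ℝ) : ℂ))
    (by
      rw [continuous_prod_of_discrete_left]
      intro k
      apply (S.continuous_Ph d b k).div
      · exact Complex.continuous_ofReal.comp
          ((S.hwc k).comp (continuous_id.max continuous_const))
      · intro t
        exact_mod_cast (S.hw k (max t 0)).ne')
    (R + ‖b‖ * ‖b‖ * S.K)
    (fun p => S.norm_div_w _ _ _ (S.norm_Ph_le hd b p.1 p.2))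

theorem Phi_apply {R : ℝ} (hd : S.DataBd d R) (b : E) (k : ℤ × ℤ) (t : ℝ) :
    S.Phi hd b (k, t) = S.Ph d b k t / ((S.w k (max t 0) : ℝ) : ℂ) := rfl

theorem norm_Phi_le {R : ℝ} (hR : 0 ≤ R) (hd : S.DataBd d R) (b : E) :
    ‖S.Phi hd b‖ ≤ R + ‖b‖ * ‖b‖ * S.K := by
  apply norm_ofNormedAddCommGroup_le
  have := S.hK0
  positivity

theorem dist_Phi_le {R : ℝ} (hd : S.DataBd d R) (b g : E) :
    dist (S.Phi hd b) (S.Phi hd g) ≤ (‖b‖ + ‖g‖) * ‖b - g‖ * S.K := by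
  have hK := S.hK0
  rw [BoundedContinuousFunction.dist_le (by positivity)]
  rintro ⟨k, t⟩
  rw [dist_eq_norm, Phi_apply, Phi_apply, ← sub_div]
  exact S.norm_div_w _ _ _ (S.norm_Ph_sub_le b g k t)

/-- Symmetry under conjugation. -/
structure Sym (d : ℤ × ℤ → ℂ) : Prop where
  lam : ∀ k, S.lam (-k) = S.lam k
  w : ∀ k t, S.w (-k) t = S.w k t
  c : ∀ k j, S.c (-k) (-j) = S.c k j
  d : ∀ k, d (-k) = (starRingEnd ℂ) (d k)

/-- Conjugation symmetric elements of a ball. -/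
def Ball (R : ℝ) : Set E :=
  {b | ‖b‖ ≤ R ∧ ∀ k t, b (-k, t) = (starRingEnd ℂ) (b (k, t))}

theorem isClosed_Ball (R : ℝ) : IsClosed (Ball R) := by
  have h1 : IsClosed {b : E | ‖b‖ ≤ R} := isClosed_le continuous_norm continuous_const
  have h2 : IsClosed {b : E | ∀ k t, b (-k, t) = (starRingEnd ℂ) (b (k, t))} := by
    have : {b : E | ∀ k t, b (-k, t) = (starRingEnd ℂ) (b (k, t))} =
        ⋂ k : ℤ × ℤ, ⋂ t : ℝ, {b : E | b (-k, t) = (starRingEnd ℂ) (b (k, t))} := by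
      ext b; simp
    rw [this]
    refine isClosed_iInter fun k => isClosed_iInter fun t => isClosed_eq ?_ ?_
    · exact continuous_eval_const (F := E) (-k, t)
    · exact Complex.continuous_conj.comp (continuous_eval_const (F := E) (k, t))
  exact h1.inter h2

theorem aa_conj {d : ℤ × ℤ → ℂ} (hs : S.Sym d) {R : ℝ} {b : E} (hb : b ∈ Ball R)
    (k : ℤ × ℤ) (t : ℝ) : S.aa b (-k) t = (starRingEnd ℂ) (S.aa b k t) := by
  unfold aa
  rw [hs.w, hb.2, map_mul, Complex.conj_ofReal]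

theorem F_conj {d : ℤ × ℤ → ℂ} (hs : S.Sym d) {R : ℝ} {b : E} (hb : b ∈ Ball R)
    (k : ℤ × ℤ) (t : ℝ) : S.F b b (-k) t = (starRingEnd ℂ) (S.F b b k t) := by
  unfold F
  rw [Complex.conj_tsum, ← (Equiv.neg (ℤ × ℤ)).tsum_eq]
  apply tsum_congr
  intro j
  have e : -k - -j = -(k - j) := by abel
  rw [Equiv.neg_apply, hs.c, e, S.aa_conj hs hb, S.aa_conj hs hb, map_mul, map_mul,
    Complex.conj_ofReal]

theorem Ph_conj {d : ℤ × ℤ → ℂ} (hs : S.Sym d) {R : ℝ} {b : E} (hb : b ∈ Ball R)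
    (k : ℤ × ℤ) (t : ℝ) : S.Ph d b (-k) t = (starRingEnd ℂ) (S.Ph d b k t) := by
  unfold Ph
  rw [map_mul, map_sub, ← intervalIntegral.intervalIntegral_conj, hs.lam, hs.d,
    Complex.conj_ofReal]
  congr 2
  apply intervalIntegral.integral_congr
  intro s _
  simp only
  rw [S.F_conj hs hb, map_mul, Complex.conj_ofReal]

theorem mapsTo_Phi {R : ℝ} (hR : 0 ≤ R) (hd : S.DataBd d R) (hs : S.Sym d)
    (hsmall : 4 * S.K * R < 1) : MapsTo (S.Phi hd) (Ball (2 * R)) (Ball (2 * R)) := by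
  intro b hb
  refine ⟨?_, ?_⟩
  · refine (S.norm_Phi_le hR hd b).trans ?_
    have h1 : ‖b‖ ≤ 2 * R := hb.1
    have h2 : ‖b‖ * ‖b‖ ≤ (2 * R) * (2 * R) := by gcongr
    have hK := S.hK0
    have h3 : ‖b‖ * ‖b‖ * S.K ≤ (2 * R) * (2 * R) * S.K := by gcongr
    nlinarith
  · intro k t
    rw [Phi_apply, Phi_apply, map_div₀, Complex.conj_ofReal, hs.w, S.Ph_conj hs hb]

/-- The fixed point. -/
theorem exists_fixed {R : ℝ} (hR : 0 ≤ R) (hd : S.DataBd d R) (hs : S.Sym d)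
    (hsmall : 4 * S.K * R < 1) : ∃ b ∈ Ball (2 * R), S.Phi hd b = b := by
  have hK := S.hK0
  set q : NNReal := ⟨4 * S.K * R, by positivity⟩ with hq
  have hmaps := S.mapsTo_Phi hR hd hs hsmall
  have hcon : ContractingWith q (hmaps.restrict (S.Phi hd) (Ball (2 * R)) (Ball (2 * R))) := by
    refine ⟨?_, ?_⟩
    · rw [← NNReal.coe_lt_coe]
      exact hsmall
    · apply LipschitzWith.of_dist_le_mul
      rintro ⟨b, hb⟩ ⟨g, hg⟩
      have h1 := S.dist_Phi_le hd b g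
      have hb1 : ‖b‖ ≤ 2 * R := hb.1
      have hg1 : ‖g‖ ≤ 2 * R := hg.1
      change dist (S.Phi hd b) (S.Phi hd g) ≤ (4 * S.K * R) * dist b g
      rw [dist_eq_norm b g]
      calc dist (S.Phi hd b) (S.Phi hd g) ≤ (‖b‖ + ‖g‖) * ‖b - g‖ * S.K := h1
        _ ≤ (2 * R + 2 * R) * ‖b - g‖ * S.K := by gcongr
        _ = (4 * S.K * R) * ‖b - g‖ := by ring
  have h0 : (0 : E) ∈ Ball (2 * R) := by
    refine ⟨by rw [norm_zero]; positivity, fun k t => by simp⟩
  obtain ⟨b, hb, hfix, -⟩ := hcon.exists_fixedPoint' (isClosed_Ball (2 * R)).isComplete hmaps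
    h0 (edist_ne_top _ _)
  exact ⟨b, hb, hfix⟩

/-- Solutions of the quadratic system. -/
theorem exists_solution {R : ℝ} (hR : 0 ≤ R) (hd : S.DataBd d R) (hs : S.Sym d)
    (hsmall : 4 * S.K * R < 1) :
    ∃ a : ℤ × ℤ → ℝ → ℂ, (∀ k, Continuous (a k)) ∧
      (∀ k t, 0 ≤ t → ‖a k t‖ ≤ 2 * R * S.w k t) ∧
      (∀ k t, a (-k) t = (starRingEnd ℂ) (a k t)) ∧
      (∀ k, a k 0 = d k) ∧
      (∀ k t, 0 ≤ t → HasDerivWithinAt (a k)
        (-(((S.lam k : ℝ) : ℂ) * a k t) -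
          ∑' j, ((S.c k j : ℝ) : ℂ) * (a j t * a (k - j) t)) (Ici 0) t) := by
  obtain ⟨b, hb, hfix⟩ := S.exists_fixed hR hd hs hsmall
  have hval : ∀ k t, S.aa b k t = S.Ph d b k t := by
    intro k t
    have h1 : b (k, t) = S.Ph d b k t / ((S.w k (max t 0) : ℝ) : ℂ) := by
      rw [← S.Phi_apply hd b k t, hfix]
    have h2 : ((S.w k (max t 0) : ℝ) : ℂ) ≠ 0 := by exact_mod_cast (S.hw k (max t 0)).ne'
    unfold aa
    rw [h1]
    field_simp
  refine ⟨S.aa b, S.continuous_aa b, ?_, ?_, ?_, ?_⟩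
  · intro k t ht
    have h1 := S.norm_aa_le b k t
    rw [max_eq_left ht] at h1
    have h2 : ‖b‖ ≤ 2 * R := hb.1
    calc ‖S.aa b k t‖ ≤ S.w k t * ‖b‖ := h1
      _ ≤ S.w k t * (2 * R) := mul_le_mul_of_nonneg_left h2 (S.hw _ _).le
      _ = _ := by ring
  · intro k t
    exact S.aa_conj hs hb k t
  · intro k
    rw [hval]
    simp [Ph]
  · intro k t ht
    set g : ℝ → ℂ := fun t => ((Real.exp (-(S.lam k * t)) : ℝ) : ℂ) *
      (d k - ∫ s in (0 : ℝ)..t, ((Real.exp (S.lam k * s) : ℝ) : ℂ) * S.F b b k s) with hg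
    have hgt : ∀ s, 0 ≤ s → S.aa b k s = g s := by
      intro s hs'
      rw [hval, Ph, max_eq_left hs']
    have d1 : HasDerivAt (fun t : ℝ => ((Real.exp (-(S.lam k * t)) : ℝ) : ℂ))
        (((Real.exp (-(S.lam k * t)) * -(S.lam k) : ℝ)) : ℂ) t := by
      apply HasDerivAt.ofReal_comp
      have h : HasDerivAt (fun t : ℝ => -(S.lam k * t)) (-(S.lam k)) t := by
        have := (hasDerivAt_id t).const_mul (S.lam k)
        simpa using this.fun_neg
      exact h.exp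
    have d2 : HasDerivAt (fun t : ℝ => ∫ s in (0 : ℝ)..t,
        ((Real.exp (S.lam k * s) : ℝ) : ℂ) * S.F b b k s)
        (((Real.exp (S.lam k * t) : ℝ) : ℂ) * S.F b b k t) t :=
      ((S.continuous_integrand b b k).integral_hasStrictDerivAt 0 t).hasDerivAt
    have d3 := d1.mul ((hasDerivAt_const t (d k)).sub d2)
    have e1 : ((Real.exp (-(S.lam k * t)) : ℝ) : ℂ) * ((Real.exp (S.lam k * t) : ℝ) : ℂ) = 1 := by
      rw [← Complex.ofReal_mul, ← Real.exp_add]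
      simp
    have d4 : HasDerivAt g (-(((S.lam k : ℝ) : ℂ) * g t) - S.F b b k t) t := by
      refine d3.congr_deriv ?_
      rw [hg]
      simp only [Pi.sub_apply, zero_sub]
      push_cast
      have e2 : ∀ x : ℂ, Complex.exp (-((S.lam k : ℂ) * t)) *
          -(Complex.exp ((S.lam k : ℂ) * t) * x) = -x := by
        intro x
        rw [mul_neg, ← mul_assoc]
        have : Complex.exp (-((S.lam k : ℂ) * t)) * Complex.exp ((S.lam k : ℂ) * t) = 1 := by
          rw [← Complex.exp_add]; simp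
        rw [this, one_mul]
      rw [e2]
      ring
    have d5 : HasDerivWithinAt (S.aa b k) (-(((S.lam k : ℝ) : ℂ) * g t) - S.F b b k t)
        (Ici 0) t :=
      d4.hasDerivWithinAt.congr (fun s hs' => hgt s hs') (hgt t ht)
    rw [hgt t ht]
    exact d5

end PicSys

end Pool.Agent.Work.MP_a2fcf1_an_h64
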