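import Pool.Agent.Work.MP_a2fcf1_an_h64.PDE
import Pool.Agent.Work.MP_a2fcf1_an_h64.Picard
import Pool.Agent.Work.MP_a2fcf1_an_h64.Estimate

/-!
# Assembly: oscillating data
-/

namespace Pool.Agent.Work.MP_a2fcf1_an_h64

open Set

namespace Par

variable (P : Par)

theorem continuous_wt (k : ℤ × ℤ) : Continuous (P.wt k) := by
  have hs : Continuous P.s := continuous_sg _ _ _
  have hX : Continuous (P.X k) := by unfold X; fun_prop
  have hY : Continuous (P.Y k) := by unfold Y; fun_prop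
  have h1 : Continuous P.e1 := by unfold e1; fun_prop
  have h2 : Continuous P.e2 := by unfold e2; fun_prop
  have hA : Continuous (P.wA k) := by
    unfold wA
    split_ifs
    · fun_prop
    · exact continuous_const
  have hB : Continuous (P.wB k) := by unfold wB; fun_prop
  unfold wt
  split_ifs
  · exact continuous_const
  · exact hA.add hB

theorem wt_neg (k : ℤ × ℤ) (t : ℝ) : P.wt (-k) t = P.wt k t := by
  have hF : Fast P.n (-k) ↔ Fast P.n k := fast_neg
  have hA : P.wA (-k) t = P.wA k t := by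
    by_cases h : Fast P.n k
    · rw [P.wA_of h, P.wA_of (hF.mpr h)]
      unfold X P7
      rw [rho_neg]
    · rw [P.wA_of_not h, P.wA_of_not (mt hF.mp h)]
  have hB : P.wB (-k) t = P.wB k t := by
    unfold wB Y Q7
    rw [n1_neg, mm_neg]
  unfold wt
  rw [hA, hB]
  simp only [neg_eq_zero]

/-- Exponential decay of the weights, uniformly in time. -/
theorem wt_le (k : ℤ × ℤ) {t : ℝ} (ht : 0 ≤ t) :
    P.wt k t ≤ 2 * Real.exp (-(P.σ / (2 * n1 P.n) * n1 k)) := by
  have hN : (1 : ℝ) ≤ n1 P.n := by exact_mod_cast one_le_n1 P.hn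
  have hσ := P.hσ
  by_cases hk : k = 0
  · subst hk
    unfold wt
    simp
  unfold wt
  rw [if_neg hk]
  have hs : P.σ / 2 ≤ P.s t := half_le_sg P.hσ _ _ _
  have hr : (n1 k : ℝ) ≤ n1 P.n * rho P.n k := by exact_mod_cast n1_le_mul_rho P.hn k
  have hr0 : (0 : ℝ) ≤ rho P.n k := Nat.cast_nonneg _
  have hk0 : (0 : ℝ) ≤ n1 k := Nat.cast_nonneg _
  have hX : P.X k t ≤ Real.exp (-(P.σ / (2 * n1 P.n) * n1 k)) := by
    unfold X
    rw [Real.exp_le_exp]
    have h1 : P.σ / (2 * n1 P.n) * n1 k ≤ P.σ / 2 * rho P.n k := by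
      rw [div_mul_eq_mul_div, div_le_iff₀ (by positivity)]
      have : P.σ * (n1 k : ℝ) ≤ P.σ * (n1 P.n * rho P.n k) := mul_le_mul_of_nonneg_left hr hσ.le
      nlinarith
    have h2 : P.σ / 2 * rho P.n k ≤ P.s t * rho P.n k := mul_le_mul_of_nonneg_right hs hr0
    linarith
  have he1 : P.e1 t ≤ 1 := by
    unfold e1
    rw [Real.exp_le_one_iff]
    have := mul_nonneg P.hμ.le ht
    linarith
  have he2 : P.e2 t ≤ 1 := by
    unfold e2
    rw [Real.exp_le_one_iff]
    have := mul_nonneg P.hν.le ht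
    linarith
  have hP7 : P.P7 k ≤ 1 := by
    unfold P7
    apply inv_le_one_of_one_le₀
    exact one_le_pow₀ (by linarith)
  have hQ7 : P.Q7 k ≤ 1 := by
    unfold Q7
    apply inv_le_one_of_one_le₀
    exact one_le_pow₀ (by linarith)
  have hm := mm_le_one P.n k
  have hm0 := mm_pos P.hn k
  have hδ := P.hδ
  have hδ1 := P.hδ1
  have e10 := P.e1_pos t
  have e20 := P.e2_pos t
  have x0 := P.X_pos k t
  have y0 := P.Y_pos k t
  have p0 := P.P7_pos k
  have q0 := P.Q7_pos k
  have hA : P.wA k t ≤ P.X k t := by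
    unfold wA
    split_ifs
    · calc P.e1 t * P.X k t * P.P7 k ≤ 1 * P.X k t * 1 := by gcongr
        _ = P.X k t := by ring
    · exact x0.le
  have hB : P.wB k t ≤ P.X k t := by
    unfold wB
    calc P.δ * P.e2 t * P.Y k t * mm P.n k * P.Q7 k ≤ 1 * 1 * P.X k t * 1 * 1 := by
          gcongr
          exact P.Y_le_X k t
      _ = P.X k t := by ring
  linarith

theorem dec_wt : Dec fun k t => ((P.wt k t : ℝ) : ℂ) := by
  have hN : (1 : ℝ) ≤ n1 P.n := by exact_mod_cast one_le_n1 P.hn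
  have hσ := P.hσ
  refine ⟨2, P.σ / (2 * n1 P.n), by positivity, by norm_num, fun k t ht => ?_⟩
  rw [Complex.norm_real, Real.norm_eq_abs, abs_of_pos (P.wt_pos _ _)]
  exact P.wt_le k ht

/-- The quadratic system of the parameters. -/
theorem exists_sys (lam : ℤ × ℤ → ℝ) (h1 : ∀ k, k ≠ 0 → P.ν ≤ lam k)
    (h2 : ∀ k, Fast P.n k → P.μ ≤ lam k) :
    ∃ S : PicSys, S.lam = lam ∧ S.w = P.wt ∧ S.c = (fun k j => sc j (k - j)) ∧ S.K = P.K0 := by
  obtain ⟨C, ε, hε, hC, h⟩ := conv_bound admC_sc P.dec_wt P.dec_wt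
  refine ⟨{ lam := lam
            w := P.wt
            c := fun k j => sc j (k - j)
            u := fun k j => C * Real.exp (-(ε * n1 k)) * Real.exp (-(ε * n1 j))
            K := P.K0
            hw := P.wt_pos
            hwc := P.continuous_wt
            hu := fun k => (summable_exp hε).mul_left _
            hcu := ?_
            hK0 := P.K0_nonneg
            hK := fun k t _ => P.main_bound (h1 k) (h2 k) t }, rfl, rfl, rfl, rfl⟩
  intro k j t ht
  have := h k j t ht
  rw [norm_mul, norm_mul, Complex.norm_real, Complex.norm_real, Complex.norm_real,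
    Real.norm_eq_abs, Real.norm_eq_abs, Real.norm_eq_abs, abs_of_pos (P.wt_pos _ _),
    abs_of_pos (P.wt_pos _ _)] at this
  exact this

end Par

/-- Global regularity from weighted coefficient bounds. -/
theorem globallyRegular_of_weights (P : Par) {κ α : ℝ} (hκ : 0 ≤ κ) (hα0 : 0 < α)
    (hα : α ≤ 1 / 2) (h1 : ∀ k, k ≠ 0 → P.ν ≤ κ * eu k ^ (2 * α))
    (h2 : ∀ k, Fast P.n k → P.μ ≤ κ * eu k ^ (2 * α))
    {d : ℤ × ℤ → ℂ} {R : ℝ} (hR : 0 ≤ R)
    (hd : ∀ k t, 0 ≤ t → Real.exp (-(κ * eu k ^ (2 * α) * t)) * ‖d k‖ ≤ R * P.wt k t)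
    (hsmall : 4 * P.K0 * R < 1) {θ₀ : ℝ × ℝ → ℝ}
    (hθ₀ : ∀ x, ((θ₀ x : ℝ) : ℂ) = ∑' k, d k * ex k x) :
    GloballyRegular κ α θ₀ := by
  obtain ⟨S, hS1, hS2, hS3, hS4⟩ := P.exists_sys (fun k => κ * eu k ^ (2 * α)) h1 h2
  have hdd : ∀ k, ‖d k‖ ≤ R * P.wt k 0 := by
    intro k
    have := hd k 0 le_rfl
    simpa using this
  have hsum : Summable fun k => ‖d k‖ := by
    have hN : (1 : ℝ) ≤ n1 P.n := by exact_mod_cast one_le_n1 P.hn
    have hσ := P.hσ
    have hε : 0 < P.σ / (2 * n1 P.n) := by positivity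
    refine Summable.of_nonneg_of_le (fun _ => norm_nonneg _) (fun k => ?_)
      ((summable_exp hε).mul_left (R * 2))
    calc ‖d k‖ ≤ R * P.wt k 0 := hdd k
      _ ≤ R * (2 * Real.exp (-(P.σ / (2 * n1 P.n) * n1 k))) :=
          mul_le_mul_of_nonneg_left (P.wt_le k le_rfl) hR
      _ = _ := by ring
  have hsymd : ∀ k, d (-k) = (starRingEnd ℂ) (d k) := by
    intro k
    rw [← fc_eq hsum hθ₀ k, ← fc_eq hsum hθ₀ (-k)]
    unfold fc
    rw [map_mul, Complex.conj_ofReal, ← intervalIntegral.intervalIntegral_conj]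
    congr 1
    apply intervalIntegral.integral_congr
    intro y _
    simp only
    rw [← intervalIntegral.intervalIntegral_conj]
    apply intervalIntegral.integral_congr
    intro z _
    simp only
    rw [map_mul, Complex.conj_ofReal, ← ex_neg]
  have hsym : S.Sym d := by
    refine ⟨fun k => ?_, fun k t => ?_, fun k j => ?_, hsymd⟩
    · rw [hS1]; simp only [eu_neg]
    · rw [hS2]; exact P.wt_neg k t
    · rw [hS3]
      have : -k - -j = -(k - j) := by abel
      simp only [this, sc_neg_neg]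
  have hdata : S.DataBd d R := by
    intro k t ht
    rw [hS1, hS2]
    exact hd k t ht
  have hsm : 4 * S.K * R < 1 := by rw [hS4]; exact hsmall
  obtain ⟨a, -, ha, hac, ha0, hode⟩ := S.exists_solution hR hdata hsym hsm
  have hdec : Dec a := by
    have hN : (1 : ℝ) ≤ n1 P.n := by exact_mod_cast one_le_n1 P.hn
    have hσ := P.hσ
    refine ⟨2 * R * 2, P.σ / (2 * n1 P.n), by positivity, by positivity, fun k t ht => ?_⟩
    have h3 := ha k t ht
    rw [hS2] at h3
    calc ‖a k t‖ ≤ 2 * R * P.wt k t := h3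
      _ ≤ 2 * R * (2 * Real.exp (-(P.σ / (2 * n1 P.n) * n1 k))) :=
          mul_le_mul_of_nonneg_left (P.wt_le k ht) (by positivity)
      _ = _ := by ring
  refine globallyRegular_of_coeffs hκ hα0 hα hdec (fun k t _ => hac k t) (fun k t ht => ?_)
    (fun x => ?_)
  · have := hode k t ht
    rw [hS1, hS3] at this
    exact this
  · rw [hθ₀ x]
    exact tsum_congr fun k => by rw [ha0]

end Pool.Agent.Work.MP_a2fcf1_an_h64
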