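import Pool.Agent.Work.MP_a2fcf1_an_h64.Defs

/-!
# Lattice norms and the SQG interaction coefficient
-/

namespace Pool.Agent.Work.MP_a2fcf1_an_h64

/-- The cross product of two frequencies. -/
def cr (j l : ℤ × ℤ) : ℤ := j.1 * l.2 - j.2 * l.1

/-- The symmetrised interaction coefficient. -/
noncomputable def sc (j l : ℤ × ℤ) : ℝ := (1 / 2) * (cr j l : ℝ) * (1 / eu j - 1 / eu l)

/-- Frequencies as complex numbers. -/
noncomputable def zc (k : ℤ × ℤ) : ℂ := ⟨(k.1 : ℝ), (k.2 : ℝ)⟩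

theorem norm_zc (k : ℤ × ℤ) : ‖zc k‖ = eu k := by
  rw [Complex.norm_def, eu, zc, Complex.normSq_mk]
  congr 1
  ring

theorem zc_add (j l : ℤ × ℤ) : zc (j + l) = zc j + zc l := by
  apply Complex.ext <;> simp [zc]

theorem zc_neg (j : ℤ × ℤ) : zc (-j) = -zc j := by
  apply Complex.ext <;> simp [zc]

theorem eu_nonneg (k : ℤ × ℤ) : 0 ≤ eu k := Real.sqrt_nonneg _

@[simp] theorem eu_neg (k : ℤ × ℤ) : eu (-k) = eu k := by
  rw [← norm_zc, zc_neg, norm_neg, norm_zc]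

@[simp] theorem eu_zero : eu 0 = 0 := by simp [eu]

theorem one_le_eu {k : ℤ × ℤ} (hk : k ≠ 0) : 1 ≤ eu k := by
  rw [eu, Real.one_le_sqrt]
  have h : (1 : ℤ) ≤ k.1 ^ 2 + k.2 ^ 2 := by
    by_contra hcon
    push Not at hcon
    have h1 : k.1 ^ 2 + k.2 ^ 2 = 0 := by nlinarith [sq_nonneg k.1, sq_nonneg k.2]
    have h2 : k.1 = 0 := by nlinarith [sq_nonneg k.1, sq_nonneg k.2]
    have h3 : k.2 = 0 := by nlinarith [sq_nonneg k.1, sq_nonneg k.2]
    exact hk (Prod.ext h2 h3)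
  exact_mod_cast h

theorem eu_pos {k : ℤ × ℤ} (hk : k ≠ 0) : 0 < eu k := lt_of_lt_of_le one_pos (one_le_eu hk)

theorem eu_add_le (j l : ℤ × ℤ) : eu (j + l) ≤ eu j + eu l := by
  rw [← norm_zc, ← norm_zc, ← norm_zc, zc_add]
  exact norm_add_le _ _

theorem abs_eu_sub_le (j l : ℤ × ℤ) : |eu j - eu l| ≤ eu (j + l) := by
  have h := abs_norm_sub_norm_le (zc j) (-zc l)
  rw [norm_neg, sub_neg_eq_add, ← zc_add, norm_zc, norm_zc, norm_zc] at h
  exact h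

theorem n1_cast (k : ℤ × ℤ) : (n1 k : ℝ) = |(k.1 : ℝ)| + |(k.2 : ℝ)| := by
  simp [n1, Nat.cast_natAbs]

theorem n1_add_le (j l : ℤ × ℤ) : n1 (j + l) ≤ n1 j + n1 l := by
  have h1 := Int.natAbs_add_le j.1 l.1
  have h2 := Int.natAbs_add_le j.2 l.2
  simp only [n1, Prod.fst_add, Prod.snd_add]
  omega

@[simp] theorem n1_neg (k : ℤ × ℤ) : n1 (-k) = n1 k := by simp [n1]

@[simp] theorem n1_zero : n1 0 = 0 := by simp [n1]

theorem n1_eq_zero {k : ℤ × ℤ} : n1 k = 0 ↔ k = 0 := by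
  constructor
  · intro h
    simp only [n1, Nat.add_eq_zero_iff, Int.natAbs_eq_zero] at h
    exact Prod.ext h.1 h.2
  · rintro rfl; simp

theorem one_le_n1 {k : ℤ × ℤ} (hk : k ≠ 0) : 1 ≤ n1 k :=
  Nat.one_le_iff_ne_zero.mpr (fun h => hk (n1_eq_zero.mp h))

theorem n1_smul (m : ℤ) (k : ℤ × ℤ) : n1 (m • k) = m.natAbs * n1 k := by
  simp [n1, Int.natAbs_mul, mul_add]

theorem eu_le_n1 (k : ℤ × ℤ) : eu k ≤ n1 k := by
  rw [n1_cast, eu]
  apply Real.sqrt_le_iff.mpr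
  refine ⟨by positivity, ?_⟩
  nlinarith [sq_abs (k.1 : ℝ), sq_abs (k.2 : ℝ), abs_nonneg (k.1 : ℝ), abs_nonneg (k.2 : ℝ),
    mul_nonneg (abs_nonneg (k.1 : ℝ)) (abs_nonneg (k.2 : ℝ))]

theorem n1_le_two_eu (k : ℤ × ℤ) : (n1 k : ℝ) ≤ 2 * eu k := by
  rw [n1_cast, eu]
  have h1 : |(k.1 : ℝ)| ≤ Real.sqrt ((k.1 : ℝ) ^ 2 + (k.2 : ℝ) ^ 2) := by
    apply Real.abs_le_sqrt
    nlinarith [sq_nonneg (k.2 : ℝ)]
  have h2 : |(k.2 : ℝ)| ≤ Real.sqrt ((k.1 : ℝ) ^ 2 + (k.2 : ℝ) ^ 2) := by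
    apply Real.abs_le_sqrt
    nlinarith [sq_nonneg (k.1 : ℝ)]
  linarith

theorem abs_cr_le_eu (j l : ℤ × ℤ) : |(cr j l : ℝ)| ≤ eu j * eu l := by
  have h : (cr j l : ℝ) = ((starRingEnd ℂ) (zc j) * zc l).im := by
    simp [cr, zc, Complex.mul_im]
    ring
  rw [h, ← norm_zc, ← norm_zc]
  calc |((starRingEnd ℂ) (zc j) * zc l).im| ≤ ‖(starRingEnd ℂ) (zc j) * zc l‖ :=
        Complex.abs_im_le_norm _
    _ = ‖zc j‖ * ‖zc l‖ := by rw [norm_mul, Complex.norm_conj]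

theorem abs_cr_le_n1 (j l : ℤ × ℤ) : |(cr j l : ℝ)| ≤ n1 j * n1 l :=
  (abs_cr_le_eu j l).trans
    (mul_le_mul (eu_le_n1 j) (eu_le_n1 l) (eu_nonneg l) (Nat.cast_nonneg _))

theorem cr_add_left (a b l : ℤ × ℤ) : cr (a + b) l = cr a l + cr b l := by
  simp [cr]; ring

theorem cr_add_right (a b l : ℤ × ℤ) : cr l (a + b) = cr l a + cr l b := by
  simp [cr]; ring

@[simp] theorem cr_self (a : ℤ × ℤ) : cr a a = 0 := by simp [cr]; ring

@[simp] theorem cr_zero_left (a : ℤ × ℤ) : cr 0 a = 0 := by simp [cr]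

@[simp] theorem cr_zero_right (a : ℤ × ℤ) : cr a 0 = 0 := by simp [cr]

theorem cr_swap (a b : ℤ × ℤ) : cr b a = -cr a b := by simp [cr]; ring

theorem cr_smul_left (m : ℤ) (a b : ℤ × ℤ) : cr (m • a) b = m * cr a b := by
  simp [cr]; ring

theorem cr_smul_right (m : ℤ) (a b : ℤ × ℤ) : cr a (m • b) = m * cr a b := by
  simp [cr]; ring

@[simp] theorem cr_neg_left (a b : ℤ × ℤ) : cr (-a) b = -cr a b := by
  simp [cr]; ring

@[simp] theorem cr_neg_right (a b : ℤ × ℤ) : cr a (-b) = -cr a b := by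
  simp [cr]; ring

theorem sc_comm (j l : ℤ × ℤ) : sc l j = sc j l := by
  rw [sc, sc, cr_swap]; push_cast; ring

@[simp] theorem sc_neg_neg (j l : ℤ × ℤ) : sc (-j) (-l) = sc j l := by
  simp [sc]

@[simp] theorem sc_zero_left (l : ℤ × ℤ) : sc 0 l = 0 := by simp [sc]

@[simp] theorem sc_zero_right (l : ℤ × ℤ) : sc l 0 = 0 := by simp [sc]

@[simp] theorem sc_neg_self (j : ℤ × ℤ) : sc j (-j) = 0 := by simp [sc]

theorem sc_zero_sub (j : ℤ × ℤ) : sc j (0 - j) = 0 := by simp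

/-- Bound by the larger inverse length. -/
theorem abs_sc_le_max {j l : ℤ × ℤ} :
    |sc j l| ≤ (1 / 2) * |(cr j l : ℝ)| * max (1 / eu j) (1 / eu l) := by
  rw [sc, abs_mul, abs_mul, abs_of_pos (by norm_num : (0 : ℝ) < 1 / 2)]
  apply mul_le_mul_of_nonneg_left _ (by positivity)
  have hj : 0 ≤ 1 / eu j := div_nonneg zero_le_one (eu_nonneg j)
  have hl : 0 ≤ 1 / eu l := div_nonneg zero_le_one (eu_nonneg l)
  rw [abs_le]
  constructor
  · have := le_max_right (1 / eu j) (1 / eu l)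
    linarith
  · have := le_max_left (1 / eu j) (1 / eu l)
    linarith

/-- The cancellation bound. -/
theorem abs_sc_mul_le {j l : ℤ × ℤ} (hj : j ≠ 0) (hl : l ≠ 0) :
    |sc j l| * eu j ≤ eu (j + l) ^ 2 / 2 := by
  have pj := eu_pos hj
  have pl := eu_pos hl
  have h1 : |(cr j l : ℝ)| ≤ eu (j + l) * eu l := by
    have h := abs_cr_le_eu (j + l) l
    rwa [cr_add_left, cr_self, add_zero] at h
  have h2 : |1 / eu j - 1 / eu l| = |eu j - eu l| / (eu j * eu l) := by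
    have h3 : 1 / eu j - 1 / eu l = (eu l - eu j) / (eu j * eu l) := by
      field_simp
    rw [h3, abs_div, abs_of_pos (mul_pos pj pl), abs_sub_comm]
  have h4 := abs_eu_sub_le j l
  have h5 : |sc j l| * eu j = (1 / 2) * |(cr j l : ℝ)| * (|eu j - eu l| / eu l) := by
    rw [sc, abs_mul, abs_mul, abs_of_pos (by norm_num : (0 : ℝ) < 1 / 2), h2]
    field_simp
  rw [h5]
  have h6 : |eu j - eu l| / eu l ≤ eu (j + l) / eu l := by gcongr
  calc (1 / 2) * |(cr j l : ℝ)| * (|eu j - eu l| / eu l)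
      ≤ (1 / 2) * (eu (j + l) * eu l) * (eu (j + l) / eu l) := by
        gcongr
        exact mul_nonneg (by norm_num) (mul_nonneg (eu_nonneg _) pl.le)
    _ = eu (j + l) ^ 2 / 2 := by field_simp

theorem abs_sc_mul_le' {j l : ℤ × ℤ} (hj : j ≠ 0) (hl : l ≠ 0) :
    |sc j l| * eu l ≤ eu (j + l) ^ 2 / 2 := by
  rw [← sc_comm, add_comm j l]
  exact abs_sc_mul_le hl hj

/-- The interaction coefficient is at most the length of the output. -/
theorem abs_sc_le_eu (j l : ℤ × ℤ) : |sc j l| ≤ eu (j + l) := by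
  by_cases hj : j = 0
  · subst hj; simp [eu_nonneg]
  by_cases hl : l = 0
  · subst hl; simp [eu_nonneg]
  have h1 := abs_sc_mul_le hj hl
  have h2 := abs_sc_mul_le' hj hl
  have h3 := eu_add_le j l
  have h4 : |sc j l| * eu (j + l) ≤ eu (j + l) * eu (j + l) := by
    have : |sc j l| * eu (j + l) ≤ |sc j l| * (eu j + eu l) :=
      mul_le_mul_of_nonneg_left h3 (abs_nonneg _)
    nlinarith
  by_cases h5 : j + l = 0
  · have : l = -j := (neg_eq_of_add_eq_zero_right h5).symm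
    subst this; simp
  · exact le_of_mul_le_mul_right h4 (eu_pos h5)

theorem abs_sc_le_add (j l : ℤ × ℤ) : |sc j l| ≤ n1 j + n1 l := by
  refine (abs_sc_le_eu j l).trans ((eu_le_n1 _).trans ?_)
  exact_mod_cast n1_add_le j l

end Pool.Agent.Work.MP_a2fcf1_an_h64
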