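import Pool.Agent.Work.MP_a2fcf1_an_h64.Assembly

/-!
# Coefficient bounds for oscillating data
-/

namespace Pool.Agent.Work.MP_a2fcf1_an_h64

open Set

/-- The constant comparing exponentials and seventh powers. -/
noncomputable def C7 (η : ℝ) : ℝ := 5040 * Real.exp η / η ^ 7

theorem C7_pos {η : ℝ} (h : 0 < η) : 0 < C7 η := by unfold C7; positivity

theorem exp_le_C7 {η x : ℝ} (hη : 0 < η) (hx : 0 ≤ x) :
    Real.exp (-(η * x)) ≤ C7 η * ((1 + x) ^ 7)⁻¹ := by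
  have h1 := Real.pow_div_factorial_le_exp (x := η * (1 + x)) (by positivity) 7
  have h2 : Real.exp (η * (1 + x)) = Real.exp η * Real.exp (η * x) := by
    rw [← Real.exp_add]; congr 1; ring
  have h3 : ((7 : ℕ).factorial : ℝ) = 5040 := by norm_num [Nat.factorial]
  rw [h2, h3, div_le_iff₀ (by norm_num), mul_pow] at h1
  have h4 : (1 + x) ^ 7 ≤ C7 η * Real.exp (η * x) := by
    unfold C7
    rw [div_mul_eq_mul_div, le_div_iff₀ (by positivity)]
    linarith
  rw [← div_eq_mul_inv, le_div_iff₀ (by positivity)]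
  calc Real.exp (-(η * x)) * (1 + x) ^ 7
      ≤ Real.exp (-(η * x)) * (C7 η * Real.exp (η * x)) :=
        mul_le_mul_of_nonneg_left h4 (Real.exp_pos _).le
    _ = C7 η * (Real.exp (-(η * x)) * Real.exp (η * x)) := by ring
    _ = C7 η := by rw [← Real.exp_add]; simp

theorem summable_exp1 {ε : ℝ} (hε : 0 < ε) :
    Summable fun z : ℤ => Real.exp (-(ε * |(z : ℝ)|)) := by
  have h : Summable fun n : ℕ => Real.exp (n * (-ε)) :=
    Real.summable_exp_nat_mul_iff.mpr (by linarith)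
  apply Summable.of_nat_of_neg
  · refine h.congr fun n => ?_
    simp; ring_nf
  · refine h.congr fun n => ?_
    simp; ring_nf

/-- One-dimensional exponential sum. -/
noncomputable def Sm (ε : ℝ) : ℝ := ∑' z : ℤ, Real.exp (-(ε * |(z : ℝ)|))

theorem Sm_nonneg (ε : ℝ) : 0 ≤ Sm ε := tsum_nonneg fun _ => (Real.exp_pos _).le

/-- The word length dominates. -/
theorem split1 {s : ℝ} (hs : 0 < s) (n k : ℤ × ℤ) (m : ℤ) :
    Real.exp (-(s * (n1 (k - m • n) + |(m : ℝ)|))) ≤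
      Real.exp (-(3 / 4 * s * rho n k)) * Real.exp (-(s / 8 * |(m : ℝ)|)) := by
  rw [← Real.exp_add, Real.exp_le_exp]
  have h1 : (rho n k : ℝ) ≤ n1 (k - m • n) + |(m : ℝ)| := by
    have := rho_le n k m
    have h2 : (rho n k : ℝ) ≤ n1 (k - m • n) + (m.natAbs : ℝ) := by exact_mod_cast this
    rwa [Nat.cast_natAbs, Int.cast_abs] at h2
  have h2 : (0 : ℝ) ≤ n1 (k - m • n) := Nat.cast_nonneg _
  have h3 := abs_nonneg (m : ℝ)
  have h4 : s * (rho n k : ℝ) ≤ s * (n1 (k - m • n) + |(m : ℝ)|) :=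
    mul_le_mul_of_nonneg_left h1 hs.le
  have h5 : 0 ≤ s * (n1 (k - m • n) : ℝ) := by positivity
  have h6 : 0 ≤ s * |(m : ℝ)| := by positivity
  nlinarith

/-- At slow frequencies, nonzero carrier steps are expensive. -/
theorem split2 {s : ℝ} (hs : 0 < s) {n k : ℤ × ℤ} (hk : ¬ Fast n k) {m : ℤ} (hm : m ≠ 0) :
    Real.exp (-(s * (n1 (k - m • n) + |(m : ℝ)|))) ≤
      Real.exp (-(3 / 4 * s * n1 k)) * Real.exp (-(s / 16 * n1 n)) *
        Real.exp (-(s / 8 * |(m : ℝ)|)) := by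
  rw [← Real.exp_add, ← Real.exp_add, Real.exp_le_exp]
  have hr := not_fast_iff.mp hk
  have h0 := rho_le n k m
  rw [hr] at h0
  have h1 : n1 (m • n) ≤ n1 k + n1 (k - m • n) := by
    have := n1_sub_le k (k - m • n)
    rwa [sub_sub_cancel] at this
  rw [n1_smul] at h1
  have h2 : 1 ≤ m.natAbs := Nat.one_le_iff_ne_zero.mpr (Int.natAbs_ne_zero.mpr hm)
  have h3 : n1 n ≤ m.natAbs * n1 n := Nat.le_mul_of_pos_left _ h2
  have h4 : n1 n ≤ 2 * (n1 (k - m • n) + m.natAbs) := by omega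
  have c0 : (n1 k : ℝ) ≤ n1 (k - m • n) + |(m : ℝ)| := by
    have h5 : (n1 k : ℝ) ≤ n1 (k - m • n) + (m.natAbs : ℝ) := by exact_mod_cast h0
    rwa [Nat.cast_natAbs, Int.cast_abs] at h5
  have c4 : (n1 n : ℝ) ≤ 2 * (n1 (k - m • n) + |(m : ℝ)|) := by
    have h5 : (n1 n : ℝ) ≤ 2 * (n1 (k - m • n) + (m.natAbs : ℝ)) := by exact_mod_cast h4
    rwa [Nat.cast_natAbs, Int.cast_abs] at h5
  have c1 : s * (n1 k : ℝ) ≤ s * (n1 (k - m • n) + |(m : ℝ)|) :=
    mul_le_mul_of_nonneg_left c0 hs.le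
  have c2 : s * (n1 n : ℝ) ≤ s * (2 * (n1 (k - m • n) + |(m : ℝ)|)) :=
    mul_le_mul_of_nonneg_left c4 hs.le
  have c3 : 0 ≤ s * (n1 (k - m • n) : ℝ) := by positivity
  nlinarith

/-- The Fourier coefficients of oscillating data. -/
noncomputable def dcoef (n : ℤ × ℤ) (g : ℤ × ℤ → ℤ → ℂ) (k : ℤ × ℤ) : ℂ :=
  ∑' m : ℤ, g (k - m • n) m

theorem dcoef_le {s A : ℝ} (hs : 0 < s) {n : ℤ × ℤ} {g : ℤ × ℤ → ℤ → ℂ} (hA : 0 ≤ A)
    (hg : ∀ p m, ‖g p m‖ ≤ A * Real.exp (-(s * (n1 p + |(m : ℝ)|)))) (k : ℤ × ℤ) :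
    ‖dcoef n g k‖ ≤ A * Sm (s / 8) * Real.exp (-(3 / 4 * s * rho n k)) := by
  have hb : ∀ m : ℤ, ‖g (k - m • n) m‖ ≤
      (A * Real.exp (-(3 / 4 * s * rho n k))) * Real.exp (-(s / 8 * |(m : ℝ)|)) := by
    intro m
    refine (hg _ m).trans ?_
    rw [mul_assoc]
    exact mul_le_mul_of_nonneg_left (split1 hs n k m) hA
  have hsum := (summable_exp1 (by positivity : 0 < s / 8)).mul_left
    (A * Real.exp (-(3 / 4 * s * rho n k)))
  have := tsum_of_norm_bounded hsum.hasSum hb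
  rw [tsum_mul_left] at this
  calc ‖dcoef n g k‖ ≤ A * Real.exp (-(3 / 4 * s * rho n k)) * Sm (s / 8) := this
    _ = _ := by ring

theorem dcoef_slow_le {s A A0 : ℝ} (hs : 0 < s) {n : ℤ × ℤ} {g : ℤ × ℤ → ℤ → ℂ} (hA : 0 ≤ A)
    (hA0 : 0 ≤ A0)
    (hg : ∀ p m, m ≠ 0 → ‖g p m‖ ≤ A * Real.exp (-(s * (n1 p + |(m : ℝ)|))))
    (hg0 : ∀ p, ‖g p 0‖ ≤ A0 * Real.exp (-(s * n1 p))) {k : ℤ × ℤ} (hk : ¬ Fast n k) :
    ‖dcoef n g k‖ ≤ (A0 + A * Real.exp (-(s / 16 * n1 n)) * Sm (s / 8)) *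
      Real.exp (-(3 / 4 * s * n1 k)) := by
  set E := Real.exp (-(3 / 4 * s * n1 k)) with hE
  have hE0 : 0 < E := Real.exp_pos _
  have hb : ∀ m : ℤ, ‖g (k - m • n) m‖ ≤
      (if m = 0 then A0 * E else 0) +
        (A * Real.exp (-(s / 16 * n1 n)) * E) * Real.exp (-(s / 8 * |(m : ℝ)|)) := by
    intro m
    by_cases hm : m = 0
    · subst hm
      rw [if_pos rfl]
      have h1 := hg0 (k - (0 : ℤ) • n)
      rw [zero_smul, sub_zero] at h1
      rw [zero_smul, sub_zero]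
      have h2 : Real.exp (-(s * n1 k)) ≤ E := by
        rw [hE, Real.exp_le_exp]
        have : (0 : ℝ) ≤ n1 k := Nat.cast_nonneg _
        nlinarith
      have h3 : 0 ≤ (A * Real.exp (-(s / 16 * n1 n)) * E) *
          Real.exp (-(s / 8 * |((0 : ℤ) : ℝ)|)) := by positivity
      calc ‖g k 0‖ ≤ A0 * Real.exp (-(s * n1 k)) := h1
        _ ≤ A0 * E := mul_le_mul_of_nonneg_left h2 hA0
        _ ≤ _ := by linarith
    · rw [if_neg hm, zero_add]
      refine (hg _ m hm).trans ?_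
      calc A * Real.exp (-(s * (n1 (k - m • n) + |(m : ℝ)|)))
          ≤ A * (E * Real.exp (-(s / 16 * n1 n)) * Real.exp (-(s / 8 * |(m : ℝ)|))) :=
            mul_le_mul_of_nonneg_left (split2 hs hk hm) hA
        _ = _ := by ring
  have hsum := (summable_exp1 (by positivity : 0 < s / 8)).mul_left
    (A * Real.exp (-(s / 16 * n1 n)) * E)
  have h0 := hasSum_ite_eq (0 : ℤ) (A0 * E)
  have h := tsum_of_norm_bounded (h0.add hsum.hasSum) hb
  rw [tsum_mul_left] at h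
  calc ‖dcoef n g k‖ ≤ A0 * E + A * Real.exp (-(s / 16 * n1 n)) * E * Sm (s / 8) := h
    _ = _ := by ring

/-- Resummation of the data. -/
theorem tsum_dcoef {s A : ℝ} (hs : 0 < s) {n : ℤ × ℤ} {g : ℤ × ℤ → ℤ → ℂ}
    (hg : ∀ p m, ‖g p m‖ ≤ A * Real.exp (-(s * (n1 p + |(m : ℝ)|)))) (x : ℝ × ℝ) :
    ∑' q : (ℤ × ℤ) × ℤ, g q.1 q.2 * ex (q.1 + q.2 • n) x = ∑' k, dcoef n g k * ex k x := by
  have hs1 : Summable fun q : (ℤ × ℤ) × ℤ => g q.1 q.2 * ex (q.1 + q.2 • n) x := by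
    have h1 := ((summable_exp hs).mul_of_nonneg (summable_exp1 hs)
      (fun _ => (Real.exp_pos _).le) (fun _ => (Real.exp_pos _).le)).mul_left A
    apply Summable.of_norm_bounded h1
    intro q
    rw [norm_mul, norm_ex, mul_one]
    refine (hg q.1 q.2).trans (le_of_eq ?_)
    rw [← Real.exp_add]
    congr 2
    ring
  set e : (ℤ × ℤ) × ℤ ≃ (ℤ × ℤ) × ℤ :=
    { toFun := fun p => (p.1 - p.2 • n, p.2)
      invFun := fun p => (p.1 + p.2 • n, p.2)
      left_inv := fun p => by simp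
      right_inv := fun p => by simp } with he
  have h2 : Summable fun p : (ℤ × ℤ) × ℤ => g (p.1 - p.2 • n) p.2 * ex p.1 x := by
    have := (e.summable_iff (f := fun q : (ℤ × ℤ) × ℤ =>
      g q.1 q.2 * ex (q.1 + q.2 • n) x)).mpr hs1
    refine this.congr fun p => ?_
    simp [he]
  have h3 : ∑' p : (ℤ × ℤ) × ℤ, g (p.1 - p.2 • n) p.2 * ex p.1 x =
      ∑' q : (ℤ × ℤ) × ℤ, g q.1 q.2 * ex (q.1 + q.2 • n) x := by
    rw [← e.tsum_eq (fun q : (ℤ × ℤ) × ℤ => g q.1 q.2 * ex (q.1 + q.2 • n) x)]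
    apply tsum_congr
    intro p
    simp [he]
  rw [← h3, h2.tsum_prod]
  apply tsum_congr
  intro k
  unfold dcoef
  change ∑' m : ℤ, g (k - m • n) m * ex k x = (∑' m : ℤ, g (k - m • n) m) * ex k x
  rw [tsum_mul_right]

/-- Data bound at fast frequencies. -/
theorem fast_case (P : Par) {k : ℤ × ℤ} (hk : k ≠ 0) {lam t s R A S8 : ℝ} {z : ℂ}
    (hlam : P.μ ≤ lam) (hF : Fast P.n k) (hs : 0 < s) (ht : 0 ≤ t) (hst : P.s t ≤ s / 2)
    (hR0 : 0 ≤ R) (hA0 : 0 ≤ A) (hS0 : 0 ≤ S8)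
    (h1 : ‖z‖ ≤ A * S8 * Real.exp (-(3 / 4 * s * rho P.n k)))
    (key2 : A * S8 * C7 (s / 4) ≤ R) :
    Real.exp (-(lam * t)) * ‖z‖ ≤ R * P.wt k t := by
  have hT0 : 0 < C7 (s / 4) := C7_pos (by positivity)
  have h2 : Real.exp (-(lam * t)) ≤ P.e1 t := by
    unfold Par.e1
    rw [Real.exp_le_exp]
    have h3 := mul_le_mul_of_nonneg_right hlam ht
    have h4 := mul_nonneg P.hμ.le ht
    linarith
  have hr0 : (0 : ℝ) ≤ rho P.n k := Nat.cast_nonneg _
  have h3 : Real.exp (-(3 / 4 * s * rho P.n k)) ≤ P.X k t * (C7 (s / 4) * P.P7 k) := by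
    have e : Real.exp (-(3 / 4 * s * rho P.n k)) =
        Real.exp (-(s / 2 * rho P.n k)) * Real.exp (-(s / 4 * rho P.n k)) := by
      rw [← Real.exp_add]; congr 1; ring
    rw [e]
    apply mul_le_mul _ (exp_le_C7 (by positivity) hr0) (Real.exp_pos _).le
      (P.X_pos k t).le
    unfold Par.X
    rw [Real.exp_le_exp]
    have := mul_le_mul_of_nonneg_right hst hr0
    linarith
  have e1 := P.e1_pos t
  have x1 := P.X_pos k t
  have p7 := P.P7_pos k
  have hwB := (P.wB_pos k t).le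
  have hwt : P.wt k t = P.wA k t + P.wB k t := by unfold Par.wt; rw [if_neg hk]
  have hwA : P.wA k t = P.e1 t * P.X k t * P.P7 k := P.wA_of hF t
  rw [hwt, hwA]
  calc Real.exp (-(lam * t)) * ‖z‖
      ≤ P.e1 t * (A * S8 * (P.X k t * (C7 (s / 4) * P.P7 k))) := by
        apply mul_le_mul h2 _ (norm_nonneg _) e1.le
        exact h1.trans (mul_le_mul_of_nonneg_left h3 (by positivity))
    _ = (A * S8 * C7 (s / 4)) * (P.e1 t * P.X k t * P.P7 k) := by ring
    _ ≤ R * (P.e1 t * P.X k t * P.P7 k) := mul_le_mul_of_nonneg_right key2 (by positivity)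
    _ ≤ R * (P.e1 t * P.X k t * P.P7 k + P.wB k t) := by
        apply mul_le_mul_of_nonneg_left _ hR0
        linarith

/-- Data bound at slow frequencies. -/
theorem slow_case (P : Par) {k : ℤ × ℤ} (hk : k ≠ 0) {lam t s R A : ℝ} {z : ℂ}
    (hlam : P.ν ≤ lam) (hs : 0 < s) (ht : 0 ≤ t) (hst : P.s t ≤ s / 2)
    (hR0 : 0 ≤ R) (hA0 : 0 ≤ A)
    (h1 : ‖z‖ ≤ A * Real.exp (-(3 / 4 * s * n1 k)))
    (key3 : A * C7 (s / 4) ≤ R * P.δ * (1 / n1 P.n)) :
    Real.exp (-(lam * t)) * ‖z‖ ≤ R * P.wt k t := by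
  have hT0 : 0 < C7 (s / 4) := C7_pos (by positivity)
  have h2 : Real.exp (-(lam * t)) ≤ P.e2 t := by
    unfold Par.e2
    rw [Real.exp_le_exp]
    have h3 := mul_le_mul_of_nonneg_right hlam ht
    have h4 := mul_nonneg P.hν.le ht
    linarith
  have hq0 : (0 : ℝ) ≤ n1 k := Nat.cast_nonneg _
  have h3 : Real.exp (-(3 / 4 * s * n1 k)) ≤ P.Y k t * (C7 (s / 4) * P.Q7 k) := by
    have e : Real.exp (-(3 / 4 * s * n1 k)) =
        Real.exp (-(s / 2 * n1 k)) * Real.exp (-(s / 4 * n1 k)) := by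
      rw [← Real.exp_add]; congr 1; ring
    rw [e]
    apply mul_le_mul _ (exp_le_C7 (by positivity) hq0) (Real.exp_pos _).le
      (P.Y_pos k t).le
    unfold Par.Y
    rw [Real.exp_le_exp]
    have := mul_le_mul_of_nonneg_right hst hq0
    linarith
  have e2 := P.e2_pos t
  have y1 := P.Y_pos k t
  have q7 := P.Q7_pos k
  have hδ := P.hδ
  have hmm : 1 / (n1 P.n : ℝ) ≤ mm P.n k := inv_le_mm P.hn k
  have hwA := P.wA_nonneg k t
  have hwt : P.wt k t = P.wA k t + P.wB k t := by unfold Par.wt; rw [if_neg hk]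
  rw [hwt]
  calc Real.exp (-(lam * t)) * ‖z‖
      ≤ P.e2 t * (A * (P.Y k t * (C7 (s / 4) * P.Q7 k))) := by
        apply mul_le_mul h2 _ (norm_nonneg _) e2.le
        exact h1.trans (mul_le_mul_of_nonneg_left h3 hA0)
    _ = (A * C7 (s / 4)) * (P.e2 t * P.Y k t * P.Q7 k) := by ring
    _ ≤ (R * P.δ * (1 / n1 P.n)) * (P.e2 t * P.Y k t * P.Q7 k) :=
        mul_le_mul_of_nonneg_right key3 (by positivity)
    _ ≤ (R * P.δ * mm P.n k) * (P.e2 t * P.Y k t * P.Q7 k) := by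
        apply mul_le_mul_of_nonneg_right _ (by positivity)
        exact mul_le_mul_of_nonneg_left hmm (by positivity)
    _ = R * P.wB k t := by
        unfold Par.wB
        ring
    _ ≤ R * (P.wA k t + P.wB k t) := by
        apply mul_le_mul_of_nonneg_left _ hR0
        linarith

/-- **Large oscillating data.** -/
theorem oscillating {s : ℝ} (hs : 0 < s) : ∃ c : ℝ, 0 < c ∧
    ∀ (κ α : ℝ) (n : ℤ × ℤ) (g : ℤ × ℤ → ℤ → ℂ) (θ₀ : ℝ × ℝ → ℝ),
      0 < κ → 0 < α → α ≤ 1 / 2 → n ≠ 0 →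
      (∀ p m, m ≠ 0 → ‖g p m‖ ≤
        c * κ * (n1 n : ℝ) ^ α * Real.exp (-(s * (n1 p + |(m : ℝ)|)))) →
      (∀ p, ‖g p 0‖ ≤ c * κ / n1 n * Real.exp (-(s * n1 p))) →
      (∀ x, ((θ₀ x : ℝ) : ℂ) = ∑' q : (ℤ × ℤ) × ℤ, g q.1 q.2 * ex (q.1 + q.2 • n) x) →
      GloballyRegular κ α θ₀ := by
  set T := C7 (s / 4) with hT
  set T' := C7 (s / 16) with hT'
  set S8 := Sm (s / 8) with hS8
  have hT0 : 0 < T := C7_pos (by positivity)
  have hT'0 : 0 < T' := C7_pos (by positivity)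
  have hS0 : 0 ≤ S8 := Sm_nonneg _
  have hZ := Z6_nonneg
  set B := 2 * S8 * T + T * (1 + T' * S8) + 2 * S8 with hB
  have hB0 : 0 < B := by positivity
  set c2 := s / (262144 * (Z6 + 1)) with hc2
  have hc20 : 0 < c2 := by positivity
  refine ⟨c2 / B, by positivity, ?_⟩
  intro κ α n g θ₀ hκ hα0 hα hn hg hg0 hθ
  set c := c2 / B with hc
  have hc0 : 0 < c := by positivity
  have hcB : c * B = c2 := by rw [hc]; field_simp
  set N : ℝ := (n1 n : ℝ) with hN
  have hN1 : 1 ≤ N := by rw [hN]; exact_mod_cast one_le_n1 hn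
  have hN0 : 0 < N := by linarith
  set Na := N ^ α with hNa
  have hNa0 : 0 < Na := Real.rpow_pos_of_pos hN0 α
  have hNa1 : 1 ≤ Na := Real.one_le_rpow hN1 hα0.le
  have hNaN : Na ≤ N := by
    have : N ^ α ≤ N ^ (1 : ℝ) := Real.rpow_le_rpow_of_exponent_le hN1 (by linarith)
    rwa [Real.rpow_one] at this
  set D := max 1 (Na / 2) with hD
  have hD1 : 1 ≤ D := le_max_left _ _
  have hD0 : 0 < D := by linarith
  have hDN : Na ≤ 2 * D := by
    have : Na / 2 ≤ D := le_max_right _ _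
    linarith
  let P : Par :=
    { n := n, ν := κ, δ := 1 / D, σ := s / 2, hn := hn, hν := hκ, hδ := by positivity,
      hδ1 := by rw [div_le_one hD0]; exact hD1, hσ := by positivity }
  have hPn : P.n = n := rfl
  have hPν : P.ν = κ := rfl
  have hPδ : P.δ = 1 / D := rfl
  have hPσ : P.σ = s / 2 := rfl
  have hPμ : P.μ = κ * D ^ 2 := by
    unfold Par.μ
    rw [hPν, hPδ]
    field_simp
  -- damping bounds
  have lam1 : ∀ k : ℤ × ℤ, k ≠ 0 → P.ν ≤ κ * eu k ^ (2 * α) := by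
    intro k hk
    rw [hPν]
    have : 1 ≤ eu k ^ (2 * α) := Real.one_le_rpow (one_le_eu hk) (by linarith)
    nlinarith
  have lam2 : ∀ k, Fast P.n k → P.μ ≤ κ * eu k ^ (2 * α) := by
    intro k hk
    rw [hPμ]
    apply mul_le_mul_of_nonneg_left _ hκ.le
    have hk0 := hk.ne_zero
    have he1 := one_le_eu hk0
    have he0 : 0 ≤ eu k := by linarith
    have hDk : D ≤ eu k ^ α := by
      rw [hD]
      apply max_le (Real.one_le_rpow he1 hα0.le)
      have h4 : N ≤ 4 * eu k := by rw [hN]; exact hk.le_eu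
      have h5 : Na ≤ (4 * eu k) ^ α := Real.rpow_le_rpow hN0.le h4 hα0.le
      rw [Real.mul_rpow (by norm_num) he0] at h5
      have h6 : (4 : ℝ) ^ α ≤ 2 := by
        have h7 : (4 : ℝ) ^ α ≤ (4 : ℝ) ^ (1 / 2 : ℝ) :=
          Real.rpow_le_rpow_of_exponent_le (by norm_num) hα
        have h8 : (4 : ℝ) ^ (1 / 2 : ℝ) = 2 := by
          rw [← Real.sqrt_eq_rpow]
          rw [show (4 : ℝ) = 2 ^ 2 by norm_num, Real.sqrt_sq (by norm_num)]
        linarith
      have h9 : 0 ≤ eu k ^ α := Real.rpow_nonneg he0 α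
      nlinarith
    have e : eu k ^ (2 * α) = (eu k ^ α) ^ 2 := by
      rw [← Real.rpow_natCast, ← Real.rpow_mul he0]
      congr 1
      push_cast
      ring
    rw [e]
    gcongr
  set A := c * κ * Na with hA
  have hA0 : 0 < A := by positivity
  set A0 := c * κ / N with hA0'
  have hA00 : 0 < A0 := by positivity
  have hA0A : A0 ≤ A := by
    rw [hA0', hA]
    calc c * κ / N ≤ c * κ / 1 := by gcongr
      _ = c * κ * 1 := by ring
      _ ≤ c * κ * Na := by gcongr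
  have hgall : ∀ p m, ‖g p m‖ ≤ A * Real.exp (-(s * (n1 p + |(m : ℝ)|))) := by
    intro p m
    by_cases hm : m = 0
    · subst hm
      refine (hg0 p).trans ?_
      simp only [Int.cast_zero, abs_zero, add_zero]
      exact mul_le_mul_of_nonneg_right hA0A (Real.exp_pos _).le
    · exact hg p m hm
  set R := c2 * κ * D with hR
  have hR0 : 0 < R := by positivity
  have key1 : A * S8 ≤ R := by
    have h1 : c * (2 * S8) ≤ c2 := by
      rw [← hcB]
      apply mul_le_mul_of_nonneg_left _ hc0.le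
      rw [hB]
      have : 0 ≤ 2 * S8 * T + T * (1 + T' * S8) := by positivity
      linarith
    calc A * S8 = c * κ * S8 * Na := by rw [hA]; ring
      _ ≤ c * κ * S8 * (2 * D) := by gcongr
      _ = c * (2 * S8) * (κ * D) := by ring
      _ ≤ c2 * (κ * D) := by gcongr
      _ = R := by rw [hR]; ring
  have key2 : A * S8 * T ≤ R := by
    have h1 : c * (2 * S8 * T) ≤ c2 := by
      rw [← hcB]
      apply mul_le_mul_of_nonneg_left _ hc0.le
      rw [hB]
      have : 0 ≤ T * (1 + T' * S8) + 2 * S8 := by positivity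
      linarith
    calc A * S8 * T = c * κ * S8 * T * Na := by rw [hA]; ring
      _ ≤ c * κ * S8 * T * (2 * D) := by gcongr
      _ = c * (2 * S8 * T) * (κ * D) := by ring
      _ ≤ c2 * (κ * D) := by gcongr
      _ = R := by rw [hR]; ring
  have key3 : (A0 + A * Real.exp (-(s / 16 * N)) * S8) * T ≤ R * (1 / D) * (1 / N) := by
    have h1 : c * (T * (1 + T' * S8)) ≤ c2 := by
      rw [← hcB]
      apply mul_le_mul_of_nonneg_left _ hc0.le
      rw [hB]
      have : 0 ≤ 2 * S8 * T + 2 * S8 := by positivity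
      linarith
    have h2 : Real.exp (-(s / 16 * N)) ≤ T' * ((1 + N) ^ 7)⁻¹ :=
      exp_le_C7 (by positivity) hN0.le
    have h3 : ((1 + N) ^ 7)⁻¹ ≤ (N * N)⁻¹ := by
      apply inv_anti₀ (by positivity)
      calc N * N ≤ (1 + N) * (1 + N) := by gcongr <;> linarith
        _ = (1 + N) ^ 2 := by ring
        _ ≤ (1 + N) ^ 7 := pow_le_pow_right₀ (by linarith) (by norm_num)
    have h4 : Na * Real.exp (-(s / 16 * N)) ≤ T' * (1 / N) := by
      calc Na * Real.exp (-(s / 16 * N)) ≤ N * (T' * (N * N)⁻¹) := by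
            apply mul_le_mul hNaN (h2.trans (mul_le_mul_of_nonneg_left h3 hT'0.le))
              (Real.exp_pos _).le hN0.le
        _ = T' * (1 / N) := by field_simp
    calc (A0 + A * Real.exp (-(s / 16 * N)) * S8) * T
        = (c * κ / N + c * κ * (Na * Real.exp (-(s / 16 * N))) * S8) * T := by
          rw [hA, hA0']; ring
      _ ≤ (c * κ / N + c * κ * (T' * (1 / N)) * S8) * T := by gcongr
      _ = c * (T * (1 + T' * S8)) * (κ * (1 / N)) := by ring
      _ ≤ c2 * (κ * (1 / N)) := by gcongr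
      _ = R * (1 / D) * (1 / N) := by rw [hR]; field_simp
  have hsmall : 4 * P.K0 * R < 1 := by
    unfold Par.K0
    rw [hPδ, hPσ, hPν, hR, hc2]
    have e : 4 * (32768 * Z6 * (1 / D / (s / 2 * κ))) *
        (s / (262144 * (Z6 + 1)) * κ * D) = Z6 / (Z6 + 1) := by
      field_simp
      ring
    rw [e, div_lt_one (by linarith)]
    linarith
  refine globallyRegular_of_weights P hκ.le hα0 hα lam1 lam2 (d := dcoef n g) hR0.le ?_ hsmall
    (fun x => by rw [hθ x]; exact tsum_dcoef hs hgall x)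
  intro k t ht
  by_cases hk : k = 0
  · subst hk
    have h1 := dcoef_le hs hA0.le hgall (0 : ℤ × ℤ) (n := n)
    rw [rho_zero] at h1
    have h2 : P.wt 0 t = 1 := by unfold Par.wt; rw [if_pos rfl]
    rw [h2, eu_zero, Real.zero_rpow (by linarith), mul_zero, zero_mul, neg_zero, Real.exp_zero,
      one_mul, mul_one]
    simp only [CharP.cast_eq_zero, mul_zero, neg_zero, Real.exp_zero, mul_one] at h1
    exact h1.trans key1
  have hst : P.s t ≤ s / 2 := sg_le P.hσ P.hμ.le P.hν.le ht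
  by_cases hF : Fast n k
  · exact fast_case P hk (lam2 k hF) hF hs ht hst hR0.le hA0.le (Sm_nonneg _)
      (dcoef_le hs hA0.le hgall k) key2
  · exact slow_case P hk (lam1 k hk) hs ht hst hR0.le
      (by positivity) (dcoef_slow_le hs hA0.le hA00.le hg hg0 hF) key3

end Pool.Agent.Work.MP_a2fcf1_an_h64
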