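import Mathlib

/-!
# The dissipative surface quasi-geostrophic equation on the two-dimensional torus

Functions on the torus are functions on the plane that are `2π`-periodic in both variables.
-/

namespace Pool.Agent.Work.MP_a2fcf1_an_h64

open Set
open scoped ContDiff

/-- The sum norm `|k.1| + |k.2|` of a frequency `k`. -/
def n1 (k : ℤ × ℤ) : ℕ := k.1.natAbs + k.2.natAbs

/-- The Euclidean norm `|k|` of a frequency `k`. -/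
noncomputable def eu (k : ℤ × ℤ) : ℝ := Real.sqrt ((k.1 : ℝ) ^ 2 + (k.2 : ℝ) ^ 2)

/-- The exponential `exp (i k · x)`. -/
noncomputable def ex (k : ℤ × ℤ) (x : ℝ × ℝ) : ℂ :=
  Complex.exp (Complex.I * (((k.1 : ℝ) * x.1 + (k.2 : ℝ) * x.2 : ℝ) : ℂ))

/-- The Fourier coefficient `(2π)⁻² ∫∫ f(x) exp (-i k · x) dx`. -/
noncomputable def fc (f : ℝ × ℝ → ℝ) (k : ℤ × ℤ) : ℂ :=
  ((1 / (2 * Real.pi) ^ 2 : ℝ) : ℂ) *
    ∫ y in (0 : ℝ)..(2 * Real.pi), ∫ z in (0 : ℝ)..(2 * Real.pi),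
      ((f (y, z) : ℝ) : ℂ) * ex (-k) (y, z)

/-- The Fourier multiplier operator with symbol `m`. -/
noncomputable def mult (m : ℤ × ℤ → ℂ) (f : ℝ × ℝ → ℝ) (x : ℝ × ℝ) : ℂ :=
  ∑' k : ℤ × ℤ, m k * fc f k * ex k x

/-- The first Riesz transform, with symbol `-i k₁ / |k|`. -/
noncomputable def riesz1 (f : ℝ × ℝ → ℝ) (x : ℝ × ℝ) : ℂ :=
  mult (fun k => -Complex.I * ((k.1 : ℝ) : ℂ) / ((eu k : ℝ) : ℂ)) f x

/-- The second Riesz transform, with symbol `-i k₂ / |k|`. -/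
noncomputable def riesz2 (f : ℝ × ℝ → ℝ) (x : ℝ × ℝ) : ℂ :=
  mult (fun k => -Complex.I * ((k.2 : ℝ) : ℂ) / ((eu k : ℝ) : ℂ)) f x

/-- The fractional Laplacian `(-Δ)^α`, with symbol `|k|^(2α)`. -/
noncomputable def fracLap (α : ℝ) (f : ℝ × ℝ → ℝ) (x : ℝ × ℝ) : ℂ :=
  mult (fun k => ((eu k ^ (2 * α) : ℝ) : ℂ)) f x

/-- The initial value `θ₀` has a global smooth solution: a function `θ`, periodic in space,
smooth on the closed half space `t ≥ 0`, equal to `θ₀` at `t = 0`, with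
`∂ₜθ + u · ∇θ + κ (-Δ)^α θ = 0`, `u = (-R₂θ, R₁θ)`, at all positive times. -/
def GloballyRegular (κ α : ℝ) (θ₀ : ℝ × ℝ → ℝ) : Prop :=
  ∃ θ : ℝ → ℝ × ℝ → ℝ, θ 0 = θ₀ ∧
    (∀ t x, θ t (x.1 + 2 * Real.pi, x.2) = θ t x ∧ θ t (x.1, x.2 + 2 * Real.pi) = θ t x) ∧
    ContDiffOn ℝ ∞ (fun p : ℝ × (ℝ × ℝ) => θ p.1 p.2) (Ici 0 ×ˢ univ) ∧
    ∀ t, 0 < t → ∀ x : ℝ × ℝ,
      ((deriv (fun τ => θ τ x) t : ℝ) : ℂ) +
        (-riesz2 (θ t) x) * ((deriv (fun y => θ t (y, x.2)) x.1 : ℝ) : ℂ) +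
        riesz1 (θ t) x * ((deriv (fun y => θ t (x.1, y)) x.2 : ℝ) : ℂ) +
        (κ : ℂ) * fracLap α (θ t) x = 0

end Pool.Agent.Work.MP_a2fcf1_an_h64
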