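import Pool.Agent.Work.MP_a2fcf1_an_h64.Smooth

/-!
# Derivatives and smoothness of the series on the closed half space
-/

namespace Pool.Agent.Work.MP_a2fcf1_an_h64

open Set
open scoped ContDiff

/-- The closed half space of nonnegative times. -/
def Half : Set (ℝ × (ℝ × ℝ)) := Ici 0 ×ˢ univ

theorem mem_Half {p : ℝ × (ℝ × ℝ)} : p ∈ Half ↔ 0 ≤ p.1 := by simp [Half]

theorem uniqueDiffOn_Half : UniqueDiffOn ℝ Half := (uniqueDiffOn_Ici 0).prod uniqueDiffOn_univ

theorem hasFDerivAt_term {b b' : ℝ → ℂ}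
    (h : ∀ t, 0 ≤ t → HasDerivWithinAt b (b' t) (Ici 0) t) (k : ℤ × ℤ) (p : ℝ × (ℝ × ℝ)) :
    HasFDerivAt (fun p : ℝ × (ℝ × ℝ) => refl b p.1 * ex k p.2)
      (lf (b' |p.1| * ex k p.2, m1 k * (refl b p.1 * ex k p.2),
        m2 k * (refl b p.1 * ex k p.2))) p := by
  have h1 : HasFDerivAt (fun p : ℝ × (ℝ × ℝ) => refl b p.1) _ p :=
    (hasDerivAt_refl h p.1).hasFDerivAt.comp p hasFDerivAt_fst
  have h2 := h1.mul (hasFDerivAt_ex k p)
  refine h2.congr_fderiv ?_
  ext
  · simp [lf_apply]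
    ring
  · simp [lf_apply]
    ring
  · simp [lf_apply]
    ring

theorem hasFDerivWithinAt_ser {b b' : ℤ × ℤ → ℝ → ℂ} (hb : Dec b) (hb' : Dec b')
    (h : ∀ k t, 0 ≤ t → HasDerivWithinAt (b k) (b' k t) (Ici 0) t) {p : ℝ × (ℝ × ℝ)}
    (hp : p ∈ Half) :
    HasFDerivWithinAt (ser b) (lf (ser b' p, ser (fun k t => m1 k * b k t) p,
      ser (fun k t => m2 k * b k t) p)) Half p := by
  have hp0 : 0 ≤ p.1 := mem_Half.mp hp
  have sb := hb.summable_ex hp0 p.2
  have sb' := hb'.summable_ex hp0 p.2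
  have s1 := (hb.mul lin1_m1).summable_ex hp0 p.2
  have s2 := (hb.mul lin1_m2).summable_ex hp0 p.2
  have hb2 := hb
  have hb3 := hb'
  obtain ⟨C, ε, hε, hC, hbd⟩ := hb
  obtain ⟨C', ε', hε', hC', hbd'⟩ := hb'
  set v : ℤ × ℤ → ℝ := fun k => C' * Real.exp (-(ε' * n1 k)) +
    6 * (C * (1 + 2 / ε) * Real.exp (-(ε / 2 * n1 k))) with hv
  have hvs : Summable v :=
    ((summable_exp hε').mul_left C').add
      (((summable_exp (half_pos hε)).mul_left (C * (1 + 2 / ε))).mul_left 6)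
  have key : HasFDerivAt (fun q : ℝ × (ℝ × ℝ) => ∑' k, refl (b k) q.1 * ex k q.2)
      (∑' k, lf (b' k |p.1| * ex k p.2, m1 k * (refl (b k) p.1 * ex k p.2),
        m2 k * (refl (b k) p.1 * ex k p.2))) p := by
    apply hasFDerivAt_tsum hvs (fun k q => hasFDerivAt_term (h k) k q) (x₀ := (0, 0))
    · intro k q
      refine (norm_lf_le _).trans ?_
      simp only [norm_mul, norm_ex, mul_one]
      have h1 := hbd' k |q.1| (abs_nonneg _)
      have h2 := norm_refl_le (hbd k) q.1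
      have h3 := norm_m1_le k
      have h4 := norm_m2_le k
      have hn0 : (0 : ℝ) ≤ n1 k := Nat.cast_nonneg _
      have h5 := lin_exp hε hn0
      have h6 : ‖m1 k‖ * ‖refl (b k) q.1‖ ≤ n1 k * (3 * (C * Real.exp (-(ε * n1 k)))) :=
        mul_le_mul h3 h2 (norm_nonneg _) hn0
      have h7 : ‖m2 k‖ * ‖refl (b k) q.1‖ ≤ n1 k * (3 * (C * Real.exp (-(ε * n1 k)))) :=
        mul_le_mul h4 h2 (norm_nonneg _) hn0
      have h8 : (n1 k : ℝ) * (3 * (C * Real.exp (-(ε * n1 k)))) ≤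
          3 * (C * (1 + 2 / ε) * Real.exp (-(ε / 2 * n1 k))) := by
        have h9 : (n1 k : ℝ) * Real.exp (-(ε * n1 k)) ≤
            (1 + 2 / ε) * Real.exp (-(ε / 2 * n1 k)) := by
          refine le_trans ?_ h5
          apply mul_le_mul_of_nonneg_right _ (Real.exp_pos _).le
          linarith
        calc (n1 k : ℝ) * (3 * (C * Real.exp (-(ε * n1 k))))
            = (3 * C) * ((n1 k : ℝ) * Real.exp (-(ε * n1 k))) := by ring
          _ ≤ (3 * C) * ((1 + 2 / ε) * Real.exp (-(ε / 2 * n1 k))) :=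
              mul_le_mul_of_nonneg_left h9 (by positivity)
          _ = _ := by ring
      rw [hv]
      simp only
      linarith
    · have h0 := hb2.summable_ex le_rfl (0 : ℝ × ℝ)
      refine h0.congr fun k => ?_
      rw [refl_of_nonneg _ le_rfl]
  have e : ∑' k, lf (b' k |p.1| * ex k p.2, m1 k * (refl (b k) p.1 * ex k p.2),
        m2 k * (refl (b k) p.1 * ex k p.2)) =
      lf (ser b' p, ser (fun k t => m1 k * b k t) p, ser (fun k t => m2 k * b k t) p) := by
    have h1 : HasSum (fun k => (b' k p.1 * ex k p.2, m1 k * b k p.1 * ex k p.2,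
        m2 k * b k p.1 * ex k p.2))
        (ser b' p, ser (fun k t => m1 k * b k t) p, ser (fun k t => m2 k * b k t) p) :=
      sb'.hasSum.prodMk (s1.hasSum.prodMk s2.hasSum)
    have h2 := lfL.hasSum h1
    rw [← lfL_apply (ser b' p, _), ← h2.tsum_eq]
    apply tsum_congr
    intro k
    rw [lfL_apply, abs_of_nonneg hp0, refl_of_nonneg _ hp0, mul_assoc, mul_assoc]
  rw [e] at key
  refine key.hasFDerivWithinAt.congr (fun q hq => ?_) ?_
  · exact tsum_congr fun k => by rw [refl_of_nonneg _ (mem_Half.mp hq)]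
  · exact tsum_congr fun k => by rw [refl_of_nonneg _ hp0]

theorem continuousOn_ser {b : ℤ × ℤ → ℝ → ℂ} (hb : Good 0 b) : ContinuousOn (ser b) Half := by
  obtain ⟨⟨C, ε, hε, hC, hbd⟩, hc⟩ := hb
  unfold ser
  apply continuousOn_tsum (u := fun k => C * Real.exp (-(ε * n1 k)))
  · intro k
    have h1 : ContinuousOn (fun p : ℝ × (ℝ × ℝ) => b k p.1) Half :=
      (hc k).comp continuousOn_fst (fun p hp => mem_Half.mp hp)
    have h2 : Continuous fun p : ℝ × (ℝ × ℝ) => ex k p.2 := (continuous_ex k).comp continuous_snd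
    exact h1.mul h2.continuousOn
  · exact (summable_exp hε).mul_left _
  · intro k p hp
    rw [norm_mul, norm_ex, mul_one]
    exact hbd k p.1 (mem_Half.mp hp)

theorem contDiffOn_ser {n : ℕ} {b : ℤ × ℤ → ℝ → ℂ} (hb : Good n b) :
    ContDiffOn ℝ n (ser b) Half := by
  induction n generalizing b with
  | zero =>
    rw [Nat.cast_zero, contDiffOn_zero]
    exact continuousOn_ser hb
  | succ n ih =>
    have hp := hb.pred
    obtain ⟨hd, b', hb', h⟩ := hb
    push_cast
    rw [contDiffOn_succ_iff_hasFDerivWithinAt_of_uniqueDiffOn uniqueDiffOn_Half]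
    refine ⟨fun hcon => ?_, fun p => lf (ser b' p, ser (fun k t => m1 k * b k t) p,
      ser (fun k t => m2 k * b k t) p), ?_, fun p hp => hasFDerivWithinAt_ser hd hb'.dec h hp⟩
    · exact absurd hcon (by simp)
    · have h1 := ih hb'
      have h2 := ih (hp.mul lin1_m1)
      have h3 := ih (hp.mul lin1_m2)
      have h4 := h1.prodMk (h2.prodMk h3)
      exact lfL.contDiff.comp_contDiffOn h4

/-- All orders. -/
def GoodAll (b : ℤ × ℤ → ℝ → ℂ) : Prop := ∀ n, Good n b

theorem contDiffOn_ser_infty {b : ℤ × ℤ → ℝ → ℂ} (hb : GoodAll b) :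
    ContDiffOn ℝ ∞ (ser b) Half := by
  rw [contDiffOn_infty]
  exact fun n => contDiffOn_ser (hb n)

/-- Solutions of quadratic systems with exponential decay are smooth. -/
theorem goodAll_of_system {a : ℤ × ℤ → ℝ → ℂ} {m : ℤ × ℤ → ℂ} {c : ℤ × ℤ → ℤ × ℤ → ℝ}
    (hd : Dec a) (hm : Lin1 m) (hc : AdmC c)
    (h : ∀ k t, 0 ≤ t → HasDerivWithinAt (a k) (m k * a k t + -1 * conv c a a k t) (Ici 0) t) :
    GoodAll a := by
  intro n
  have h1 : Lin1 fun _ => (-1 : ℂ) := by
    refine ⟨1, zero_le_one, fun k => ?_⟩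
    have : (0 : ℝ) ≤ n1 k := Nat.cast_nonneg _
    simp
  induction n with
  | zero => exact ⟨hd, fun k t ht => (h k t ht).continuousWithinAt⟩
  | succ n ih =>
    exact ⟨hd, fun k t => m k * a k t + -1 * conv c a a k t,
      (ih.mul hm).add ((ih.conv hc ih).mul h1), h⟩

end Pool.Agent.Work.MP_a2fcf1_an_h64
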