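import Pool.Agent.Work.MP_a2fcf1_an_h64.Conv
import Pool.Agent.Work.MP_a2fcf1_an_h64.Time

/-!
# The weights and the pointwise interaction bounds
-/

namespace Pool.Agent.Work.MP_a2fcf1_an_h64

open Real

/-- Parameters of the weights. -/
structure Par where
  /-- carrier frequency -/
  n : ℤ × ℤ
  /-- slow decay rate -/
  ν : ℝ
  /-- size of the slow part -/
  δ : ℝ
  /-- analyticity radius -/
  σ : ℝ
  hn : n ≠ 0
  hν : 0 < ν
  hδ : 0 < δ
  hδ1 : δ ≤ 1
  hσ : 0 < σ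

namespace Par

variable (P : Par)

/-- Fast decay rate. -/
noncomputable def μ : ℝ := P.ν / P.δ ^ 2

theorem hμ : 0 < P.μ := div_pos P.hν (pow_pos P.hδ 2)

theorem ν_le_μ : P.ν ≤ P.μ := by
  rw [μ, le_div_iff₀ (pow_pos P.hδ 2)]
  have h1 : P.δ ^ 2 ≤ 1 := pow_le_one₀ P.hδ.le P.hδ1
  nlinarith [P.hν]

/-- Analyticity radius at time `t`. -/
noncomputable def s (t : ℝ) : ℝ := sg P.σ P.μ P.ν t

/-- `exp (-(s t * rho k))`. -/
noncomputable def X (k : ℤ × ℤ) (t : ℝ) : ℝ := exp (-(P.s t * rho P.n k))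

/-- `exp (-(s t * n1 k))`. -/
noncomputable def Y (k : ℤ × ℤ) (t : ℝ) : ℝ := exp (-(P.s t * n1 k))

/-- Fast exponential. -/
noncomputable def e1 (t : ℝ) : ℝ := exp (-(P.μ * t / 2))

/-- Slow exponential. -/
noncomputable def e2 (t : ℝ) : ℝ := exp (-(P.ν * t / 2))

theorem X_pos (k : ℤ × ℤ) (t : ℝ) : 0 < P.X k t := exp_pos _
theorem Y_pos (k : ℤ × ℤ) (t : ℝ) : 0 < P.Y k t := exp_pos _
theorem e1_pos (t : ℝ) : 0 < P.e1 t := exp_pos _
theorem e2_pos (t : ℝ) : 0 < P.e2 t := exp_pos _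

/-- Seventh inverse power of the word length. -/
noncomputable def P7 (k : ℤ × ℤ) : ℝ := ((1 + (rho P.n k : ℝ)) ^ 7)⁻¹

/-- Sixth inverse power of the word length. -/
noncomputable def P6 (k : ℤ × ℤ) : ℝ := ((1 + (rho P.n k : ℝ)) ^ 6)⁻¹

/-- Seventh inverse power of the sum norm. -/
noncomputable def Q7 (_P : Par) (k : ℤ × ℤ) : ℝ := ((1 + (n1 k : ℝ)) ^ 7)⁻¹

theorem P7_pos (k : ℤ × ℤ) : 0 < P.P7 k := by unfold P7; positivity
theorem P6_pos (k : ℤ × ℤ) : 0 < P.P6 k := by unfold P6; positivity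
theorem Q7_pos (k : ℤ × ℤ) : 0 < P.Q7 k := by unfold Q7; positivity

open Classical in
/-- The fast part of the weight. -/
noncomputable def wA (k : ℤ × ℤ) (t : ℝ) : ℝ :=
  if Fast P.n k then P.e1 t * P.X k t * P.P7 k else 0

/-- The slow part of the weight. -/
noncomputable def wB (k : ℤ × ℤ) (t : ℝ) : ℝ :=
  P.δ * P.e2 t * P.Y k t * mm P.n k * P.Q7 k

open Classical in
/-- The weight. -/
noncomputable def wt (k : ℤ × ℤ) (t : ℝ) : ℝ := if k = 0 then 1 else P.wA k t + P.wB k t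

theorem wA_nonneg (k : ℤ × ℤ) (t : ℝ) : 0 ≤ P.wA k t := by
  unfold wA
  split_ifs
  · have := P.X_pos k t
    have := P.e1_pos t
    have := P.P7_pos k
    positivity
  · exact le_rfl

theorem wB_pos (k : ℤ × ℤ) (t : ℝ) : 0 < P.wB k t := by
  have := P.Y_pos k t
  have := P.e2_pos t
  have := P.Q7_pos k
  have := P.hδ
  have := mm_pos P.hn k
  unfold wB
  positivity

theorem wt_pos (k : ℤ × ℤ) (t : ℝ) : 0 < P.wt k t := by
  unfold wt
  split_ifs
  · exact one_pos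
  · have := P.wA_nonneg k t
    have := P.wB_pos k t
    linarith

theorem s_pos (t : ℝ) : 0 < P.s t := sg_pos P.hσ _ _ _

theorem X_mul_X (k j : ℤ × ℤ) (t : ℝ) : P.X j t * P.X (k - j) t ≤ P.X k t := by
  unfold X
  rw [← exp_add, exp_le_exp]
  have h : (rho P.n k : ℝ) ≤ rho P.n j + rho P.n (k - j) := by
    have := rho_add_le P.n j (k - j)
    rw [add_sub_cancel] at this
    exact_mod_cast this
  nlinarith [P.s_pos t]

theorem Y_mul_Y (k j : ℤ × ℤ) (t : ℝ) : P.Y j t * P.Y (k - j) t ≤ P.Y k t := by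
  unfold Y
  rw [← exp_add, exp_le_exp]
  have h : (n1 k : ℝ) ≤ n1 j + n1 (k - j) := by
    have := n1_add_le j (k - j)
    rw [add_sub_cancel] at this
    exact_mod_cast this
  nlinarith [P.s_pos t]

theorem Y_le_X (k : ℤ × ℤ) (t : ℝ) : P.Y k t ≤ P.X k t := by
  unfold X Y
  rw [exp_le_exp]
  have h : (rho P.n k : ℝ) ≤ n1 k := by exact_mod_cast rho_le_n1 P.n k
  nlinarith [P.s_pos t]

theorem Q7_le_P7 (k : ℤ × ℤ) : P.Q7 k ≤ P.P7 k := by
  unfold Q7 P7
  have h : (rho P.n k : ℝ) ≤ n1 k := by exact_mod_cast rho_le_n1 P.n k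
  gcongr

theorem rho_mul_P7 (k : ℤ × ℤ) : (rho P.n k : ℝ) * P.P7 k ≤ P.P6 k := by
  unfold P7 P6
  have h0 : (0 : ℝ) ≤ rho P.n k := Nat.cast_nonneg _
  have e : ((1 + (rho P.n k : ℝ)) ^ 6)⁻¹ =
      (1 + (rho P.n k : ℝ)) * ((1 + (rho P.n k : ℝ)) ^ 7)⁻¹ := by
    field_simp
  rw [e]
  gcongr
  linarith

theorem wA_of_not {k : ℤ × ℤ} (h : ¬ Fast P.n k) (t : ℝ) : P.wA k t = 0 := by
  unfold wA; rw [if_neg h]

theorem wA_of {k : ℤ × ℤ} (h : Fast P.n k) (t : ℝ) :
    P.wA k t = P.e1 t * P.X k t * P.P7 k := by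
  unfold wA; rw [if_pos h]

/-- The nonnegative lattice pair weight. -/
theorem pw_symm (k j : ℤ × ℤ) : pw P.n k (k - j) = pw P.n k j := by
  unfold pw
  rw [sub_sub_cancel, add_comm]

theorem AA_fast (k j : ℤ × ℤ) (t : ℝ) :
    |sc j (k - j)| * (P.wA j t * P.wA (k - j) t) ≤
      128 * (P.e1 t * P.e1 t) * P.X k t * P.P6 k * pw P.n k j := by
  have hE := P.e1_pos t
  have hX := P.X_pos k t
  have hP := P.P6_pos k
  have hw := pw_nonneg P.n k j
  by_cases hj : Fast P.n j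
  · by_cases hl : Fast P.n (k - j)
    · have h1 := sc_fast_fast P.hn hj hl
      have h2 := P.rho_mul_P7 j
      have h3 := P.rho_mul_P7 (k - j)
      have h4 := P.X_mul_X k j t
      have h5 : P.P6 j * P.P6 (k - j) ≤ 64 * P.P6 k * pw P.n k j := conv6 P.n k j
      have p1 := P.P7_pos j
      have p2 := P.P7_pos (k - j)
      have x1 := P.X_pos j t
      have x2 := P.X_pos (k - j) t
      have q1 := P.P6_pos j
      have q2 := P.P6_pos (k - j)
      rw [P.wA_of hj, P.wA_of hl]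
      calc |sc j (k - j)| * (P.e1 t * P.X j t * P.P7 j * (P.e1 t * P.X (k - j) t * P.P7 (k - j)))
          ≤ (2 * (rho P.n j * rho P.n (k - j))) *
            (P.e1 t * P.X j t * P.P7 j * (P.e1 t * P.X (k - j) t * P.P7 (k - j))) := by
            gcongr
        _ = 2 * (P.e1 t * P.e1 t) * (P.X j t * P.X (k - j) t) *
            ((rho P.n j * P.P7 j) * (rho P.n (k - j) * P.P7 (k - j))) := by ring
        _ ≤ 2 * (P.e1 t * P.e1 t) * P.X k t * (P.P6 j * P.P6 (k - j)) := by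
            gcongr
        _ ≤ 2 * (P.e1 t * P.e1 t) * P.X k t * (64 * P.P6 k * pw P.n k j) := by
            apply mul_le_mul_of_nonneg_left h5
            positivity
        _ = _ := by ring
    · rw [P.wA_of_not hl]
      simp only [mul_zero]
      positivity
  · rw [P.wA_of_not hj]
    simp only [mul_zero, zero_mul]
    positivity

theorem AB_fast (k j : ℤ × ℤ) (t : ℝ) :
    |sc j (k - j)| * (P.wA j t * P.wB (k - j) t) ≤
      128 * (P.δ * (P.e1 t * P.e2 t)) * P.X k t * P.P6 k * pw P.n k j := by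
  have hE := P.e1_pos t
  have hE2 := P.e2_pos t
  have hδ := P.hδ
  have hX := P.X_pos k t
  have hP := P.P6_pos k
  have hw := pw_nonneg P.n k j
  by_cases hj : Fast P.n j
  · by_cases hl : k - j = 0
    · rw [hl, sc_zero_right, abs_zero, zero_mul]
      positivity
    · have h1 := sc_fast_any P.hn hj hl
      have h2 := P.rho_mul_P7 j
      have h3 := P.rho_mul_P7 (k - j)
      have h4 := P.X_mul_X k j t
      have h5 : P.P6 j * P.P6 (k - j) ≤ 64 * P.P6 k * pw P.n k j := conv6 P.n k j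
      have h6 := P.Y_le_X (k - j) t
      have h7 := P.Q7_le_P7 (k - j)
      have p1 := P.P7_pos j
      have p2 := P.P7_pos (k - j)
      have p3 := P.Q7_pos (k - j)
      have x1 := P.X_pos j t
      have x2 := P.X_pos (k - j) t
      have y2 := P.Y_pos (k - j) t
      have q1 := P.P6_pos j
      have q2 := P.P6_pos (k - j)
      have m2 := mm_pos P.hn (k - j)
      rw [P.wA_of hj, wB]
      calc |sc j (k - j)| * (P.e1 t * P.X j t * P.P7 j *
            (P.δ * P.e2 t * P.Y (k - j) t * mm P.n (k - j) * P.Q7 (k - j)))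
          = (|sc j (k - j)| * mm P.n (k - j)) * (P.e1 t * P.X j t * P.P7 j *
            (P.δ * P.e2 t * P.Y (k - j) t * P.Q7 (k - j))) := by ring
        _ ≤ (2 * (rho P.n j * rho P.n (k - j))) * (P.e1 t * P.X j t * P.P7 j *
            (P.δ * P.e2 t * P.X (k - j) t * P.P7 (k - j))) := by
            gcongr
        _ = 2 * (P.δ * (P.e1 t * P.e2 t)) * (P.X j t * P.X (k - j) t) *
            ((rho P.n j * P.P7 j) * (rho P.n (k - j) * P.P7 (k - j))) := by ring
        _ ≤ 2 * (P.δ * (P.e1 t * P.e2 t)) * P.X k t * (P.P6 j * P.P6 (k - j)) := by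
            gcongr
        _ ≤ 2 * (P.δ * (P.e1 t * P.e2 t)) * P.X k t * (64 * P.P6 k * pw P.n k j) := by
            apply mul_le_mul_of_nonneg_left h5
            positivity
        _ = _ := by ring
  · rw [P.wA_of_not hj]
    simp only [mul_zero, zero_mul]
    positivity

theorem AA_slow (k j : ℤ × ℤ) (t : ℝ) :
    |sc j (k - j)| * (P.wA j t * P.wA (k - j) t) ≤
      256 * (P.e1 t * P.e1 t) * P.X k t * (n1 k * mm P.n k) * P.P7 k * pw P.n k j := by
  have hE := P.e1_pos t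
  have hX := P.X_pos k t
  have hP := P.P7_pos k
  have hw := pw_nonneg P.n k j
  have hm := mm_pos P.hn k
  by_cases hj : Fast P.n j
  · by_cases hl : Fast P.n (k - j)
    · have h1 := sc_fast_out P.hn (k - j) hj
      rw [add_sub_cancel] at h1
      have h4 := P.X_mul_X k j t
      have h5 : P.P7 j * P.P7 (k - j) ≤ 128 * P.P7 k * pw P.n k j := conv7 P.n k j
      have p1 := P.P7_pos j
      have p2 := P.P7_pos (k - j)
      have x1 := P.X_pos j t
      have x2 := P.X_pos (k - j) t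
      rw [P.wA_of hj, P.wA_of hl]
      calc |sc j (k - j)| * (P.e1 t * P.X j t * P.P7 j * (P.e1 t * P.X (k - j) t * P.P7 (k - j)))
          ≤ (2 * (n1 k * mm P.n k)) *
            (P.e1 t * P.X j t * P.P7 j * (P.e1 t * P.X (k - j) t * P.P7 (k - j))) := by
            gcongr
        _ = 2 * (n1 k * mm P.n k) * (P.e1 t * P.e1 t) * (P.X j t * P.X (k - j) t) *
            (P.P7 j * P.P7 (k - j)) := by ring
        _ ≤ 2 * (n1 k * mm P.n k) * (P.e1 t * P.e1 t) * P.X k t *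
            (128 * P.P7 k * pw P.n k j) :=
            mul_le_mul (mul_le_mul_of_nonneg_left h4 (by positivity)) h5 (by positivity)
              (by positivity)
        _ = _ := by ring
    · rw [P.wA_of_not hl]
      simp only [mul_zero]
      positivity
  · rw [P.wA_of_not hj]
    simp only [mul_zero, zero_mul]
    positivity

theorem AB_slow (k j : ℤ × ℤ) (t : ℝ) :
    |sc j (k - j)| * (P.wA j t * P.wB (k - j) t) ≤
      256 * (P.δ * (P.e1 t * P.e2 t)) * P.X k t * (n1 k * mm P.n k) * P.P7 k * pw P.n k j := by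
  have hE := P.e1_pos t
  have hE2 := P.e2_pos t
  have hδ := P.hδ
  have hX := P.X_pos k t
  have hP := P.P7_pos k
  have hw := pw_nonneg P.n k j
  have hm := mm_pos P.hn k
  by_cases hj : Fast P.n j
  · have h1 := sc_fast_out P.hn (k - j) hj
    rw [add_sub_cancel] at h1
    have h4 := P.X_mul_X k j t
    have h5 : P.P7 j * P.P7 (k - j) ≤ 128 * P.P7 k * pw P.n k j := conv7 P.n k j
    have h6 := P.Y_le_X (k - j) t
    have h7 := P.Q7_le_P7 (k - j)
    have h8 := mm_le_one P.n (k - j)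
    have p1 := P.P7_pos j
    have p2 := P.P7_pos (k - j)
    have p3 := P.Q7_pos (k - j)
    have x1 := P.X_pos j t
    have x2 := P.X_pos (k - j) t
    have y2 := P.Y_pos (k - j) t
    have m2 := mm_pos P.hn (k - j)
    rw [P.wA_of hj, wB]
    calc |sc j (k - j)| * (P.e1 t * P.X j t * P.P7 j *
          (P.δ * P.e2 t * P.Y (k - j) t * mm P.n (k - j) * P.Q7 (k - j)))
        ≤ (2 * (n1 k * mm P.n k)) * (P.e1 t * P.X j t * P.P7 j *
          (P.δ * P.e2 t * P.X (k - j) t * 1 * P.P7 (k - j))) := by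
          gcongr
      _ = 2 * (n1 k * mm P.n k) * (P.δ * (P.e1 t * P.e2 t)) * (P.X j t * P.X (k - j) t) *
          (P.P7 j * P.P7 (k - j)) := by ring
      _ ≤ 2 * (n1 k * mm P.n k) * (P.δ * (P.e1 t * P.e2 t)) * P.X k t *
          (128 * P.P7 k * pw P.n k j) :=
          mul_le_mul (mul_le_mul_of_nonneg_left h4 (by positivity)) h5 (by positivity)
            (by positivity)
      _ = _ := by ring
  · rw [P.wA_of_not hj]
    simp only [mul_zero, zero_mul]
    positivity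

theorem BB (k j : ℤ × ℤ) (t : ℝ) :
    |sc j (k - j)| * (P.wB j t * P.wB (k - j) t) ≤
      128 * (P.δ ^ 2 * (P.e2 t * P.e2 t)) * P.Y k t * (n1 k * mm P.n k) * P.Q7 k *
        pw P.n k j := by
  have hE2 := P.e2_pos t
  have hδ := P.hδ
  have hY := P.Y_pos k t
  have hQ := P.Q7_pos k
  have hw := pw_nonneg P.n k j
  have hm := mm_pos P.hn k
  have h1 := sc_damped P.hn j (k - j)
  rw [add_sub_cancel] at h1
  have h4 := P.Y_mul_Y k j t
  have h5 : min (1 + (n1 j : ℝ)) (1 + (n1 (k - j) : ℝ)) * (P.Q7 j * P.Q7 (k - j)) ≤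
      128 * P.Q7 k * pw P.n k j := convQ P.n k j
  have p1 := P.Q7_pos j
  have p2 := P.Q7_pos (k - j)
  have x1 := P.Y_pos j t
  have x2 := P.Y_pos (k - j) t
  have m1 := mm_pos P.hn j
  have m2 := mm_pos P.hn (k - j)
  unfold wB
  calc |sc j (k - j)| * (P.δ * P.e2 t * P.Y j t * mm P.n j * P.Q7 j *
        (P.δ * P.e2 t * P.Y (k - j) t * mm P.n (k - j) * P.Q7 (k - j)))
      = (|sc j (k - j)| * (mm P.n j * mm P.n (k - j))) * (P.δ ^ 2 * (P.e2 t * P.e2 t)) *
        (P.Y j t * P.Y (k - j) t) * (P.Q7 j * P.Q7 (k - j)) := by ring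
    _ ≤ ((n1 k * mm P.n k) * min (1 + (n1 j : ℝ)) (1 + (n1 (k - j) : ℝ))) *
        (P.δ ^ 2 * (P.e2 t * P.e2 t)) * P.Y k t * (P.Q7 j * P.Q7 (k - j)) := by
        gcongr
    _ = (n1 k * mm P.n k) * (P.δ ^ 2 * (P.e2 t * P.e2 t)) * P.Y k t *
        (min (1 + (n1 j : ℝ)) (1 + (n1 (k - j) : ℝ)) * (P.Q7 j * P.Q7 (k - j))) := by ring
    _ ≤ (n1 k * mm P.n k) * (P.δ ^ 2 * (P.e2 t * P.e2 t)) * P.Y k t *
        (128 * P.Q7 k * pw P.n k j) := by
        apply mul_le_mul_of_nonneg_left h5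
        positivity
    _ = _ := by ring

/-- The full product of weights at two nonzero frequencies. -/
theorem sc_wt_eq (k j : ℤ × ℤ) (t : ℝ) :
    |sc j (k - j)| * (P.wt j t * P.wt (k - j) t) =
      |sc j (k - j)| * (P.wA j t * P.wA (k - j) t) +
      |sc j (k - j)| * (P.wA j t * P.wB (k - j) t) +
      |sc j (k - j)| * (P.wB j t * P.wA (k - j) t) +
      |sc j (k - j)| * (P.wB j t * P.wB (k - j) t) := by
  by_cases hj : j = 0
  · subst hj; simp
  by_cases hl : k - j = 0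
  · rw [hl]; simp
  · unfold wt
    rw [if_neg hj, if_neg hl]
    ring

theorem BA_eq (k j : ℤ × ℤ) (t : ℝ) :
    |sc j (k - j)| * (P.wB j t * P.wA (k - j) t) =
      |sc (k - j) (k - (k - j))| * (P.wA (k - j) t * P.wB (k - (k - j)) t) := by
  rw [sub_sub_cancel, sc_comm j (k - j)]
  ring

theorem BA_fast (k j : ℤ × ℤ) (t : ℝ) :
    |sc j (k - j)| * (P.wB j t * P.wA (k - j) t) ≤
      128 * (P.δ * (P.e1 t * P.e2 t)) * P.X k t * P.P6 k * pw P.n k j := by
  rw [P.BA_eq, ← P.pw_symm k j]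
  exact P.AB_fast k (k - j) t

theorem BA_slow (k j : ℤ × ℤ) (t : ℝ) :
    |sc j (k - j)| * (P.wB j t * P.wA (k - j) t) ≤
      256 * (P.δ * (P.e1 t * P.e2 t)) * P.X k t * (n1 k * mm P.n k) * P.P7 k * pw P.n k j := by
  rw [P.BA_eq, ← P.pw_symm k j]
  exact P.AB_slow k (k - j) t

/-- Pointwise bound at any output frequency in fast form. -/
noncomputable def Hf (k : ℤ × ℤ) (t : ℝ) : ℝ :=
  128 * P.P6 k * ((P.e1 t * P.e1 t + 2 * (P.δ * (P.e1 t * P.e2 t))) * P.X k t) +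
  128 * (n1 k * mm P.n k) * P.Q7 k * (P.δ ^ 2 * (P.e2 t * P.e2 t) * P.Y k t)

/-- Pointwise bound at any output frequency in slow form. -/
noncomputable def Hs (k : ℤ × ℤ) (t : ℝ) : ℝ :=
  256 * (n1 k * mm P.n k) * P.P7 k *
    ((P.e1 t * P.e1 t + 2 * (P.δ * (P.e1 t * P.e2 t))) * P.X k t) +
  128 * (n1 k * mm P.n k) * P.Q7 k * (P.δ ^ 2 * (P.e2 t * P.e2 t) * P.Y k t)

theorem term_fast (k j : ℤ × ℤ) (t : ℝ) :
    |sc j (k - j)| * (P.wt j t * P.wt (k - j) t) ≤ P.Hf k t * pw P.n k j := by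
  rw [sc_wt_eq]
  have h1 := P.AA_fast k j t
  have h2 := P.AB_fast k j t
  have h3 := P.BA_fast k j t
  have h4 := P.BB k j t
  have e : P.Hf k t * pw P.n k j =
      128 * (P.e1 t * P.e1 t) * P.X k t * P.P6 k * pw P.n k j +
      128 * (P.δ * (P.e1 t * P.e2 t)) * P.X k t * P.P6 k * pw P.n k j +
      128 * (P.δ * (P.e1 t * P.e2 t)) * P.X k t * P.P6 k * pw P.n k j +
      128 * (P.δ ^ 2 * (P.e2 t * P.e2 t)) * P.Y k t * (n1 k * mm P.n k) * P.Q7 k *
        pw P.n k j := by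
    unfold Hf; ring
  rw [e]
  linarith

theorem term_slow (k j : ℤ × ℤ) (t : ℝ) :
    |sc j (k - j)| * (P.wt j t * P.wt (k - j) t) ≤ P.Hs k t * pw P.n k j := by
  rw [sc_wt_eq]
  have h1 := P.AA_slow k j t
  have h2 := P.AB_slow k j t
  have h3 := P.BA_slow k j t
  have h4 := P.BB k j t
  have e : P.Hs k t * pw P.n k j =
      256 * (P.e1 t * P.e1 t) * P.X k t * (n1 k * mm P.n k) * P.P7 k * pw P.n k j +
      256 * (P.δ * (P.e1 t * P.e2 t)) * P.X k t * (n1 k * mm P.n k) * P.P7 k * pw P.n k j +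
      256 * (P.δ * (P.e1 t * P.e2 t)) * P.X k t * (n1 k * mm P.n k) * P.P7 k * pw P.n k j +
      128 * (P.δ ^ 2 * (P.e2 t * P.e2 t)) * P.Y k t * (n1 k * mm P.n k) * P.Q7 k *
        pw P.n k j := by
    unfold Hs; ring
  rw [e]
  linarith

end Par

end Pool.Agent.Work.MP_a2fcf1_an_h64
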