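import Pool.Agent.Work.MP_a2fcf1_an_h64.Basic

/-!
# The word metric attached to a carrier frequency
-/

namespace Pool.Agent.Work.MP_a2fcf1_an_h64

/-- The word length of `k` when steps of unit length and steps `n` cost one each. -/
noncomputable def rho (n k : ℤ × ℤ) : ℕ :=
  sInf (Set.range fun m : ℤ => n1 (k - m • n) + m.natAbs)

theorem rho_le (n k : ℤ × ℤ) (m : ℤ) : rho n k ≤ n1 (k - m • n) + m.natAbs :=
  Nat.sInf_le ⟨m, rfl⟩

theorem exists_rho (n k : ℤ × ℤ) : ∃ m : ℤ, rho n k = n1 (k - m • n) + m.natAbs := by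
  obtain ⟨m, hm⟩ := Nat.sInf_mem
    (Set.range_nonempty fun m : ℤ => n1 (k - m • n) + m.natAbs)
  exact ⟨m, hm.symm⟩

/-- The number of carrier steps in a shortest word. -/
noncomputable def rm (n k : ℤ × ℤ) : ℤ := Classical.choose (exists_rho n k)

theorem rho_eq (n k : ℤ × ℤ) : rho n k = n1 (k - rm n k • n) + (rm n k).natAbs :=
  Classical.choose_spec (exists_rho n k)

theorem rho_add_le (n j l : ℤ × ℤ) : rho n (j + l) ≤ rho n j + rho n l := by
  obtain ⟨a, ha⟩ := exists_rho n j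
  obtain ⟨b, hb⟩ := exists_rho n l
  refine (rho_le n (j + l) (a + b)).trans ?_
  rw [ha, hb]
  have h1 : j + l - (a + b) • n = (j - a • n) + (l - b • n) := by
    rw [add_smul]; abel
  rw [h1]
  have h2 := n1_add_le (j - a • n) (l - b • n)
  have h3 := Int.natAbs_add_le a b
  omega

theorem rho_neg_le (n k : ℤ × ℤ) : rho n (-k) ≤ rho n k := by
  obtain ⟨a, ha⟩ := exists_rho n k
  refine (rho_le n (-k) (-a)).trans ?_
  rw [ha]
  have h1 : -k - (-a) • n = -(k - a • n) := by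
    rw [neg_smul]; abel
  rw [h1, n1_neg, Int.natAbs_neg]

@[simp] theorem rho_neg (n k : ℤ × ℤ) : rho n (-k) = rho n k := by
  apply le_antisymm (rho_neg_le n k)
  have := rho_neg_le n (-k)
  rwa [neg_neg] at this

theorem rho_le_n1 (n k : ℤ × ℤ) : rho n k ≤ n1 k := by
  have := rho_le n k 0
  simpa using this

theorem n1_sub_le (j l : ℤ × ℤ) : n1 (j - l) ≤ n1 j + n1 l := by
  rw [sub_eq_add_neg]
  have := n1_add_le j (-l)
  rwa [n1_neg] at this

theorem n1_le_mul_rho {n : ℤ × ℤ} (hn : n ≠ 0) (k : ℤ × ℤ) : n1 k ≤ n1 n * rho n k := by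
  obtain ⟨a, ha⟩ := exists_rho n k
  have h1 : n1 k ≤ n1 (k - a • n) + n1 (a • n) := by
    have := n1_add_le (k - a • n) (a • n)
    rwa [sub_add_cancel] at this
  rw [n1_smul] at h1
  have hN := one_le_n1 hn
  rw [ha, mul_add]
  have h2 : n1 (k - a • n) ≤ n1 n * n1 (k - a • n) := Nat.le_mul_of_pos_left _ hN
  have h3 : a.natAbs * n1 n = n1 n * a.natAbs := mul_comm _ _
  omega

theorem one_le_rho {n : ℤ × ℤ} (hn : n ≠ 0) {k : ℤ × ℤ} (hk : k ≠ 0) : 1 ≤ rho n k := by
  by_contra h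
  have h0 : rho n k = 0 := by omega
  have h1 := n1_le_mul_rho hn k
  rw [h0, mul_zero] at h1
  have := one_le_n1 hk
  omega

@[simp] theorem rho_zero (n : ℤ × ℤ) : rho n 0 = 0 := by
  have := rho_le_n1 n 0
  simpa using this

/-- A frequency is fast when its word length is less than its sum norm. -/
def Fast (n k : ℤ × ℤ) : Prop := rho n k < n1 k

theorem fast_neg {n k : ℤ × ℤ} : Fast n (-k) ↔ Fast n k := by
  simp [Fast]

theorem Fast.ne_zero {n k : ℤ × ℤ} (h : Fast n k) : k ≠ 0 := by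
  rintro rfl
  simp [Fast] at h

theorem not_fast_iff {n k : ℤ × ℤ} : ¬ Fast n k ↔ rho n k = n1 k := by
  rw [Fast, not_lt]
  exact ⟨fun h => le_antisymm (rho_le_n1 n k) h, fun h => h.ge⟩

theorem Fast.lt {n k : ℤ × ℤ} (h : Fast n k) : n1 n + 1 < 2 * n1 k := by
  obtain ⟨a, ha⟩ := exists_rho n k
  have hlt : rho n k < n1 k := h
  have ha0 : a ≠ 0 := by
    rintro rfl
    simp at ha
    omega
  have h1 : n1 (a • n) ≤ n1 k + n1 (k - a • n) := by
    have := n1_sub_le k (k - a • n)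
    rwa [sub_sub_cancel] at this
  rw [n1_smul] at h1
  have h2 : 1 ≤ a.natAbs := Nat.one_le_iff_ne_zero.mpr (Int.natAbs_ne_zero.mpr ha0)
  have h3 : n1 n + 1 ≤ a.natAbs * (n1 n + 1) := Nat.le_mul_of_pos_left _ h2
  have h4 : a.natAbs * (n1 n + 1) = a.natAbs * n1 n + a.natAbs := by ring
  omega

theorem Fast.le_eu {n k : ℤ × ℤ} (h : Fast n k) : (n1 n : ℝ) ≤ 4 * eu k := by
  have h1 : (n1 n : ℝ) + 1 < 2 * n1 k := by exact_mod_cast h.lt
  have h2 := n1_le_two_eu k
  linarith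

theorem abs_cr_le_rho {n : ℤ × ℤ} (hn : n ≠ 0) (j l : ℤ × ℤ) :
    |(cr j l : ℝ)| ≤ n1 n * (rho n j * rho n l) := by
  obtain ⟨a, ha⟩ := exists_rho n j
  obtain ⟨b, hb⟩ := exists_rho n l
  set p := j - a • n with hp
  set q := l - b • n with hq
  have hj : j = p + a • n := by rw [hp]; abel
  have hl : l = q + b • n := by rw [hq]; abel
  have h1 : (cr j l : ℝ) = cr p q + b * cr p n + a * cr n q := by
    have : cr j l = cr p q + b * cr p n + a * cr n q := by
      rw [hj, hl, cr_add_left, cr_add_right, cr_add_right, cr_smul_left, cr_smul_left,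
        cr_smul_right, cr_smul_right, cr_self]
      ring
    exact_mod_cast this
  have e1 := abs_cr_le_n1 p q
  have e2 := abs_cr_le_n1 p n
  have e3 := abs_cr_le_n1 n q
  have hN : (1 : ℝ) ≤ n1 n := by exact_mod_cast one_le_n1 hn
  have hp0 : (0 : ℝ) ≤ n1 p := Nat.cast_nonneg _
  have hq0 : (0 : ℝ) ≤ n1 q := Nat.cast_nonneg _
  have ha' : |(a : ℝ)| = (a.natAbs : ℝ) := by simp [Nat.cast_natAbs]
  have hb' : |(b : ℝ)| = (b.natAbs : ℝ) := by simp [Nat.cast_natAbs]
  have ha0 : (0 : ℝ) ≤ a.natAbs := Nat.cast_nonneg _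
  have hb0 : (0 : ℝ) ≤ b.natAbs := Nat.cast_nonneg _
  rw [h1, ha, hb]
  push_cast
  calc |(cr p q : ℝ) + b * cr p n + a * cr n q|
      ≤ |(cr p q : ℝ)| + |(b : ℝ)| * |(cr p n : ℝ)| + |(a : ℝ)| * |(cr n q : ℝ)| := by
        rw [← abs_mul, ← abs_mul]
        exact abs_add_three _ _ _
    _ ≤ n1 p * n1 q + b.natAbs * (n1 p * n1 n) + a.natAbs * (n1 n * n1 q) := by
        rw [ha', hb']
        gcongr
    _ ≤ n1 n * ((n1 p + a.natAbs) * (n1 q + b.natAbs)) := by
        have : (n1 p : ℝ) * n1 q ≤ n1 n * (n1 p * n1 q) :=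
          le_mul_of_one_le_left (mul_nonneg hp0 hq0) hN
        nlinarith [mul_nonneg (mul_nonneg ha0 hb0) (zero_le_one.trans hN)]

/-- The damping factor of low frequencies. -/
noncomputable def mm (n k : ℤ × ℤ) : ℝ := min 1 ((1 + (n1 k : ℝ)) / n1 n)

@[simp] theorem mm_neg (n k : ℤ × ℤ) : mm n (-k) = mm n k := by simp [mm]

theorem mm_le_one (n k : ℤ × ℤ) : mm n k ≤ 1 := min_le_left _ _

theorem inv_le_mm {n : ℤ × ℤ} (hn : n ≠ 0) (k : ℤ × ℤ) : 1 / (n1 n : ℝ) ≤ mm n k := by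
  have hN : (1 : ℝ) ≤ n1 n := by exact_mod_cast one_le_n1 hn
  refine le_min ?_ ?_
  · rw [div_le_one (by linarith)]; exact hN
  · gcongr
    have : (0 : ℝ) ≤ n1 k := Nat.cast_nonneg _
    linarith

theorem mm_pos {n : ℤ × ℤ} (hn : n ≠ 0) (k : ℤ × ℤ) : 0 < mm n k := by
  have hN : (1 : ℝ) ≤ n1 n := by exact_mod_cast one_le_n1 hn
  exact lt_of_lt_of_le (by positivity) (inv_le_mm hn k)

theorem mm_le_mul {n : ℤ × ℤ} (hn : n ≠ 0) (j k : ℤ × ℤ) :
    mm n j ≤ (1 + (n1 j : ℝ)) * mm n k := by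
  have hN : (1 : ℝ) ≤ n1 n := by exact_mod_cast one_le_n1 hn
  have hj : (0 : ℝ) ≤ n1 j := Nat.cast_nonneg _
  calc mm n j ≤ (1 + (n1 j : ℝ)) / n1 n := min_le_right _ _
    _ = (1 + (n1 j : ℝ)) * (1 / n1 n) := by ring
    _ ≤ (1 + (n1 j : ℝ)) * mm n k := by
        gcongr
        exact inv_le_mm hn k

/-- Fast-fast interactions. -/
theorem sc_fast_fast {n : ℤ × ℤ} (hn : n ≠ 0) {j l : ℤ × ℤ} (hj : Fast n j) (hl : Fast n l) :
    |sc j l| ≤ 2 * (rho n j * rho n l) := by
  have hN : (1 : ℝ) ≤ n1 n := by exact_mod_cast one_le_n1 hn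
  have h1 := abs_sc_le_max (j := j) (l := l)
  have h2 := abs_cr_le_rho hn j l
  have pj := eu_pos hj.ne_zero
  have pl := eu_pos hl.ne_zero
  have h3 : max (1 / eu j) (1 / eu l) ≤ 4 / n1 n := by
    apply max_le
    · rw [div_le_div_iff₀ pj (by linarith)]
      have := hj.le_eu
      linarith
    · rw [div_le_div_iff₀ pl (by linarith)]
      have := hl.le_eu
      linarith
  calc |sc j l| ≤ (1 / 2) * |(cr j l : ℝ)| * max (1 / eu j) (1 / eu l) := h1
    _ ≤ (1 / 2) * (n1 n * (rho n j * rho n l)) * (4 / n1 n) := by gcongr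
    _ = 2 * (rho n j * rho n l) := by field_simp; ring

/-- Fast-any interactions, with the damping factor of the second frequency. -/
theorem sc_fast_any {n : ℤ × ℤ} (hn : n ≠ 0) {j l : ℤ × ℤ} (hj : Fast n j) (hl : l ≠ 0) :
    |sc j l| * mm n l ≤ 2 * (rho n j * rho n l) := by
  have hN : (1 : ℝ) ≤ n1 n := by exact_mod_cast one_le_n1 hn
  have h1 := abs_sc_le_max (j := j) (l := l)
  have h2 := abs_cr_le_rho hn j l
  have pj := eu_pos hj.ne_zero
  have pl := eu_pos hl
  have hm0 := (mm_pos hn l).le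
  have h3 : max (1 / eu j) (1 / eu l) * mm n l ≤ 4 / n1 n := by
    rw [max_mul_of_nonneg _ _ hm0]
    apply max_le
    · have h4 : 1 / eu j ≤ 4 / n1 n := by
        rw [div_le_div_iff₀ pj (by linarith)]
        have := hj.le_eu
        linarith
      calc 1 / eu j * mm n l ≤ 4 / n1 n * 1 := by
            gcongr
            exact mm_le_one n l
        _ = 4 / n1 n := mul_one _
    · have h5 : mm n l ≤ (1 + (n1 l : ℝ)) / n1 n := min_le_right _ _
      have h6 : (1 : ℝ) ≤ n1 l := by exact_mod_cast one_le_n1 hl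
      have h7 := n1_le_two_eu l
      calc 1 / eu l * mm n l ≤ 1 / eu l * ((1 + (n1 l : ℝ)) / n1 n) := by gcongr
        _ ≤ 1 / eu l * ((4 * eu l) / n1 n) := by
            gcongr
            linarith
        _ = 4 / n1 n := by field_simp
  calc |sc j l| * mm n l
      ≤ (1 / 2) * |(cr j l : ℝ)| * max (1 / eu j) (1 / eu l) * mm n l := by gcongr
    _ = (1 / 2) * |(cr j l : ℝ)| * (max (1 / eu j) (1 / eu l) * mm n l) := by ring
    _ ≤ (1 / 2) * (n1 n * (rho n j * rho n l)) * (4 / n1 n) := by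
        gcongr
    _ = 2 * (rho n j * rho n l) := by field_simp; ring

/-- Interactions with a fast frequency, in terms of the output. -/
theorem sc_fast_out {n : ℤ × ℤ} (hn : n ≠ 0) {j : ℤ × ℤ} (l : ℤ × ℤ) (hj : Fast n j) :
    |sc j l| ≤ 2 * (n1 (j + l) * mm n (j + l)) := by
  have hN : (1 : ℝ) ≤ n1 n := by exact_mod_cast one_le_n1 hn
  by_cases hl : l = 0
  · subst hl
    have := (mm_pos hn (j + 0)).le
    simp only [sc_zero_right, abs_zero]
    positivity
  have pj := eu_pos hj.ne_zero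
  have h1 := abs_sc_mul_le hj.ne_zero hl
  have h2 := abs_sc_le_eu j l
  have h3 := eu_le_n1 (j + l)
  have h0 := eu_nonneg (j + l)
  rw [mm, mul_min_of_nonneg _ _ (Nat.cast_nonneg _), mul_min_of_nonneg _ _ (by norm_num)]
  apply le_min
  · linarith
  · have h4 := hj.le_eu
    have h5 : |sc j l| * n1 n ≤ 2 * (n1 (j + l) * (1 + n1 (j + l))) := by
      calc |sc j l| * n1 n ≤ |sc j l| * (4 * eu j) := by gcongr
        _ = 4 * (|sc j l| * eu j) := by ring
        _ ≤ 4 * (eu (j + l) ^ 2 / 2) := by gcongr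
        _ = 2 * (eu (j + l) * eu (j + l)) := by ring
        _ ≤ 2 * (n1 (j + l) * (1 + n1 (j + l))) := by
            gcongr
            linarith
    rw [← mul_div_assoc, ← mul_div_assoc, le_div_iff₀ (by linarith)]
    exact h5

/-- Interactions of two damped frequencies. -/
theorem sc_damped {n : ℤ × ℤ} (hn : n ≠ 0) (j l : ℤ × ℤ) :
    |sc j l| * (mm n j * mm n l) ≤
      (n1 (j + l) * mm n (j + l)) * min (1 + (n1 j : ℝ)) (1 + (n1 l : ℝ)) := by
  have h2 := abs_sc_le_eu j l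
  have h3 := eu_le_n1 (j + l)
  have pj := (mm_pos hn j).le
  have pl := (mm_pos hn l).le
  have pk := (mm_pos hn (j + l)).le
  have h4 : mm n j * mm n l ≤ mm n (j + l) * min (1 + (n1 j : ℝ)) (1 + (n1 l : ℝ)) := by
    rw [mul_min_of_nonneg _ _ pk]
    apply le_min
    · calc mm n j * mm n l ≤ mm n j * 1 := by
            gcongr
            exact mm_le_one n l
        _ ≤ mm n (j + l) * (1 + (n1 j : ℝ)) := by
            rw [mul_one, mul_comm]
            exact mm_le_mul hn j (j + l)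
    · calc mm n j * mm n l ≤ 1 * mm n l := by
            gcongr
            exact mm_le_one n j
        _ ≤ mm n (j + l) * (1 + (n1 l : ℝ)) := by
            rw [one_mul, mul_comm]
            exact mm_le_mul hn l (j + l)
  calc |sc j l| * (mm n j * mm n l)
      ≤ n1 (j + l) * (mm n (j + l) * min (1 + (n1 j : ℝ)) (1 + (n1 l : ℝ))) := by
        apply mul_le_mul (h2.trans h3) h4 (mul_nonneg pj pl) (Nat.cast_nonneg _)
    _ = _ := by ring

end Pool.Agent.Work.MP_a2fcf1_an_h64
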